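import Pool.Agent.Lib.MP_3493b8_lc.Cheb
import Pool.Agent.Lib.PTC.Def

/-! A union bound for adaptive experiments. -/

set_option autoImplicit false

open Finset

namespace Pool.Agent.Lib.H2

open Pool.Agent.Lib.PTC

private theorem itr_congr_ad {τ : Type} (f g : ℕ → τ → τ) (s : τ) (t : ℕ)
    (h : ∀ i < t, f i = g i) : itr f s t = itr g s t := by
  induction t with
  | zero => rfl
  | succ t ih =>
    change f t (itr f s t) = g t (itr g s t)
    rw [ih fun i hi => h i (by omega), h t (by omega)]

private theorem sum_range_split_ad (F : ℕ → ℝ) (M k : ℕ) :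
    ∑ r ∈ range (M * k), F r = ∑ d ∈ range k, ∑ r ∈ range M, F (M * d + r) := by
  induction k with
  | zero => simp
  | succ k ih => rw [Nat.mul_succ, sum_range_add, ih, sum_range_succ]

private theorem digs_low_ad {b : ℕ} (hb : 0 < b) {t i : ℕ} (hi : i < t) (d r : ℕ) :
    digs b (b ^ t * d + r) i = digs b r i := by
  unfold digs
  obtain ⟨k, rfl⟩ : ∃ k, t = i + (k + 1) := ⟨t - i - 1, by omega⟩
  have h1 : b ^ (i + (k + 1)) * d + r = r + b ^ i * (b ^ (k + 1) * d) := by
    rw [pow_add]
    ring
  rw [h1, Nat.add_mul_div_left _ _ (pow_pos hb i)]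
  have h2 : b ^ (k + 1) * d = b * (b ^ k * d) := by
    rw [pow_succ]
    ring
  rw [h2, Nat.add_mul_mod_self_left]

private theorem digs_top_ad {b : ℕ} (hb : 0 < b) {t d r : ℕ} (hr : r < b ^ t) (hd : d < b) :
    digs b (b ^ t * d + r) t = d := by
  unfold digs
  rw [Nat.mul_add_div (pow_pos hb t), Nat.div_eq_of_lt hr, add_zero, Nat.mod_eq_of_lt hd]

private theorem card_step_ad (b m : ℕ) (P Q : ℕ → Prop) (R : ℕ → ℕ → Prop) [DecidablePred P]
    [DecidablePred Q] [∀ r, DecidablePred (R r)] {δ : ℝ} (hδ : 0 ≤ δ)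
    (h : ∀ r < b ^ m, ∀ d < b, Q (b ^ m * d + r) → P r ∨ R r d)
    (hR : ∀ r < b ^ m, ¬ P r → (((range b).filter (R r)).card : ℝ) ≤ δ * b) :
    (((range (b ^ (m + 1))).filter Q).card : ℝ) ≤
      b * ((range (b ^ m)).filter P).card + δ * b * (b : ℝ) ^ m := by
  have e1 : (((range (b ^ (m + 1))).filter Q).card : ℝ) =
      ∑ r ∈ range (b ^ m), ∑ d ∈ range b, if Q (b ^ m * d + r) then (1 : ℝ) else 0 := by
    rw [card_filter, Nat.cast_sum, pow_succ, sum_range_split_ad, sum_comm]
    refine sum_congr rfl fun r _ => sum_congr rfl fun d _ => ?_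
    split_ifs <;> simp
  have e2 : (b : ℝ) * ((range (b ^ m)).filter P).card + δ * b * (b : ℝ) ^ m =
      ∑ r ∈ range (b ^ m), ((if P r then (b : ℝ) else 0) + δ * b) := by
    rw [sum_add_distrib, sum_const, card_range, nsmul_eq_mul, card_filter, Nat.cast_sum, mul_sum]
    push_cast
    rw [mul_comm (δ * b)]
    congr 1
    refine sum_congr rfl fun r _ => ?_
    split_ifs <;> simp
  rw [e1, e2]
  refine sum_le_sum fun r hr => ?_
  have hr' := mem_range.1 hr
  have hb : (0 : ℝ) ≤ b := Nat.cast_nonneg b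
  by_cases hP : P r
  · rw [if_pos hP]
    have h1 : ∑ d ∈ range b, (if Q (b ^ m * d + r) then (1 : ℝ) else 0) ≤
        ∑ d ∈ range b, (1 : ℝ) := by
      refine sum_le_sum fun d _ => ?_
      split_ifs <;> norm_num
    rw [sum_const, card_range, nsmul_eq_mul, mul_one] at h1
    have h2 : 0 ≤ δ * b := mul_nonneg hδ hb
    linarith
  · rw [if_neg hP, zero_add]
    refine le_trans ?_ (hR r hr' hP)
    rw [card_filter, Nat.cast_sum]
    refine sum_le_sum fun d hd => ?_
    by_cases hQ : Q (b ^ m * d + r)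
    · have h3 : R r d := (h r hr' d (mem_range.1 hd) hQ).resolve_left hP
      rw [if_pos hQ, if_pos h3, Nat.cast_one]
    · rw [if_neg hQ]
      exact Nat.cast_nonneg _

/-- Stage `j` uses the digit `j` of the random number `ω`; in a state with the invariant at most a
proportion `δ` of the digits is bad, and good digits preserve the invariant. -/
theorem adapt {σ : Type} (b m : ℕ) (hb : 0 < b) (f : ℕ → ℕ → σ → σ) (s0 : σ)
    (Inv : ℕ → σ → Prop) (Bad : ℕ → σ → ℕ → Prop) (δ : ℝ) (hδ : 0 ≤ δ) (h0 : Inv 0 s0)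
    (h1 : ∀ j < m, ∀ s, Inv j s → open Classical in
      (((range b).filter fun d => Bad j s d).card : ℝ) ≤ δ * b)
    (h2 : ∀ j < m, ∀ s, Inv j s → ∀ d < b, ¬ Bad j s d → Inv (j + 1) (f j d s)) :
    open Classical in
    (((range (b ^ m)).filter fun ω => ¬ ((∀ j ≤ m,
        Inv j (itr (fun j s => f j (digs b ω j) s) s0 j)) ∧ ∀ j < m,
        ¬ Bad j (itr (fun j s => f j (digs b ω j) s) s0 j) (digs b ω j))).card : ℝ) ≤
      m * δ * (b : ℝ) ^ m := by
  classical
  induction m with
  | zero =>
    rw [pow_zero, range_one, filter_singleton, if_neg, card_empty]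
    · simp
    · rw [not_not]
      refine ⟨fun j hj => ?_, fun j hj => absurd hj (Nat.not_lt_zero j)⟩
      obtain rfl : j = 0 := Nat.le_zero.1 hj
      exact h0
  | succ m ih =>
    have ih' := ih (fun j hj => h1 j (by omega)) (fun j hj => h2 j (by omega))
    refine (card_step_ad b m
      (fun ω => ¬ ((∀ j ≤ m, Inv j (itr (fun j s => f j (digs b ω j) s) s0 j)) ∧ ∀ j < m,
        ¬ Bad j (itr (fun j s => f j (digs b ω j) s) s0 j) (digs b ω j)))
      _ (fun r d => Bad m (itr (fun j s => f j (digs b r j) s) s0 m) d) hδ ?_ ?_).trans ?_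
    · intro r hr d hd hQ
      by_contra hcon
      rw [not_or, not_not] at hcon
      obtain ⟨⟨g1, g2⟩, g3⟩ := hcon
      apply hQ
      have hst : ∀ j ≤ m, itr (fun j s => f j (digs b (b ^ m * d + r) j) s) s0 j =
          itr (fun j s => f j (digs b r j) s) s0 j := by
        intro j hj
        refine itr_congr_ad _ _ _ _ fun i hi => ?_
        funext s
        rw [digs_low_ad hb (by omega)]
      have htop : digs b (b ^ m * d + r) m = d := digs_top_ad hb hr hd
      refine ⟨fun j hj => ?_, fun j hj => ?_⟩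
      · rcases Nat.lt_or_ge j (m + 1) with h | h
        · rw [hst j (by omega)]
          exact g1 j (by omega)
        · obtain rfl : j = m + 1 := by omega
          change Inv (m + 1) (f m (digs b (b ^ m * d + r) m)
            (itr (fun j s => f j (digs b (b ^ m * d + r) j) s) s0 m))
          rw [htop, hst m le_rfl]
          exact h2 m (by omega) _ (g1 m le_rfl) d hd g3
      · rw [hst j (by omega)]
        rcases Nat.lt_or_ge j m with h | h
        · rw [digs_low_ad hb h]
          exact g2 j h
        · obtain rfl : j = m := by omega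
          rw [htop]
          exact g3
    · intro r _ hP
      rw [not_not] at hP
      exact h1 m (by omega) _ (hP.1 m le_rfl)
    · have hb' : (0 : ℝ) ≤ b := Nat.cast_nonneg b
      have h3 := mul_le_mul_of_nonneg_left ih' hb'
      push_cast
      rw [pow_succ]
      refine (add_le_add_left h3 _).trans (le_of_eq ?_)
      ring

end Pool.Agent.Lib.H2
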