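import Pool.Agent.Lib.MP_3493b8_lc.Alg

/-! The third algorithm (class weights learned stage by stage) as functions of natural numbers. -/

set_option autoImplicit false

open Finset

namespace Pool.Agent.Lib.H2

open Pool.Agent.Lib.PTC

section classes

variable (x : List ℤ)

/-- the mask of the odd vertices -/
def tT : ℕ := mkT x (2 ^ mm x - 1)
/-- number of odd vertices -/
def tau : ℕ := belowN (tT x) (nn x)
/-- number of vertices of `Y` which are not odd vertices of the graph -/
def outc (Y : ℕ) : ℕ :=
  ∑ v ∈ range (nn x), if Y.testBit v = true ∧ (tT x).testBit v = false then 1 else 0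
/-- the first of these vertices (`n` if there is none) -/
def fstc (Y : ℕ) : ℕ := srch (fun v => Y.testBit v = true ∧ (tT x).testBit v = false) (nn x)
/-- the second one -/
def sndc (Y : ℕ) : ℕ :=
  srch (fun v => fstc x Y < v ∧ Y.testBit v = true ∧ (tT x).testBit v = false) (nn x)
/-- the number of the class with boundary `Y` -/
def idx (Y : ℕ) : ℕ :=
  (∑ v ∈ range (nn x), if Y.testBit v = true ∧ (tT x).testBit v = true then
    2 ^ belowN (tT x) v else 0) + 2 ^ tau x * (fstc x Y + (nn x + 1) * sndc x Y)
/-- number of classes -/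
def DD : ℕ := 2 ^ tau x * (nn x + 1) ^ 2

end classes

section pars

variable (x : List ℤ) (q : ℕ)

/-- number of samples per stage -/
def sB : ℕ := 2 ^ 20 * q * DD x ^ 2 * S1 x ^ 5
/-- number of steps of a run -/
def tB : ℕ := (2 * mm x * (3 * DD x) * (kE x * kU q) + 1) * (30 * q * S1 x)
/-- bound for the exponents added in a stage -/
def MB : ℕ := Nat.size (q * sB x q)
/-- base of the table -/
def EB : ℕ := mm x * MB x q + 1
/-- base of the digits for one step -/
def bB : ℕ := kE x * (kU q * 2 ^ Nat.size (3 * q))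
/-- number of coin flips -/
def bitsB : ℕ :=
  (Nat.size (mm x) + ((Nat.size q + 1) + Nat.size (3 * q))) * tB x q * sB x q * mm x

/-- the exponent of the class `Y` in the table `W` -/
def aW (W Y : ℕ) : ℕ := W / EB x q ^ idx x Y % EB x q

end pars

section chain

variable (x : List ℤ) (p q : ℕ)

/-- one step of the chain with the table `W` -/
def stepB (W j d A : ℕ) : ℕ :=
  if d % kE x < mm x ∧ outc x (mkT x (tog A (d % kE x))) ≤ 2 ∧
      d / kE x * 2 ^ (aW x q W (mkT x A) - aW x q W (mkT x (tog A (d % kE x)))) <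
        (if A.testBit (d % kE x) = false ∧ d % kE x < j then p else q) * 2 ^ Nat.size (3 * q) then
    tog A (d % kE x)
  else A

/-- `t` steps from the empty set -/
def runB (W j t r : ℕ) : ℕ := itr (fun i B => stepB x p q W j (digs (bB x q) r i) B) 0 t

/-- the sample number `i` -/
def smB (W j ω i : ℕ) : ℕ := runB x p q W j (tB x q) (digs (bB x q ^ tB x q) ω i)

/-- the weighted number of samples in the class with number `l` -/
def valB (W j ω l : ℕ) : ℕ :=
  ∑ i ∈ range (sB x q), if idx x (mkT x (smB x p q W j ω i)) = l then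
    (if (smB x p q W j ω i).testBit j = true then p else q) else 0

/-- number of samples in the class with number `l` -/
def cntL (W j ω l : ℕ) : ℕ :=
  ∑ i ∈ range (sB x q), if idx x (mkT x (smB x p q W j ω i)) = l then 1 else 0

/-- the table for the next stage -/
def updB (W j ω : ℕ) : ℕ :=
  ∑ l ∈ range (DD x), (W / EB x q ^ l % EB x q + (MB x q - Nat.size (valB x p q W j ω l))) *
    EB x q ^ l

/-- one stage: table, numerator, denominator -/
def stg (j ω : ℕ) (c : ℕ × ℕ × ℕ) : ℕ × ℕ × ℕ :=
  (updB x p q c.1 j ω, c.2.1 * valB x p q c.1 j ω (idx x (tT x)),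
    c.2.2 * (q * cntL x p q c.1 j ω (idx x (tT x))))

/-- all stages -/
def resB (ω : ℕ) : ℕ × ℕ × ℕ :=
  itr (fun j c => stg x p q j (digs ((bB x q ^ tB x q) ^ sB x q) ω j) c) (0, 1, 1) (mm x)

/-- the output: sign and absolute value -/
def outB (b K ω : ℕ) : ℕ × ℕ :=
  (nul x % 2, K ^ S1 x * q ^ nul x * (resB x p q ω).2.1 / (b ^ nul x * (resB x p q ω).2.2))

/-- the output as an integer -/
def outZB (b K ω : ℕ) : ℤ :=
  if (outB x p q b K ω).1 = 0 then ((outB x p q b K ω).2 : ℤ) else -((outB x p q b K ω).2 : ℤ)

end chain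

end Pool.Agent.Lib.H2
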