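import Pool.Agent.Lib.MP_3493b8_lc.Defs

/-! The number of vertices of odd degree. -/

set_option autoImplicit false

open Finset

namespace Pool.Agent.Lib.H2

namespace MGraph

variable (G : MGraph)

/-- The degree of a vertex (a loop counts twice). -/
def deg (v : Fin G.n) : ℕ :=
  ∑ i, ((if (G.e i).1 = v then 1 else 0) + (if (G.e i).2 = v then 1 else 0))

/-- The number of vertices of odd degree. -/
def oddDeg : ℕ := (univ.filter fun v => Odd (G.deg v)).card

end MGraph

end Pool.Agent.Lib.H2
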