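import Pool.Agent.Lib.MP_3493b8_lc.O.Cls
import Pool.Agent.Lib.MP_3493b8_lc.O.Deg
import Pool.Agent.Lib.PTC.Prob

/-! Bounds for the size parameter of the third algorithm. -/

set_option autoImplicit false

open Finset

namespace Pool.Agent.Lib.H2

open Pool.Agent.Lib.PTC

/-- the size parameter -/
def szB (q : ℕ) (x : List ℤ) : ℕ :=
  nn x + mm x + NN x + tB x q + sB x q + DD x + 2

namespace MGraph

theorem oddDeg_eq (G : MGraph) : G.oddDeg = G.oddT.card := by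
  have h : ∀ v, G.bd univ v = ((G.deg v : ℕ) : ZMod 2) := by
    intro v
    unfold bd deg
    rw [Finset.sum_apply]
    push_cast
    refine Finset.sum_congr rfl fun i _ => ?_
    rw [Pi.add_apply, Pi.single_apply, Pi.single_apply]
    simp only [eq_comm]
  unfold oddDeg oddT supp
  congr 1
  refine Finset.filter_congr fun v _ => ?_
  rw [h v, Ne, ZMod.natCast_eq_zero_iff_even, Nat.not_even_iff_odd]

private theorem two_pow_size_le {a : ℕ} (ha : 0 < a) : 2 ^ Nat.size a ≤ 2 * a := by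
  have h1 : 0 < Nat.size a := Nat.size_pos.2 ha
  have h2 : 2 ^ (Nat.size a - 1) ≤ a := Nat.lt_size.1 (Nat.sub_lt h1 one_pos)
  have h3 : Nat.size a = (Nat.size a - 1) + 1 := by omega
  rw [h3, pow_succ]
  omega

private theorem kE_le (G : MGraph) (N : ℕ) : kE (G.code N) ≤ 2 * (G.n + G.m + N + 2) := by
  unfold kE
  rw [G.mm_code N]
  rcases Nat.eq_zero_or_pos G.m with h | h
  · rw [h, Nat.size_zero, pow_zero]
    omega
  · have := two_pow_size_le h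
    omega

private theorem kU_le {q : ℕ} (hq : 2 ≤ q) : kU q ≤ 4 * q := by
  unfold kU
  rw [pow_succ]
  have := two_pow_size_le (a := q) (by omega)
  omega

private theorem tB_eq (G : MGraph) (N q : ℕ) : tB (G.code N) q =
    (2 * G.m * (3 * (2 ^ G.oddT.card * (G.n + 1) ^ 2)) * (kE (G.code N) * kU q) + 1) *
      (30 * q * (G.n + G.m + N + 2)) := by
  unfold tB S1
  rw [G.DD_code N, G.mm_code N, G.nn_code N, G.NN_code N]

private theorem tB_le (G : MGraph) (N q : ℕ) (hq : 2 ≤ q) :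
    tB (G.code N) q ≤ 1470 * (q ^ 2 * (G.n + G.m + N + 2) ^ 9 * 4 ^ G.oddT.card) := by
  have hE := kE_le G N
  have hU := kU_le hq
  rw [tB_eq]
  obtain ⟨S, hS⟩ : ∃ S, S = G.n + G.m + N + 2 := ⟨_, rfl⟩
  obtain ⟨e, he⟩ : ∃ e, e = kE (G.code N) := ⟨_, rfl⟩
  obtain ⟨u, hu⟩ : ∃ u, u = kU q := ⟨_, rfl⟩
  obtain ⟨τ, hτ⟩ : ∃ τ, τ = G.oddT.card := ⟨_, rfl⟩
  rw [← hS, ← he, ← hu, ← hτ]
  rw [← he, ← hS] at hE
  rw [← hu] at hU
  have hq0 : 0 < q := by omega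
  have hS0 : 0 < S := by omega
  have hA : 2 * G.m * (3 * (2 ^ τ * (G.n + 1) ^ 2)) * (e * u) ≤
      2 * S * (3 * (2 ^ τ * S ^ 2)) * (2 * S * (4 * q)) :=
    Nat.mul_le_mul (Nat.mul_le_mul (by omega) (Nat.mul_le_mul_left _
      (Nat.mul_le_mul_left _ (Nat.pow_le_pow_left (by omega) 2)))) (Nat.mul_le_mul hE hU)
  have hB : 1 ≤ q * S ^ 4 * 2 ^ τ := Nat.succ_le_of_lt (by positivity)
  have hC : 2 * G.m * (3 * (2 ^ τ * (G.n + 1) ^ 2)) * (e * u) + 1 ≤ 49 * (q * S ^ 4 * 2 ^ τ) := by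
    have h1 : 2 * S * (3 * (2 ^ τ * S ^ 2)) * (2 * S * (4 * q)) = 48 * (q * S ^ 4 * 2 ^ τ) := by
      ring
    omega
  have h4 : 2 ^ τ ≤ 4 ^ τ := Nat.pow_le_pow_left (by norm_num) τ
  have h5 : S ^ 5 ≤ S ^ 9 := Nat.pow_le_pow_right hS0 (by norm_num)
  calc (2 * G.m * (3 * (2 ^ τ * (G.n + 1) ^ 2)) * (e * u) + 1) * (30 * q * S)
      ≤ 49 * (q * S ^ 4 * 2 ^ τ) * (30 * q * S) := Nat.mul_le_mul_right _ hC
    _ = 1470 * (q ^ 2 * S ^ 5 * 2 ^ τ) := by ring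
    _ ≤ 1470 * (q ^ 2 * S ^ 9 * 4 ^ τ) :=
        Nat.mul_le_mul_left _ (Nat.mul_le_mul (Nat.mul_le_mul_left _ h5) h4)

private theorem sB_le (G : MGraph) (N q : ℕ) (hq : 2 ≤ q) :
    sB (G.code N) q ≤ 2 ^ 20 * (q ^ 2 * (G.n + G.m + N + 2) ^ 9 * 4 ^ G.oddT.card) := by
  have h0 : sB (G.code N) q = 2 ^ 20 * q * (2 ^ G.oddT.card * (G.n + 1) ^ 2) ^ 2 *
      (G.n + G.m + N + 2) ^ 5 := by
    unfold sB S1
    rw [G.DD_code N, G.mm_code N, G.nn_code N, G.NN_code N]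
  rw [h0]
  obtain ⟨S, hS⟩ : ∃ S, S = G.n + G.m + N + 2 := ⟨_, rfl⟩
  obtain ⟨τ, hτ⟩ : ∃ τ, τ = G.oddT.card := ⟨_, rfl⟩
  rw [← hS, ← hτ]
  have h1 : G.n + 1 ≤ S := by omega
  have h2 : (2 ^ τ * (G.n + 1) ^ 2) ^ 2 ≤ 4 ^ τ * S ^ 4 := by
    have e : (2 ^ τ * (G.n + 1) ^ 2) ^ 2 = 4 ^ τ * (G.n + 1) ^ 4 := by
      rw [show (4 : ℕ) = 2 ^ 2 by norm_num, ← pow_mul]
      ring
    rw [e]
    exact Nat.mul_le_mul_left _ (Nat.pow_le_pow_left h1 4)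
  have hq2 : q ≤ q ^ 2 := Nat.le_self_pow (by norm_num) q
  calc 2 ^ 20 * q * (2 ^ τ * (G.n + 1) ^ 2) ^ 2 * S ^ 5 ≤
        2 ^ 20 * q ^ 2 * (4 ^ τ * S ^ 4) * S ^ 5 :=
        Nat.mul_le_mul_right _ (Nat.mul_le_mul (Nat.mul_le_mul_left _ hq2) h2)
    _ = 2 ^ 20 * (q ^ 2 * S ^ 9 * 4 ^ τ) := by ring

private theorem DD_le (G : MGraph) (N q : ℕ) (hq : 2 ≤ q) :
    DD (G.code N) ≤ q ^ 2 * (G.n + G.m + N + 2) ^ 9 * 4 ^ G.oddT.card := by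
  rw [G.DD_code N]
  obtain ⟨S, hS⟩ : ∃ S, S = G.n + G.m + N + 2 := ⟨_, rfl⟩
  obtain ⟨τ, hτ⟩ : ∃ τ, τ = G.oddT.card := ⟨_, rfl⟩
  rw [← hS, ← hτ]
  have h1 : (G.n + 1) ^ 2 ≤ S ^ 9 :=
    (Nat.pow_le_pow_left (by omega) 2).trans (Nat.pow_le_pow_right (by omega) (by norm_num))
  have h4 : 2 ^ τ ≤ 4 ^ τ := Nat.pow_le_pow_left (by norm_num) τ
  have hq2 : 1 ≤ q ^ 2 := Nat.one_le_pow _ _ (by omega)
  calc 2 ^ τ * (G.n + 1) ^ 2 ≤ 4 ^ τ * S ^ 9 := Nat.mul_le_mul h4 h1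
    _ = 1 * S ^ 9 * 4 ^ τ := by ring
    _ ≤ q ^ 2 * S ^ 9 * 4 ^ τ := Nat.mul_le_mul_right _ (Nat.mul_le_mul_right _ hq2)

private theorem szB_eq (G : MGraph) (N q : ℕ) : szB q (G.code N) =
    (G.n + G.m + N + 2) + tB (G.code N) q + sB (G.code N) q + DD (G.code N) := by
  unfold szB
  rw [G.mm_code N, G.nn_code N, G.NN_code N]
  ring

/-- the input is valid for the size parameter -/
theorem szB_valid (G : MGraph) (N q : ℕ) (hN : 1 ≤ N) (hq : 2 ≤ q) :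
    2 ≤ szB q (G.code N) ∧ Valid (G.code N) (szB q (G.code N)) := by
  have h0 := szB_eq G N q
  have ht : 30 * (G.m + 2) ≤ tB (G.code N) q := by
    rw [tB_eq]
    calc 30 * (G.m + 2) = 1 * (30 * 1 * (G.m + 2)) := by ring
      _ ≤ _ := Nat.mul_le_mul (by omega) (Nat.mul_le_mul
          (Nat.mul_le_mul_left _ (by omega)) (by omega))
  have h5 : 2 * G.m + 3 ≤ szB q (G.code N) ∧ G.n + G.m + N ≤ szB q (G.code N) := by
    rw [h0]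
    omega
  refine ⟨by omega, ?_, fun a ha => ?_⟩
  · rw [G.length_code N]
    omega
  · obtain ⟨h1, h2⟩ := G.mem_code N a ha
    refine ⟨h1, lt_of_le_of_lt h2 ?_⟩
    have h3 : G.n + G.m + N < 2 ^ szB q (G.code N) :=
      lt_of_lt_of_le Nat.lt_two_pow_self (Nat.pow_le_pow_right (by norm_num) h5.2)
    exact_mod_cast h3

private theorem szB_le (q : ℕ) (hq : 2 ≤ q) (G : MGraph) (N : ℕ) :
    szB q (G.code N) ≤ (G.n + G.m + N + 2) ^ (2 * q + 34) * (2 * q + 34) ^ G.oddT.card := by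
  have h1 := tB_le G N q hq
  have h2 := sB_le G N q hq
  have h3 := DD_le G N q hq
  rw [szB_eq]
  obtain ⟨S, hS⟩ : ∃ S, S = G.n + G.m + N + 2 := ⟨_, rfl⟩
  obtain ⟨τ, hτ⟩ : ∃ τ, τ = G.oddT.card := ⟨_, rfl⟩
  rw [← hS, ← hτ] at h1 h2 h3
  rw [← hS, ← hτ]
  have hS2 : 2 ≤ S := by omega
  have hS1 : 1 ≤ S := by omega
  have hq2 : 1 ≤ q ^ 2 := Nat.one_le_pow _ _ (by omega)
  have h4 : S ≤ q ^ 2 * S ^ 9 * 4 ^ τ := by
    calc S = 1 * S * 1 := by ring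
      _ ≤ q ^ 2 * S ^ 9 * 4 ^ τ := Nat.mul_le_mul
        (Nat.mul_le_mul hq2 (Nat.le_self_pow (by norm_num) S)) (Nat.one_le_pow _ _ (by norm_num))
  have h5 : S + tB (G.code N) q + sB (G.code N) q + DD (G.code N) ≤
      2 ^ 21 * (q ^ 2 * S ^ 9 * 4 ^ τ) := by omega
  refine h5.trans ?_
  have h6 : 2 ^ 21 * q ^ 2 ≤ S ^ (21 + 2 * q) := by
    have h7 : q ^ 2 ≤ 2 ^ (2 * q) := by
      rw [mul_comm, pow_mul]
      exact Nat.pow_le_pow_left Nat.lt_two_pow_self.le 2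
    calc 2 ^ 21 * q ^ 2 ≤ 2 ^ 21 * 2 ^ (2 * q) := Nat.mul_le_mul_left _ h7
      _ = 2 ^ (21 + 2 * q) := (pow_add _ _ _).symm
      _ ≤ S ^ (21 + 2 * q) := Nat.pow_le_pow_left hS2 _
  calc 2 ^ 21 * (q ^ 2 * S ^ 9 * 4 ^ τ) = (2 ^ 21 * q ^ 2) * S ^ 9 * 4 ^ τ := by ring
    _ ≤ S ^ (21 + 2 * q) * S ^ 9 * 4 ^ τ := Nat.mul_le_mul_right _ (Nat.mul_le_mul_right _ h6)
    _ = S ^ (21 + 2 * q + 9) * 4 ^ τ := by rw [← pow_add]
    _ ≤ S ^ (2 * q + 34) * (2 * q + 34) ^ τ :=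
        Nat.mul_le_mul (Nat.pow_le_pow_right hS1 (by omega)) (Nat.pow_le_pow_left (by omega) _)

/-- powers of the size parameter -/
theorem szB_pow (q C0 : ℕ) (hq : 2 ≤ q) : ∃ C : ℕ, ∀ (G : MGraph) (N : ℕ), 1 ≤ N →
    (szB q (G.code N) : ℝ) ^ C0 ≤ ((G.n : ℝ) + G.m + N + 2) ^ C * (C : ℝ) ^ G.oddDeg := by
  refine ⟨(2 * q + 34) * C0 + (2 * q + 34) ^ C0, fun G N hN => ?_⟩
  rw [G.oddDeg_eq]
  have h1 := szB_le q hq G N
  obtain ⟨τ, hτ⟩ : ∃ τ, τ = G.oddT.card := ⟨_, rfl⟩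
  rw [← hτ] at h1
  rw [← hτ]
  have h2 : szB q (G.code N) ^ C0 ≤ (G.n + G.m + N + 2) ^ ((2 * q + 34) * C0 + (2 * q + 34) ^ C0) *
      ((2 * q + 34) * C0 + (2 * q + 34) ^ C0) ^ τ := by
    calc szB q (G.code N) ^ C0 ≤
          ((G.n + G.m + N + 2) ^ (2 * q + 34) * (2 * q + 34) ^ τ) ^ C0 :=
          Nat.pow_le_pow_left h1 C0
      _ = (G.n + G.m + N + 2) ^ ((2 * q + 34) * C0) * ((2 * q + 34) ^ C0) ^ τ := by
          rw [mul_pow, ← pow_mul, ← pow_mul, ← pow_mul, mul_comm τ C0]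
      _ ≤ _ := Nat.mul_le_mul (Nat.pow_le_pow_right (by omega) (by omega))
          (Nat.pow_le_pow_left (by omega) τ)
  exact_mod_cast h2

end MGraph

end Pool.Agent.Lib.H2
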