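import Pool.Agent.Lib.MP_3493b8_lc.Short0
import Pool.Agent.Lib.MP_3493b8_lc.Sys
import Pool.Agent.Lib.MP_3493b8_lc.StepF

/-! The family of the boundaries with at most two odd vertices outside a given set `T`. -/

set_option autoImplicit false

open Finset

namespace Pool.Agent.Lib.H2

namespace MGraph

variable (G : MGraph) (T : Finset (Fin G.n))

/-- at most two odd vertices outside `T` -/
def famY : Finset (Fin G.n → ZMod 2) := univ.filter fun y => (G.supp y \ T).card ≤ 2

private theorem fam_supp (y : Fin G.n → ZMod 2) (v : Fin G.n) : v ∈ G.supp y ↔ y v ≠ 0 := by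
  unfold supp
  rw [mem_filter]
  exact ⟨fun h => h.2, fun h => ⟨mem_univ _, h⟩⟩

private theorem fam_one {x : ZMod 2} (h : x ≠ 0) : x = 1 := by
  revert x
  decide

private theorem fam_mem (y : Fin G.n → ZMod 2) : y ∈ G.famY T ↔ (G.supp y \ T).card ≤ 2 := by
  unfold famY
  rw [mem_filter]
  exact ⟨fun h => h.2, fun h => ⟨mem_univ _, h⟩⟩

private theorem fam_erase {A : Finset (Fin G.m)} {i : Fin G.m} (hi : i ∈ A) :
    G.bd (A.erase i) = G.bd A + (Pi.single (G.e i).1 1 + Pi.single (G.e i).2 1) := by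
  have h1 : G.bd A = G.bd (A.erase i) + (Pi.single (G.e i).1 1 + Pi.single (G.e i).2 1) := by
    unfold bd
    rw [← Finset.sum_erase_add _ _ hi]
  rw [h1, add_assoc, G.zmod_add_self, add_zero]

theorem zero_famY : (0 : Fin G.n → ZMod 2) ∈ G.famY T := by
  rw [fam_mem]
  have h : G.supp 0 = ∅ := by
    rw [Finset.eq_empty_iff_forall_notMem]
    intro v hv
    exact (G.fam_supp 0 v).1 hv rfl
  rw [h, Finset.empty_sdiff, Finset.card_empty]
  exact Nat.zero_le _

theorem famY_R (D : Finset (Fin G.m)) (hD : D.Nonempty) (h : G.bd D ∈ G.famY T) :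
    ∃ e ∈ D, G.bd (D.erase e) ∈ G.famY T := by
  rw [fam_mem] at h
  rcases Finset.eq_empty_or_nonempty (G.supp (G.bd D) \ T) with h0 | ⟨a, ha⟩
  · obtain ⟨i, hi⟩ := hD
    refine ⟨i, hi, ?_⟩
    rw [fam_mem, G.fam_erase hi]
    have hsub : G.supp (G.bd D + (Pi.single (G.e i).1 1 + Pi.single (G.e i).2 1)) \ T ⊆
        {(G.e i).1, (G.e i).2} := by
      intro v hv
      rw [mem_sdiff, fam_supp, Pi.add_apply, Pi.add_apply] at hv
      rw [mem_insert, mem_singleton]
      by_contra hcon
      push Not at hcon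
      obtain ⟨hv1, hv2⟩ := hv
      rw [Pi.single_eq_of_ne hcon.1, Pi.single_eq_of_ne hcon.2, add_zero, add_zero] at hv1
      have h1 : v ∈ G.supp (G.bd D) \ T := mem_sdiff.2 ⟨(G.fam_supp _ _).2 hv1, hv2⟩
      rw [h0] at h1
      exact Finset.notMem_empty v h1
    exact (Finset.card_le_card hsub).trans Finset.card_le_two
  · obtain ⟨haS, haT⟩ := mem_sdiff.1 ha
    obtain ⟨i, hi, w, hw, he⟩ := G.exists_edge_at D a haS
    refine ⟨i, hi, ?_⟩
    have hB : G.bd (D.erase i) = G.bd D + (Pi.single a 1 + Pi.single w 1) := by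
      rw [G.fam_erase hi]
      rcases he with he | he
      · rw [he]
      · rw [he]
        exact congrArg _ (add_comm _ _)
    have hsub : G.supp (G.bd (D.erase i)) \ T ⊆ insert w ((G.supp (G.bd D) \ T).erase a) := by
      intro v hv
      rw [mem_insert, mem_erase, mem_sdiff]
      by_contra hcon
      push Not at hcon
      obtain ⟨hvw, hv2⟩ := hcon
      rw [mem_sdiff, fam_supp, hB, Pi.add_apply, Pi.add_apply, Pi.single_eq_of_ne hvw,
        add_zero] at hv
      obtain ⟨hv1, hvT⟩ := hv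
      by_cases hva : v = a
      · subst hva
        rw [fam_supp] at haS
        rw [fam_one haS, Pi.single_eq_same] at hv1
        exact hv1 (by decide)
      · rw [Pi.single_eq_of_ne hva, add_zero] at hv1
        exact hvT (hv2 hva ((G.fam_supp _ _).2 hv1))
    rw [fam_mem]
    refine (Finset.card_le_card hsub).trans ((Finset.card_insert_le _ _).trans ?_)
    rw [Finset.card_erase_of_mem ha]
    have : 1 ≤ (G.supp (G.bd D) \ T).card := Finset.card_pos.2 ⟨a, ha⟩
    omega

private theorem fam_two {n : ℕ} (S : Finset (Fin n)) (h : S.card ≤ 2) :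
    ∃ p q : Option (Fin n), S = p.toFinset ∪ q.toFinset := by
  have h1 : S.card = 0 ∨ S.card = 1 ∨ S.card = 2 := by omega
  rcases h1 with h1 | h1 | h1
  · refine ⟨none, none, ?_⟩
    rw [Finset.card_eq_zero] at h1
    rw [h1]
    rfl
  · obtain ⟨a, rfl⟩ := Finset.card_eq_one.1 h1
    exact ⟨some a, none, (Finset.union_empty _).symm⟩
  · obtain ⟨a, b, -, rfl⟩ := Finset.card_eq_two.1 h1
    exact ⟨some a, some b, rfl⟩

theorem card_famY : (G.famY T).card ≤ 2 ^ T.card * (G.n + 1) ^ 2 := by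
  classical
  have hsub : G.famY T ⊆ (T.powerset ×ˢ ((univ : Finset (Option (Fin G.n))) ×ˢ
      (univ : Finset (Option (Fin G.n))))).image
      (fun t v => if v ∈ t.1 ∪ (t.2.1.toFinset ∪ t.2.2.toFinset) then (1 : ZMod 2) else 0) := by
    intro y hy
    rw [fam_mem] at hy
    obtain ⟨p, q, hpq⟩ := fam_two _ hy
    rw [mem_image]
    refine ⟨(G.supp y ∩ T, p, q), ?_, ?_⟩
    · rw [mem_product, mem_product, mem_powerset]
      exact ⟨inter_subset_right, mem_univ _, mem_univ _⟩
    · funext v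
      have h1 : G.supp y ∩ T ∪ (p.toFinset ∪ q.toFinset) = G.supp y := by
        rw [← hpq, union_comm, sdiff_union_inter]
      simp only [h1]
      by_cases hv : y v = 0
      · rw [if_neg (fun h => (G.fam_supp y v).1 h hv), hv]
      · rw [if_pos ((G.fam_supp y v).2 hv), fam_one hv]
  refine (card_le_card hsub).trans (card_image_le.trans (le_of_eq ?_))
  rw [card_product, card_product, card_powerset, card_univ, Fintype.card_option, Fintype.card_fin,
    pow_two]

/-- the system of Theorem P: base boundary `0`, class weights `2 ^ a y` -/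
noncomputable def sysT (a : (Fin G.n → ZMod 2) → ℕ) (w : Fin G.m → ℝ) :
    Sys (Fin G.m) (Fin G.n → ZMod 2) where
  E0 := univ
  bd := G.bd
  w := w
  T := 0
  Y := G.famY T
  g := fun y => 2 ^ a y

theorem sysT_Z (a : (Fin G.n → ZMod 2) → ℕ) (w : Fin G.m → ℝ) (y : Fin G.n → ZMod 2) :
    (G.sysT T a w).Z y = G.Zs ∅ w y := by
  unfold Sys.Z Zs
  have h1 : (G.sysT T a w).E0.powerset = univ := by
    change (univ : Finset (Fin G.m)).powerset = univ
    exact powerset_univ
  rw [h1]
  refine Finset.sum_congr rfl fun A _ => ?_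
  have h2 : (G.sysT T a w).bd A = (G.sysT T a w).T + y ↔ Disjoint A ∅ ∧ G.bd A = y := by
    change G.bd A = 0 + y ↔ _
    rw [zero_add]
    exact ⟨fun h => ⟨disjoint_empty_right A, h⟩, fun h => h.2⟩
  by_cases h3 : G.bd A = y
  · rw [if_pos (h2.2 ⟨disjoint_empty_right A, h3⟩), if_pos ⟨disjoint_empty_right A, h3⟩]
    rfl
  · rw [if_neg (fun h => h3 (h2.1 h).2), if_neg (fun h => h3 h.2)]

/-- the weight of a state in stage `j` -/
noncomputable def nuT (a : (Fin G.n → ZMod 2) → ℕ) (p q j : ℕ) (A : Finset (Fin G.m)) : ℝ :=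
  (G.sysT T a (G.wj ((p : ℝ) / q) j)).nu A

/-- all classes have the same weight up to a factor `3` -/
def Fine (a : (Fin G.n → ZMod 2) → ℕ) (w : Fin G.m → ℝ) : Prop :=
  ∃ c > 0, ∀ y ∈ G.famY T, G.Zs ∅ w y ≠ 0 →
    c ≤ 2 ^ a y * G.Zs ∅ w y ∧ 2 ^ a y * G.Zs ∅ w y ≤ 3 * c

end MGraph

end Pool.Agent.Lib.H2
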