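import Pool.Agent.Lib.MP_3493b8_lc.O.Alg
import Pool.Agent.Lib.MP_3493b8_lc.O.Fam
import Pool.Agent.Lib.MP_3493b8_lc.CluN1
import Pool.Agent.Lib.MP_3493b8_lc.Sub

/-! The numbering of the classes. -/

set_option autoImplicit false

open Finset

namespace Pool.Agent.Lib.H2

open Pool.Agent.Lib.PTC

private theorem cls_one {x : ZMod 2} (h : x ≠ 0) : x = 1 := by
  revert x
  decide

/-- the compressed trace on the first `k` vertices -/
private def cp (T Y k : ℕ) : ℕ :=
  ∑ v ∈ range k, if Y.testBit v = true ∧ T.testBit v = true then 2 ^ belowN T v else 0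

private theorem belowN_succ (T k : ℕ) :
    belowN T (k + 1) = belowN T k + if T.testBit k = true then 1 else 0 := by
  unfold belowN
  rw [Finset.sum_range_succ]

private theorem cp_succ (T Y k : ℕ) : cp T Y (k + 1) =
    cp T Y k + if Y.testBit k = true ∧ T.testBit k = true then 2 ^ belowN T k else 0 := by
  unfold cp
  rw [Finset.sum_range_succ]

private theorem cp_lt (T Y k : ℕ) : cp T Y k < 2 ^ belowN T k := by
  induction k with
  | zero =>
    unfold cp
    rw [Finset.range_zero, Finset.sum_empty]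
    exact pow_pos two_pos _
  | succ k ih =>
    rw [cp_succ, belowN_succ]
    by_cases hT : T.testBit k = true
    · rw [if_pos hT, pow_succ]
      split_ifs <;> omega
    · rw [if_neg hT, if_neg (fun h => hT h.2)]
      exact ih

private theorem cp_inj {T Y Y' : ℕ} (k : ℕ) (h : cp T Y k = cp T Y' k) :
    ∀ v < k, T.testBit v = true → (Y.testBit v = true ↔ Y'.testBit v = true) := by
  induction k with
  | zero => exact fun v hv => absurd hv (Nat.not_lt_zero v)
  | succ k ih =>
    have h1 := cp_lt T Y k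
    have h2 := cp_lt T Y' k
    rw [cp_succ, cp_succ] at h
    by_cases hT : T.testBit k = true
    · have h3 : cp T Y k = cp T Y' k ∧ (Y.testBit k = true ↔ Y'.testBit k = true) := by
        by_cases hY : Y.testBit k = true
        · by_cases hY' : Y'.testBit k = true
          · rw [if_pos ⟨hY, hT⟩, if_pos ⟨hY', hT⟩] at h
            exact ⟨by omega, iff_of_true hY hY'⟩
          · rw [if_pos ⟨hY, hT⟩, if_neg (fun h0 => hY' h0.1)] at h
            omega
        · by_cases hY' : Y'.testBit k = true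
          · rw [if_neg (fun h0 => hY h0.1), if_pos ⟨hY', hT⟩] at h
            omega
          · rw [if_neg (fun h0 => hY h0.1), if_neg (fun h0 => hY' h0.1)] at h
            exact ⟨by omega, iff_of_false hY hY'⟩
      intro v hv hTv
      rcases Nat.lt_succ_iff_lt_or_eq.1 hv with h4 | h4
      · exact ih h3.1 v h4 hTv
      · rw [h4]
        exact h3.2
    · rw [if_neg (fun h0 => hT h0.2), if_neg (fun h0 => hT h0.2), add_zero, add_zero] at h
      intro v hv hTv
      rcases Nat.lt_succ_iff_lt_or_eq.1 hv with h4 | h4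
      · exact ih h v h4 hTv
      · rw [h4] at hTv
        exact absurd hTv hT

/-- two components of a number -/
private theorem cls_pair {a a' c d c' d' n p : ℕ} (ha : a < p) (ha' : a' < p) (hc : c ≤ n)
    (hc' : c' ≤ n) (h : a + p * (c + (n + 1) * d) = a' + p * (c' + (n + 1) * d')) :
    a = a' ∧ c = c' ∧ d = d' := by
  have hp : 0 < p := by omega
  have h1 : a = a' := by
    have e1 : (a + p * (c + (n + 1) * d)) % p = a := by
      rw [Nat.add_mul_mod_self_left, Nat.mod_eq_of_lt ha]
    have e2 : (a' + p * (c' + (n + 1) * d')) % p = a' := by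
      rw [Nat.add_mul_mod_self_left, Nat.mod_eq_of_lt ha']
    rw [← e1, ← e2, h]
  have h2 : c + (n + 1) * d = c' + (n + 1) * d' := by
    rw [h1] at h
    exact Nat.eq_of_mul_eq_mul_left hp (Nat.add_left_cancel h)
  have h3 : c = c' := by
    have e1 : (c + (n + 1) * d) % (n + 1) = c := by
      rw [Nat.add_mul_mod_self_left, Nat.mod_eq_of_lt (by omega)]
    have e2 : (c' + (n + 1) * d') % (n + 1) = c' := by
      rw [Nat.add_mul_mod_self_left, Nat.mod_eq_of_lt (by omega)]
    rw [← e1, ← e2, h2]
  refine ⟨h1, h3, ?_⟩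
  rw [h3] at h2
  exact Nat.eq_of_mul_eq_mul_left (Nat.succ_pos n) (Nat.add_left_cancel h2)

namespace MGraph

variable (G : MGraph) (N : ℕ)

/-- the set of odd vertices -/
def oddT : Finset (Fin G.n) := G.supp (G.bd univ)

/-- the mask of a boundary vector -/
def vm (y : Fin G.n → ZMod 2) : ℕ := ∑ v : Fin G.n, if y v ≠ 0 then 2 ^ (v : ℕ) else 0

private theorem vm_tb (y : Fin G.n → ZMod 2) (k : ℕ) :
    (G.vm y).testBit k = true ↔ ∃ h : k < G.n, y ⟨k, h⟩ ≠ 0 := by
  classical
  have h1 : G.vm y = ∑ i ∈ range G.n, if (∃ h : i < G.n, y ⟨i, h⟩ ≠ 0) then 2 ^ i else 0 := by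
    unfold vm
    rw [Finset.sum_range]
    exact Finset.sum_congr rfl fun v _ =>
      if_congr ⟨fun h => ⟨v.isLt, h⟩, fun h => h.2⟩ rfl rfl
  rw [h1, testBit_sum, decide_eq_true_iff]
  exact ⟨fun h => h.2, fun h => ⟨h.1, h⟩⟩

theorem vm_testBit (y : Fin G.n → ZMod 2) (v : Fin G.n) :
    (G.vm y).testBit v = true ↔ y v ≠ 0 := by
  rw [vm_tb]
  exact ⟨fun h => h.2, fun h => ⟨v.isLt, h⟩⟩

theorem vm_vvec (y : Fin G.n → ZMod 2) : G.vvec (G.vm y) = y := by
  funext v
  unfold vvec
  by_cases h : y v = 0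
  · rw [if_neg (fun h1 => (G.vm_testBit y v).1 h1 h), h]
  · rw [if_pos ((G.vm_testBit y v).2 h), cls_one h]

theorem mkT_vm (A : ℕ) : mkT (G.code N) A = G.vm (G.bd (G.eset A)) := by
  rw [mkT_eq]
  unfold vm
  rw [nn_code, Finset.sum_range]
  refine Finset.sum_congr rfl fun v _ => if_congr ?_ rfl rfl
  have h := bdN_lt (G.code N) A v
  rw [← G.bdN_code N]
  constructor
  · intro h1
    rw [h1, Nat.cast_one]
    decide
  · intro h1
    by_contra h2
    have h3 : bdN (G.code N) A v = 0 := by omega
    rw [h3, Nat.cast_zero] at h1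
    exact h1 rfl

theorem tT_code : tT (G.code N) = G.vm (G.bd univ) := by
  unfold tT
  rw [mkT_vm, mm_code]
  have h := G.eset_compl 0 (pow_pos two_pos _)
  rw [Nat.sub_zero] at h
  have h0 : G.eset 0 = ∅ := by
    rw [Finset.eq_empty_iff_forall_notMem]
    intro i hi
    unfold eset at hi
    rw [mem_filter, Nat.zero_testBit] at hi
    exact Bool.false_ne_true hi.2
  rw [h, h0, sdiff_empty]

private theorem mem_supp' (y : Fin G.n → ZMod 2) (v : Fin G.n) : v ∈ G.supp y ↔ y v ≠ 0 := by
  unfold supp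
  rw [mem_filter]
  exact ⟨fun h => h.2, fun h => ⟨mem_univ _, h⟩⟩

private theorem tT_testBit (v : Fin G.n) : (tT (G.code N)).testBit v = true ↔ v ∈ G.oddT := by
  rw [tT_code, vm_testBit]
  unfold oddT
  rw [mem_supp']

private theorem tT_testBit' (v : Fin G.n) : (tT (G.code N)).testBit v = false ↔ v ∉ G.oddT := by
  rw [← G.tT_testBit N, Bool.not_eq_true]

theorem tau_code : tau (G.code N) = G.oddT.card := by
  unfold tau belowN
  rw [nn_code, Finset.sum_range]
  have h : G.oddT = univ.filter fun v : Fin G.n => (tT (G.code N)).testBit v = true := by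
    ext v
    rw [mem_filter, tT_testBit]
    exact ⟨fun h => ⟨mem_univ _, h⟩, fun h => h.2⟩
  rw [h, Finset.card_filter]

theorem outc_code (y : Fin G.n → ZMod 2) :
    outc (G.code N) (G.vm y) = (G.supp y \ G.oddT).card := by
  classical
  unfold outc
  rw [nn_code, Finset.sum_range]
  have h : G.supp y \ G.oddT = univ.filter fun v : Fin G.n =>
      (G.vm y).testBit v = true ∧ (tT (G.code N)).testBit v = false := by
    ext v
    rw [mem_filter, mem_sdiff, vm_testBit, tT_testBit', mem_supp']
    exact ⟨fun h => ⟨mem_univ _, h⟩, fun h => h.2⟩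
  rw [h, Finset.card_filter]

theorem outc_le (y : Fin G.n → ZMod 2) :
    outc (G.code N) (G.vm y) ≤ 2 ↔ y ∈ G.famY G.oddT := by
  rw [outc_code]
  unfold famY
  rw [mem_filter]
  exact ⟨fun h => ⟨mem_univ _, h⟩, fun h => h.2⟩

/-- the odd vertices outside `oddT` are the first and the second one -/
private theorem out_iff {y : Fin G.n → ZMod 2} (hy : y ∈ G.famY G.oddT) (v : Fin G.n) :
    (y v ≠ 0 ∧ v ∉ G.oddT) ↔
      ((v : ℕ) = fstc (G.code N) (G.vm y) ∨ (v : ℕ) = sndc (G.code N) (G.vm y)) := by
  classical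
  obtain ⟨f, hf⟩ : ∃ f, f = fstc (G.code N) (G.vm y) := ⟨_, rfl⟩
  obtain ⟨g, hg⟩ : ∃ g, g = sndc (G.code N) (G.vm y) := ⟨_, rfl⟩
  rw [← hf, ← hg]
  have hD : ∀ i : Fin G.n, ((G.vm y).testBit i = true ∧ (tT (G.code N)).testBit i = false) ↔
      i ∈ G.supp y \ G.oddT := by
    intro i
    rw [mem_sdiff, vm_testBit, tT_testBit', mem_supp']
  have hf1 : f < G.n → (G.vm y).testBit f = true ∧ (tT (G.code N)).testBit f = false := by
    intro hlt
    rw [hf] at hlt ⊢
    have h1 : ∃ i < nn (G.code N),
        (G.vm y).testBit i = true ∧ (tT (G.code N)).testBit i = false := by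
      by_contra hcon
      push Not at hcon
      have h2 := srch_none (fun v => (G.vm y).testBit v = true ∧
        (tT (G.code N)).testBit v = false) (nn (G.code N)) (fun i hi h3 => hcon i hi h3.1 h3.2)
      have h4 : fstc (G.code N) (G.vm y) = G.n := h2
      omega
    exact (srch_lt (fun v => (G.vm y).testBit v = true ∧
        (tT (G.code N)).testBit v = false) (nn (G.code N)) h1).2
  have hf2 : ∀ i, (G.vm y).testBit i = true ∧ (tT (G.code N)).testBit i = false → f ≤ i := by
    intro i hi
    by_contra hcon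
    rw [hf] at hcon
    exact srch_min (fun v => (G.vm y).testBit v = true ∧
      (tT (G.code N)).testBit v = false) (nn (G.code N)) i (not_le.1 hcon) hi
  have hg1 : g < G.n → f < g ∧ (G.vm y).testBit g = true ∧
      (tT (G.code N)).testBit g = false := by
    intro hlt
    rw [hg] at hlt ⊢
    rw [hf]
    have h1 : ∃ i < nn (G.code N), fstc (G.code N) (G.vm y) < i ∧
        (G.vm y).testBit i = true ∧ (tT (G.code N)).testBit i = false := by
      by_contra hcon
      push Not at hcon
      have h2 := srch_none (fun v => fstc (G.code N) (G.vm y) < v ∧ (G.vm y).testBit v = true ∧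
        (tT (G.code N)).testBit v = false) (nn (G.code N))
        (fun i hi h3 => hcon i hi h3.1 h3.2.1 h3.2.2)
      have h4 : sndc (G.code N) (G.vm y) = G.n := h2
      omega
    exact (srch_lt (fun v => fstc (G.code N) (G.vm y) < v ∧ (G.vm y).testBit v = true ∧
        (tT (G.code N)).testBit v = false) (nn (G.code N)) h1).2
  have hg2 : ∀ i, f < i → (G.vm y).testBit i = true ∧ (tT (G.code N)).testBit i = false →
      g ≤ i := by
    intro i hfi hi
    by_contra hcon
    rw [hg] at hcon
    rw [hf] at hfi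
    exact srch_min (fun v => fstc (G.code N) (G.vm y) < v ∧ (G.vm y).testBit v = true ∧
      (tT (G.code N)).testBit v = false) (nn (G.code N)) i (not_le.1 hcon) ⟨hfi, hi⟩
  have hyv : (y v ≠ 0 ∧ v ∉ G.oddT) ↔ v ∈ G.supp y \ G.oddT := by
    rw [mem_sdiff, mem_supp']
  rw [hyv, ← hD]
  constructor
  · intro hv
    by_contra hcon
    push Not at hcon
    have h1 := hf2 v hv
    have h2 : f < v := by omega
    have h3 := hg2 v h2 hv
    have h4 : g < v := by omega
    have hvn := v.isLt
    have hfn : f < G.n := by omega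
    have hgn : g < G.n := by omega
    have h5 := hf1 hfn
    have h6 := hg1 hgn
    have m1 : (⟨f, hfn⟩ : Fin G.n) ∈ G.supp y \ G.oddT := (hD _).1 h5
    have m2 : (⟨g, hgn⟩ : Fin G.n) ∈ G.supp y \ G.oddT := (hD _).1 h6.2
    have m3 : v ∈ G.supp y \ G.oddT := (hD _).1 hv
    have hsub : ({⟨f, hfn⟩, ⟨g, hgn⟩, v} : Finset (Fin G.n)) ⊆ G.supp y \ G.oddT := by
      intro i hi
      rw [mem_insert, mem_insert, mem_singleton] at hi
      rcases hi with rfl | rfl | rfl
      · exact m1
      · exact m2
      · exact m3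
    have hcard := card_le_card hsub
    have h7 : ({⟨f, hfn⟩, ⟨g, hgn⟩, v} : Finset (Fin G.n)).card = 3 := by
      rw [card_eq_three]
      refine ⟨_, _, _, ?_, ?_, ?_, rfl⟩
      · intro h8
        have := congrArg Fin.val h8
        simp only at this
        omega
      · intro h8
        have := congrArg Fin.val h8
        simp only at this
        omega
      · intro h8
        have := congrArg Fin.val h8
        simp only at this
        omega
    unfold famY at hy
    rw [mem_filter] at hy
    have h9 := hy.2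
    omega
  · intro hv
    have hvn := v.isLt
    rcases hv with hv | hv
    · rw [hv]
      exact hf1 (by omega)
    · rw [hv]
      exact (hg1 (by omega)).2

private theorem idx_eq (Y : ℕ) : idx (G.code N) Y = cp (tT (G.code N)) Y G.n +
    2 ^ tau (G.code N) * (fstc (G.code N) Y + (G.n + 1) * sndc (G.code N) Y) := rfl

private theorem cp_lt' (Y : ℕ) : cp (tT (G.code N)) Y G.n < 2 ^ tau (G.code N) :=
  cp_lt _ _ _

/-- different classes have different numbers -/
theorem idx_inj {y y' : Fin G.n → ZMod 2} (hy : y ∈ G.famY G.oddT) (hy' : y' ∈ G.famY G.oddT)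
    (h : idx (G.code N) (G.vm y) = idx (G.code N) (G.vm y')) : y = y' := by
  rw [idx_eq, idx_eq] at h
  have hf : fstc (G.code N) (G.vm y) ≤ G.n := srch_le _ _
  have hf' : fstc (G.code N) (G.vm y') ≤ G.n := srch_le _ _
  obtain ⟨h1, h2, h3⟩ := cls_pair (G.cp_lt' N _) (G.cp_lt' N _) hf hf' h
  have h4 := cp_inj _ h1
  have key : ∀ v : Fin G.n, y v ≠ 0 ↔ y' v ≠ 0 := by
    intro v
    by_cases hv : v ∈ G.oddT
    · have h5 := h4 v v.isLt ((G.tT_testBit N v).2 hv)
      rwa [vm_testBit, vm_testBit] at h5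
    · have h5 := G.out_iff N hy v
      have h6 := G.out_iff N hy' v
      rw [h2, h3, ← h6] at h5
      exact ⟨fun h7 => (h5.1 ⟨h7, hv⟩).1, fun h7 => (h5.2 ⟨h7, hv⟩).1⟩
  funext v
  by_cases hv : y v = 0
  · have h5 : y' v = 0 := by
      by_contra h6
      exact (key v).2 h6 hv
    rw [hv, h5]
  · rw [cls_one hv, cls_one ((key v).1 hv)]

theorem idx_lt (y : Fin G.n → ZMod 2) : idx (G.code N) (G.vm y) < DD (G.code N) := by
  rw [idx_eq]
  unfold DD
  rw [nn_code]
  have h1 := G.cp_lt' N (G.vm y)
  have h2 : fstc (G.code N) (G.vm y) ≤ G.n := srch_le _ _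
  have h3 : sndc (G.code N) (G.vm y) ≤ G.n := srch_le _ _
  have h4 : fstc (G.code N) (G.vm y) + (G.n + 1) * sndc (G.code N) (G.vm y) + 1 ≤
      (G.n + 1) ^ 2 := by
    have h5 := Nat.mul_le_mul_left (G.n + 1) h3
    have h6 : (G.n + 1) ^ 2 = (G.n + 1) * G.n + G.n + 1 := by ring
    omega
  have h5 := Nat.mul_le_mul_left (2 ^ tau (G.code N)) h4
  rw [mul_add, mul_one] at h5
  omega

theorem DD_code : DD (G.code N) = 2 ^ G.oddT.card * (G.n + 1) ^ 2 := by
  unfold DD
  rw [tau_code, nn_code]

end MGraph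

end Pool.Agent.Lib.H2
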