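import Pool.Agent.Lib.MP_3493b8_lc.CompD
import Pool.Agent.Lib.MP_3493b8_lc.O.Alg

/-! The third algorithm is computable in polynomial time. -/

set_option autoImplicit false
set_option linter.unusedVariables false

open Finset

namespace Pool.Agent.Lib.H2

open Pool.Agent.Lib.PTC

variable {S : List ℤ → ℕ} {σ : Type} [Tup σ]

/-- The size parameter dominates the numbers of vertices, edges, steps, samples and classes. -/
structure DomB (S : List ℤ → ℕ) (q : ℕ) : Prop extends Dom S where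
  t : ∀ x, tB x q ≤ S x
  s : ∀ x, sB x q ≤ S x
  d : ∀ x, DD x ≤ S x

theorem c_tT (H : Dom S) : Comp S fun x (_ : σ) => tT x := by
  unfold tT
  exact c_mkT H (Comp.pred (Comp.pow2 c_mm (t_mm H)))

theorem c_tau (H : Dom S) : Comp S fun x (_ : σ) => tau x := by
  unfold tau
  exact c_belowN (c_tT H) c_nn (t_nn H)

theorem t_tau (H : Dom S) : Tm S fun x (_ : σ) => tau x := (t_nn H).mono fun x _ => belowN_le _ _

theorem c_outc (H : Dom S) {Y : List ℤ → σ → ℕ} (hY : Comp S Y) :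
    Comp S fun x w => outc x (Y x w) := by
  unfold outc
  exact Comp.sum (Comp.ite (CompP.and (CompP.testBit hY.up Comp.id.snd)
    (CompP.testBit_false (c_tT H) Comp.id.snd)) (Comp.const 1) (Comp.const 0)) c_nn (t_nn H)

theorem c_fstc (H : Dom S) {Y : List ℤ → σ → ℕ} (hY : Comp S Y) :
    Comp S fun x w => fstc x (Y x w) := by
  unfold fstc
  exact c_srch (CompP.and (CompP.testBit hY.up Comp.id.snd)
    (CompP.testBit_false (c_tT H) Comp.id.snd)) c_nn (t_nn H)

theorem c_sndc (H : Dom S) {Y : List ℤ → σ → ℕ} (hY : Comp S Y) :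
    Comp S fun x w => sndc x (Y x w) := by
  unfold sndc
  exact c_srch (CompP.and (CompP.lt (c_fstc H hY).up Comp.id.snd)
    (CompP.and (CompP.testBit hY.up Comp.id.snd) (CompP.testBit_false (c_tT H) Comp.id.snd)))
    c_nn (t_nn H)

theorem c_idx (H : Dom S) {Y : List ℤ → σ → ℕ} (hY : Comp S Y) :
    Comp S fun x w => idx x (Y x w) := by
  unfold idx
  refine Comp.add (Comp.sum_of (f' := fun x w v => if (Y x w).testBit v = true ∧
    (tT x).testBit v = true then 2 ^ belowN (tT x) (min v (nn x)) else 0)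
    (Comp.ite (CompP.and (CompP.testBit hY.up Comp.id.snd) (CompP.testBit (c_tT H) Comp.id.snd))
      (Comp.pow2 (c_belowN (c_tT H) c_in (t_in H)) ((t_in H).mono fun x _ => belowN_le _ _))
      (Comp.const 0)) c_nn (t_nn H) fun x w i hi => ?_)
    (Comp.mul (Comp.pow2 (c_tau H) (t_tau H)) (Comp.add (c_fstc H hY)
      (Comp.mul (Comp.succ c_nn) (c_sndc H hY))))
  rw [min_eq_left hi.le]

theorem c_DD (H : Dom S) : Comp S fun x (_ : σ) => DD x := by
  unfold DD
  exact Comp.mul (Comp.pow2 (c_tau H) (t_tau H)) (Comp.pow (Comp.succ c_nn) (Comp.const 2) (Tm.const 2))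

theorem c_sB (H : Dom S) (q : ℕ) : Comp S fun x (_ : σ) => sB x q := by
  unfold sB
  exact Comp.mul (Comp.mul (Comp.const (2 ^ 20 * q)) (Comp.pow (c_DD H) (Comp.const 2) (Tm.const 2)))
    (Comp.pow c_S1 (Comp.const 5) (Tm.const 5))

theorem c_tB (H : Dom S) (q : ℕ) : Comp S fun x (_ : σ) => tB x q := by
  unfold tB
  exact Comp.mul (Comp.succ (Comp.mul (Comp.mul (Comp.mul (Comp.const 2) c_mm)
    (Comp.mul (Comp.const 3) (c_DD H))) (Comp.mul c_kE (Comp.const (kU q)))))
    (Comp.mul (Comp.const (30 * q)) c_S1)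

theorem t_tB {q : ℕ} (H : DomB S q) : Tm S fun x (_ : σ) => tB x q := Tm.scale.mono fun x _ => H.t x

theorem t_sB {q : ℕ} (H : DomB S q) : Tm S fun x (_ : σ) => sB x q := Tm.scale.mono fun x _ => H.s x

theorem t_DD {q : ℕ} (H : DomB S q) : Tm S fun x (_ : σ) => DD x := Tm.scale.mono fun x _ => H.d x

theorem c_MB (H : Dom S) (q : ℕ) : Comp S fun x (_ : σ) => MB x q := by
  unfold MB
  exact Comp.size (Comp.mul (Comp.const q) (c_sB H q))

theorem t_MB (H : Dom S) (q : ℕ) : Tm S fun x (_ : σ) => MB x q := by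
  unfold MB
  exact Tm.size (Comp.mul (Comp.const q) (c_sB H q)).bd

theorem c_EB (H : Dom S) (q : ℕ) : Comp S fun x (_ : σ) => EB x q := by
  unfold EB
  exact Comp.succ (Comp.mul c_mm (c_MB H q))

theorem t_EB (H : Dom S) (q : ℕ) : Tm S fun x (_ : σ) => EB x q := by
  unfold EB
  exact ((t_mm H).mul (t_MB H q)).add (Tm.const 1)

theorem c_bB (q : ℕ) : Comp S fun x (_ : σ) => bB x q := by
  unfold bB
  exact Comp.mul c_kE (Comp.const (kU q * 2 ^ Nat.size (3 * q)))

theorem c_bitsB {q : ℕ} (H : DomB S q) : Comp S fun x (_ : σ) => bitsB x q := by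
  unfold bitsB
  exact Comp.mul (Comp.mul (Comp.mul (Comp.add (Comp.size c_mm)
    (Comp.const ((Nat.size q + 1) + Nat.size (3 * q)))) (c_tB H.toDom q)) (c_sB H.toDom q)) c_mm

theorem t_bitsB {q : ℕ} (H : DomB S q) : Tm S fun x (_ : σ) => bitsB x q := by
  unfold bitsB
  exact ((((Tm.size c_mm.bd).add (Tm.const ((Nat.size q + 1) + Nat.size (3 * q)))).mul
    (t_tB H)).mul (t_sB H)).mul (t_mm H.toDom)

theorem c_aW (H : Dom S) (q : ℕ) {W Y : List ℤ → σ → ℕ} (hW : Comp S W) (hY : Comp S Y) :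
    Comp S fun x w => aW x q (W x w) (Y x w) := by
  unfold aW
  exact Comp.digit hW (c_EB H q) (c_idx H hY)

theorem t_aW (H : Dom S) (q : ℕ) {W Y : List ℤ → σ → ℕ} :
    Tm S fun x w => aW x q (W x w) (Y x w) :=
  (t_EB H q).mono fun x w => (Nat.mod_lt _ (Nat.succ_pos _)).le

theorem c_stepB (H : Dom S) (p q : ℕ) {W j d A : List ℤ → σ → ℕ} (hW : Comp S W) (hj : Comp S j)
    (hd : Comp S d) (hA : Comp S A) :
    Comp S fun x w => stepB x p q (W x w) (j x w) (d x w) (A x w) := by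
  have hi : Comp S fun x w => d x w % kE x := Comp.mod hd c_kE
  have ti : Tm S fun x w => d x w % kE x :=
    (t_kE H).mono fun x w => (Nat.mod_lt _ (kE_pos x)).le
  have ht : Comp S fun x w => tog (A x w) (d x w % kE x) := c_tog hA hi ti
  have h1 := c_aW H q hW (c_mkT H hA)
  have h2 := c_aW H q hW (c_mkT H ht)
  have t1 : Tm S fun x w => aW x q (W x w) (mkT x (A x w)) -
      aW x q (W x w) (mkT x (tog (A x w) (d x w % kE x))) :=
    (t_aW H q (W := W) (Y := fun x w => mkT x (A x w))).mono fun x w => Nat.sub_le _ _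
  unfold stepB
  exact Comp.ite (CompP.and (CompP.lt hi c_mm) (CompP.and
    (CompP.le (c_outc H (c_mkT H ht)) (Comp.const 2)) (CompP.lt
      (Comp.mul (Comp.div hd c_kE) (Comp.pow2 (Comp.sub h1 h2) t1))
      (Comp.mul (Comp.ite (CompP.and (CompP.testBit_false hA hi) (CompP.lt hi hj)) (Comp.const p)
        (Comp.const q)) (Comp.const (2 ^ Nat.size (3 * q))))))) ht hA

theorem stepB_le (x : List ℤ) (p q W j d A : ℕ) : stepB x p q W j d A ≤ A + 2 ^ kE x := by
  have h1 : tog A (d % kE x) ≤ A + 2 ^ kE x :=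
    (tog_le _ _).trans (Nat.add_le_add_left (Nat.pow_le_pow_right (by omega)
      (Nat.mod_lt _ (kE_pos x)).le) _)
  have h2 : A ≤ A + 2 ^ kE x := Nat.le_add_right _ _
  unfold stepB
  split_ifs <;> assumption

theorem c_runB (H : Dom S) (p q : ℕ) {W j t r : List ℤ → σ → ℕ} (hW : Comp S W) (hj : Comp S j)
    (ht : Comp S t) (tt : Tm S t) (hr : Comp S r) :
    Comp S fun x w => runB x p q (W x w) (j x w) (t x w) (r x w) := by
  unfold runB
  refine Comp.itr_nat (F := fun x w => t x w * 2 ^ kE x)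
    (c_stepB H p q hW.up hj.up (c_digs (c_bB q) hr.up Comp.id.snd.fst) Comp.id.snd.snd)
    (Comp.const 0) ht tt (ht.bd.mul ((Bd.const 2).pow (t_kE H))) fun x w i hi => ?_
  have key : ∀ i, itr (fun i B => stepB x p q (W x w) (j x w)
      (digs (bB x q) (r x w) i) B) 0 i ≤ i * 2 ^ kE x := by
    intro i
    induction i with
    | zero => rw [itr]; omega
    | succ i ih =>
      rw [itr]
      refine (stepB_le _ _ _ _ _ _ _).trans ?_
      rw [Nat.succ_mul]
      omega
  exact (key i).trans (Nat.mul_le_mul_right _ hi)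

theorem c_smB {q : ℕ} (H : DomB S q) (p : ℕ) {W j ω i : List ℤ → σ → ℕ} (hW : Comp S W)
    (hj : Comp S j) (hω : Comp S ω) (hi : Comp S i) :
    Comp S fun x w => smB x p q (W x w) (j x w) (ω x w) (i x w) := by
  unfold smB
  exact c_runB H.toDom p q hW hj (c_tB H.toDom q) (t_tB H)
    (c_digs (Comp.pow (c_bB q) (c_tB H.toDom q) (t_tB H)) hω hi)

theorem c_valB {q : ℕ} (H : DomB S q) (p : ℕ) {W j ω l : List ℤ → σ → ℕ} (hW : Comp S W)
    (hj : Comp S j) (hω : Comp S ω) (hl : Comp S l) :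
    Comp S fun x w => valB x p q (W x w) (j x w) (ω x w) (l x w) := by
  have h := c_smB H p hW.up hj.up hω.up (Comp.id (S := S) (σ := σ × ℕ)).snd
  unfold valB
  exact Comp.sum (Comp.ite (CompP.eq (c_idx H.toDom (c_mkT H.toDom h)) hl.up)
    (Comp.ite (CompP.testBit h hj.up) (Comp.const p) (Comp.const q)) (Comp.const 0))
    (c_sB H.toDom q) (t_sB H)

theorem c_cntL {q : ℕ} (H : DomB S q) (p : ℕ) {W j ω l : List ℤ → σ → ℕ} (hW : Comp S W)
    (hj : Comp S j) (hω : Comp S ω) (hl : Comp S l) :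
    Comp S fun x w => cntL x p q (W x w) (j x w) (ω x w) (l x w) := by
  have h := c_smB H p hW.up hj.up hω.up (Comp.id (S := S) (σ := σ × ℕ)).snd
  unfold cntL
  exact Comp.sum (Comp.ite (CompP.eq (c_idx H.toDom (c_mkT H.toDom h)) hl.up)
    (Comp.const 1) (Comp.const 0)) (c_sB H.toDom q) (t_sB H)

/-- the loop variable below the number of classes -/
theorem c_iD (H : Dom S) : Comp S fun x (v : σ × ℕ) => min v.2 (DD x) := Comp.min Comp.id.snd (c_DD H)

theorem t_iD {q : ℕ} (H : DomB S q) : Tm S fun x (v : σ × ℕ) => min v.2 (DD x) :=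
  Tm.min_right (t_DD H)

theorem c_updB {q : ℕ} (H : DomB S q) (p : ℕ) {W j ω : List ℤ → σ → ℕ} (hW : Comp S W)
    (hj : Comp S j) (hω : Comp S ω) :
    Comp S fun x w => updB x p q (W x w) (j x w) (ω x w) := by
  unfold updB
  refine Comp.sum_of (f' := fun x w l => (W x w / EB x q ^ l % EB x q +
    (MB x q - Nat.size (valB x p q (W x w) (j x w) (ω x w) l))) * EB x q ^ min l (DD x))
    (Comp.mul (Comp.add (Comp.digit hW.up (c_EB H.toDom q) Comp.id.snd)
      (Comp.sub (c_MB H.toDom q) (Comp.size (c_valB H p hW.up hj.up hω.up Comp.id.snd))))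
      (Comp.pow (c_EB H.toDom q) (c_iD H.toDom) (t_iD H))) (c_DD H.toDom) (t_DD H)
    fun x w i hi => ?_
  rw [min_eq_left hi.le]

theorem updB_le (x : List ℤ) (p q W j ω : ℕ) :
    updB x p q W j ω ≤ DD x * ((EB x q + MB x q) * EB x q ^ DD x) := by
  have hE : 0 < EB x q := Nat.succ_pos _
  unfold updB
  calc ∑ l ∈ range (DD x), (W / EB x q ^ l % EB x q +
        (MB x q - Nat.size (valB x p q W j ω l))) * EB x q ^ l ≤
        ∑ l ∈ range (DD x), (EB x q + MB x q) * EB x q ^ DD x := by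
        refine Finset.sum_le_sum fun l hl => Nat.mul_le_mul ?_ ?_
        · exact Nat.add_le_add (Nat.mod_lt _ hE).le (Nat.sub_le _ _)
        · exact Nat.pow_le_pow_right hE (Finset.mem_range.1 hl).le
    _ = DD x * ((EB x q + MB x q) * EB x q ^ DD x) := by
        rw [Finset.sum_const, Finset.card_range, smul_eq_mul]

theorem valB_le_mul (x : List ℤ) (p q W j ω l : ℕ) :
    valB x p q W j ω l ≤ (p + q) * sB x q := by
  unfold valB
  calc ∑ i ∈ range (sB x q), (if idx x (mkT x (smB x p q W j ω i)) = l then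
        (if (smB x p q W j ω i).testBit j = true then p else q) else 0) ≤
        ∑ i ∈ range (sB x q), (p + q) := by
        refine Finset.sum_le_sum fun i _ => ?_
        split_ifs <;> omega
    _ = (p + q) * sB x q := by
        rw [Finset.sum_const, Finset.card_range, smul_eq_mul, mul_comm]

theorem cntL_le (x : List ℤ) (p q W j ω l : ℕ) : cntL x p q W j ω l ≤ sB x q := by
  unfold cntL
  calc ∑ i ∈ range (sB x q), (if idx x (mkT x (smB x p q W j ω i)) = l then 1 else 0) ≤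
        ∑ i ∈ range (sB x q), 1 := by
        refine Finset.sum_le_sum fun i _ => ?_
        split_ifs <;> omega
    _ = sB x q := by simp

theorem c_stg {q : ℕ} (H : DomB S q) (p : ℕ) {j ω : List ℤ → σ → ℕ} {c : List ℤ → σ → ℕ × ℕ × ℕ}
    (hj : Comp S j) (hω : Comp S ω) (hc : Comp S c) :
    Comp S fun x w => stg x p q (j x w) (ω x w) (c x w) := by
  have hT : Comp S fun x (_ : σ) => idx x (tT x) := c_idx H.toDom (c_tT H.toDom)
  unfold stg
  exact Comp.pair (c_updB H p hc.fst hj hω) (Comp.pair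
    (Comp.mul hc.snd.fst (c_valB H p hc.fst hj hω hT))
    (Comp.mul hc.snd.snd (Comp.mul (Comp.const q) (c_cntL H p hc.fst hj hω hT))))

/-- bound for the three numbers -/
def bdB (x : List ℤ) (p q : ℕ) : ℕ := DD x * ((EB x q + MB x q) * EB x q ^ DD x) +
  ((p + q) * sB x q + 1) ^ mm x

theorem c_resB {q : ℕ} (H : DomB S q) (p : ℕ) {ω : List ℤ → σ → ℕ} (hω : Comp S ω) :
    Comp S fun x w => resB x p q (ω x w) := by
  unfold resB
  have hb : ∀ {τ : Type} [Tup τ], Comp S fun x (_ : τ) => (bB x q ^ tB x q) ^ sB x q := fun {τ} _ =>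
    Comp.pow (Comp.pow (c_bB q) (c_tB H.toDom q) (t_tB H)) (c_sB H.toDom q) (t_sB H)
  refine Comp.itr_of (h' := fun x w j c => stg x p q j
      (digs ((bB x q ^ tB x q) ^ sB x q) (ω x w) j) c)
    (F := fun x w => bdB x p q)
    (fun x w i c => c.1 ≤ DD x * ((EB x q + MB x q) * EB x q ^ DD x) ∧
      c.2.1 ≤ ((p + q) * sB x q + 1) ^ i ∧ c.2.2 ≤ ((p + q) * sB x q + 1) ^ i)
    (c_stg H p Comp.id.snd.fst (c_digs hb hω.up Comp.id.snd.fst) Comp.id.snd.snd)
    (Comp.pair (Comp.const 0) (Comp.pair (Comp.const 1) (Comp.const 1))) c_mm (t_mm H.toDom)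
    ?_ (fun x w => ⟨Nat.zero_le _, (by simp), (by simp)⟩)
    (fun x w i hi c hc => ⟨⟨updB_le _ _ _ _ _ _, ?_, ?_⟩, rfl⟩) fun x w i hi c hc => ?_
  · unfold bdB
    exact ((t_DD H).bd.mul (((c_EB H.toDom q).bd.add (c_MB H.toDom q).bd).mul
      ((c_EB H.toDom q).bd.pow (t_DD H)))).add
      ((((Bd.const (p + q)).mul (c_sB H.toDom q).bd).add (Bd.const 1)).pow (t_mm H.toDom))
  · rw [pow_succ]
    exact Nat.mul_le_mul hc.2.1 ((valB_le_mul _ _ _ _ _ _ _).trans (Nat.le_succ _))
  · rw [pow_succ]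
    refine Nat.mul_le_mul hc.2.2 ((Nat.mul_le_mul_left _ (cntL_le _ _ _ _ _ _ _)).trans ?_)
    exact (Nat.mul_le_mul_right _ (Nat.le_add_left _ _)).trans (Nat.le_succ _)
  · obtain ⟨h1, h2, h3⟩ := hc
    have h4 : ((p + q) * sB x q + 1) ^ i ≤ ((p + q) * sB x q + 1) ^ mm x :=
      Nat.pow_le_pow_right (Nat.succ_pos _) hi
    have h5 : bdB x p q = DD x * ((EB x q + MB x q) * EB x q ^ DD x) +
      ((p + q) * sB x q + 1) ^ mm x := rfl
    refine lt_prod.2 ⟨lt_nat.2 ?_, lt_prod.2 ⟨lt_nat.2 ?_, lt_nat.2 ?_⟩⟩ <;> omega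

/-- **The output of the third algorithm is computable in polynomial time.** -/
theorem c_outB {q : ℕ} (H : DomB S q) (p b K : ℕ) {ω : List ℤ → σ → ℕ} (hω : Comp S ω) :
    Comp S fun x w => outB x p q b K (ω x w) := by
  have D0 := H.toDom
  have hr := c_resB H p hω
  unfold outB
  exact Comp.pair (Comp.mod (c_nul D0) (Comp.const 2))
    (Comp.div (Comp.mul (Comp.mul (Comp.pow (Comp.const K) c_S1 (t_S1 D0))
      (Comp.pow (Comp.const q) (c_nul D0) (t_nul D0))) hr.snd.fst)
      (Comp.mul (Comp.pow (Comp.const b) (c_nul D0) (t_nul D0)) hr.snd.snd))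

end Pool.Agent.Lib.H2
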