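import Pool.Agent.Lib.MP_3493b8_lc.O.CompA
import Pool.Agent.Lib.MP_3493b8_lc.O.Bound

/-! The output of the third algorithm and the number of coin flips are computable in time polynomial
in `szB`. -/

set_option autoImplicit false

namespace Pool.Agent.Lib.H2

open Pool.Agent.Lib.PTC

theorem dom_szB (q : ℕ) : DomB (szB q) q := by
  have key : ∀ x, nn x ≤ szB q x ∧ mm x ≤ szB q x ∧ NN x ≤ szB q x ∧ tB x q ≤ szB q x ∧
      sB x q ≤ szB q x ∧ DD x ≤ szB q x := by
    intro x
    unfold szB
    omega
  exact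
    { n := fun x => (key x).1
      m := fun x => (key x).2.1
      N := fun x => (key x).2.2.1
      t := fun x => (key x).2.2.2.1
      s := fun x => (key x).2.2.2.2.1
      d := fun x => (key x).2.2.2.2.2 }

theorem comp_outB (s b : ℕ) :
    Comp (szB (s + b)) fun x om => outB x (s - b) (s + b) b (4 * (s + b) ^ 2) om :=
  c_outB (dom_szB (s + b)) (s - b) b (4 * (s + b) ^ 2) Comp.id

theorem comp_bitsB (q : ℕ) : Comp (szB q) fun x (_ : Unit) => bitsB x q := c_bitsB (dom_szB q)

theorem tm_bitsB (q : ℕ) : Tm (szB q) fun x (_ : Unit) => bitsB x q := t_bitsB (dom_szB q)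

end Pool.Agent.Lib.H2
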