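import Pool.Agent.Lib.MP_3493b8_lc.O.Stage

/-! The new table is fine in the next stage; the running quotient. -/

set_option autoImplicit false

open Finset

namespace Pool.Agent.Lib.H2

open Pool.Agent.Lib.PTC

namespace MGraph

variable (G : MGraph) (N p q : ℕ)

/-- the exponents in the table `W` are at most `j * MB` -/
def DigLe (W j : ℕ) : Prop :=
  ∀ l < DD (G.code N), W / EB (G.code N) q ^ l % EB (G.code N) q ≤ j * MB (G.code N) q

theorem digLe_zero : G.DigLe N q 0 0 := by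
  intro l _
  simp

private theorem stu_digit (W : ℕ) (j : Fin G.m) (ω : ℕ) (h : G.DigLe N q W j) (l : ℕ)
    (hl : l < DD (G.code N)) :
    updB (G.code N) p q W j ω / EB (G.code N) q ^ l % EB (G.code N) q =
      W / EB (G.code N) q ^ l % EB (G.code N) q +
        (MB (G.code N) q - Nat.size (valB (G.code N) p q W j ω l)) := by
  refine digit_sum (EB (G.code N) q) (DD (G.code N))
    (fun l => W / EB (G.code N) q ^ l % EB (G.code N) q +
      (MB (G.code N) q - Nat.size (valB (G.code N) p q W j ω l))) (fun v hv => ?_) l hl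
  have h1 := h v hv
  have h2 : ((j : ℕ) + 1) * MB (G.code N) q ≤ G.m * MB (G.code N) q :=
    Nat.mul_le_mul_right _ j.isLt
  have h3 : EB (G.code N) q = G.m * MB (G.code N) q + 1 := rfl
  rw [Nat.add_mul, one_mul] at h2
  have h4 : MB (G.code N) q - Nat.size (valB (G.code N) p q W j ω v) ≤ MB (G.code N) q :=
    Nat.sub_le _ _
  omega

theorem digLe_upd (W : ℕ) (j : Fin G.m) (ω : ℕ) (h : G.DigLe N q W j) :
    G.DigLe N q (updB (G.code N) p q W j ω) (j + 1) := by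
  intro l hl
  rw [G.stu_digit N p q W j ω h l hl, Nat.add_mul, one_mul]
  exact Nat.add_le_add (h l hl) (Nat.sub_le _ _)

/-- the exponents of the new table -/
theorem tab_upd (W : ℕ) (j : Fin G.m) (ω : ℕ) (h : G.DigLe N q W j) (y : Fin G.n → ZMod 2)
    (hy : y ∈ G.famY G.oddT) :
    G.tab N q (updB (G.code N) p q W j ω) y = G.tab N q W y +
      (MB (G.code N) q - Nat.size (valB (G.code N) p q W j ω (idx (G.code N) (G.vm y)))) :=
  G.stu_digit N p q W j ω h _ (G.idx_lt N y)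

private theorem stu_count (w : Fin G.m → ℝ) (hw : ∀ i, w i = 1) (C : Finset (Fin G.m)) :
    G.Zs ∅ w (G.bd C) = G.Zs ∅ w 0 := by
  have hone : ∀ A : Finset (Fin G.m), ∏ i ∈ A, w i = 1 := fun A => prod_eq_one fun i _ => hw i
  have hinv : Function.Involutive fun A : Finset (Fin G.m) => symmDiff A C := fun A =>
    symmDiff_symmDiff_cancel_right C A
  unfold Zs
  rw [← Equiv.sum_comp hinv.toPerm fun A : Finset (Fin G.m) =>
    if Disjoint A ∅ ∧ G.bd A = G.bd C then ∏ i ∈ A, w i else 0]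
  refine sum_congr rfl fun A _ => ?_
  change (if Disjoint (symmDiff A C) ∅ ∧ G.bd (symmDiff A C) = G.bd C then
    ∏ i ∈ symmDiff A C, w i else 0) = _
  rw [hone, hone, G.bd_symmDiff]
  have h2 : (Disjoint (symmDiff A C) (∅ : Finset (Fin G.m)) ∧ G.bd A + G.bd C = G.bd C) ↔
      (Disjoint A (∅ : Finset (Fin G.m)) ∧ G.bd A = 0) :=
    ⟨fun h => ⟨disjoint_empty_right _, by simpa using h.2⟩,
      fun h => ⟨disjoint_empty_right _, by rw [h.2, zero_add]⟩⟩
  by_cases h3 : Disjoint A (∅ : Finset (Fin G.m)) ∧ G.bd A = 0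
  · rw [if_pos h3, if_pos (h2.2 h3)]
  · rw [if_neg h3, if_neg fun h => h3 (h2.1 h)]

private theorem stu_wj (hp : 0 < p) (hpq : p < q) (j : ℕ) (i : Fin G.m) :
    0 < G.wj ((p : ℝ) / q) j i := by
  unfold wj
  have h1 : (0 : ℝ) < p := by exact_mod_cast hp
  have h2 : (0 : ℝ) < q := by exact_mod_cast hp.trans hpq
  split_ifs
  · exact div_pos h1 h2
  · exact one_pos

theorem fine_zero (hp : 0 < p) (hpq : p < q) : G.FineW N p q 0 0 := by
  have hw1 : ∀ i, G.wj ((p : ℝ) / q) 0 i = 1 := fun i => if_neg (Nat.not_lt_zero _)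
  have h0 : 0 < G.Zs ∅ (G.wj ((p : ℝ) / q) 0) 0 := by
    have h := G.Zs_pos ∅ (G.wj ((p : ℝ) / q) 0) (fun i => by rw [hw1 i]; exact one_pos) ∅
      (disjoint_empty_right _)
    rwa [G.bd_empty] at h
  refine ⟨G.Zs ∅ (G.wj ((p : ℝ) / q) 0) 0, h0, fun y _ hy => ?_⟩
  obtain ⟨C, rfl⟩ := (G.Zs_ne_iff (G.wj ((p : ℝ) / q) 0) (fun i => G.stu_wj p q hp hpq 0 i) y).1 hy
  have h1 : G.tab N q 0 (G.bd C) = 0 := by
    unfold tab aW
    simp
  rw [G.stu_count _ hw1 C, h1, pow_zero, one_mul]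
  exact ⟨le_rfl, by linarith⟩

private theorem stu_sB (hq : 0 < q) : 0 < sB (G.code N) q := by
  have h1 : 0 < DD (G.code N) := by
    rw [G.DD_code]
    positivity
  have h2 : 0 < S1 (G.code N) := Nat.succ_pos _
  unfold sB
  positivity

private theorem stu_near {ε s a u c : ℝ} (hc : 0 < c) (h : Near ε s a u) :
    Near ε (c * s) (c * a) u := by
  obtain ⟨h1, h2⟩ := h
  refine ⟨?_, ?_⟩
  · calc (1 - ε) * (c * s * u) = c * ((1 - ε) * (s * u)) := by ring
      _ ≤ c * a := mul_le_mul_of_nonneg_left h1 hc.le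
  · calc c * a ≤ c * ((1 + ε) * (s * u)) := mul_le_mul_of_nonneg_left h2 hc.le
      _ = (1 + ε) * (c * s * u) := by ring

/-- the new table is fine in the next stage -/
theorem fine_upd (W : ℕ) (j : Fin G.m) (ω : ℕ) (hp : 0 < p) (hpq : p < q) (hN : 1 ≤ N)
    (h : G.DigLe N q W j) (hF : G.FineW N p q W j) (hG : G.GoodStg N p q W j ω) :
    G.FineW N p q (updB (G.code N) p q W j ω) (j + 1) := by
  have hm : 1 ≤ G.m := by
    have := j.isLt
    omega
  have hq : 0 < q := hp.trans hpq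
  have hq' : (0 : ℝ) < q := by exact_mod_cast hq
  have hs : (0 : ℝ) < sB (G.code N) q := by exact_mod_cast G.stu_sB N q hq
  have hS := G.nuT_sum_pos N p q W j hp hpq
  obtain ⟨S, hSd⟩ : ∃ S, S = ∑ B, G.nuT G.oddT (G.tab N q W) p q j B := ⟨_, rfl⟩
  rw [← hSd] at hS
  obtain ⟨c, hc⟩ : ∃ c : ℝ, c = 2 ^ MB (G.code N) q /
    (2 * (1 + 1 / 40) * ((q : ℝ) * sB (G.code N) q)) := ⟨_, rfl⟩
  have hc0 : 0 < c := by
    rw [hc]
    positivity
  refine ⟨S * c, mul_pos hS hc0, fun y hy hy0 => ?_⟩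
  have hsol := (G.Zs_ne_iff (G.wj ((p : ℝ) / q) (j + 1))
    (fun i => G.stu_wj p q hp hpq (j + 1) i) y).1 hy0
  have hy1 : G.Zs ∅ (fun _ => 1) y ≠ 0 :=
    (G.Zs_ne_iff (fun _ => 1) (fun _ => one_pos) y).2 hsol
  obtain ⟨hv, hv1⟩ := G.mnB_V N p q W j hp hpq hF y hy hsol
  obtain ⟨v, hvd⟩ : ∃ v, v = G.mnB N p q W j (G.obsV y ((p : ℝ) / q) j) := ⟨_, rfl⟩
  rw [← hvd] at hv hv1
  rw [← hSd] at hv
  have hv0 : 0 < v := by
    refine lt_of_lt_of_le ?_ hv1
    have h1 : (0 : ℝ) < DD (G.code N) := by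
      rw [G.DD_code]
      positivity
    positivity
  have hN1 := hG.1 y hy hy1
  rw [← hvd] at hN1
  have hN2 := stu_near hq' hN1
  rw [← G.valB_code N p q W j ω hp hpq y hy] at hN2
  obtain ⟨h1, h2⟩ := numB_size G.m N hm hN _ (mul_pos hq' hs) _ (MB (G.code N) q) v hv0 hN2
    (valB_le p q (G.code N) W j ω _ hpq)
  rw [← hc] at h1 h2
  have h3 : (2 : ℝ) ^ G.tab N q (updB (G.code N) p q W j ω) y *
      G.Zs ∅ (G.wj ((p : ℝ) / q) (j + 1)) y = S * ((2 : ℝ) ^ (MB (G.code N) q -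
        Nat.size (valB (G.code N) p q W j ω (idx (G.code N) (G.vm y)))) * v) := by
    rw [G.tab_upd N p q W j ω h y hy, pow_add, hv]
    field_simp
  rw [h3]
  exact ⟨mul_le_mul_of_nonneg_left h1 hS.le,
    (mul_le_mul_of_nonneg_left h2 hS.le).trans (le_of_eq (by ring))⟩

private theorem stu_bd : G.bd univ ∈ G.famY G.oddT := by
  unfold famY oddT
  rw [mem_filter]
  refine ⟨mem_univ _, ?_⟩
  rw [sdiff_self]
  exact Nat.zero_le _

/-- the factor of one stage -/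
theorem stage_quot (W : ℕ) (j : Fin G.m) (ω : ℕ) (hp : 0 < p) (hpq : p < q) (hN : 1 ≤ N)
    (hF : G.FineW N p q W j) (hG : G.GoodStg N p q W j ω) :
    0 < q * cntL (G.code N) p q W j ω (idx (G.code N) (tT (G.code N))) ∧
    Real.exp (-(1 / (4 * G.m * N))) * (G.Zs ∅ (G.wj ((p : ℝ) / q) (j + 1)) (G.bd univ) /
      G.Zs ∅ (G.wj ((p : ℝ) / q) j) (G.bd univ)) ≤
      (valB (G.code N) p q W j ω (idx (G.code N) (tT (G.code N))) : ℝ) /
        ((q * cntL (G.code N) p q W j ω (idx (G.code N) (tT (G.code N))) : ℕ) : ℝ) ∧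
    (valB (G.code N) p q W j ω (idx (G.code N) (tT (G.code N))) : ℝ) /
        ((q * cntL (G.code N) p q W j ω (idx (G.code N) (tT (G.code N))) : ℕ) : ℝ) ≤
      Real.exp (1 / (4 * G.m * N)) * (G.Zs ∅ (G.wj ((p : ℝ) / q) (j + 1)) (G.bd univ) /
      G.Zs ∅ (G.wj ((p : ℝ) / q) j) (G.bd univ)) := by
  have hm : 1 ≤ G.m := by
    have := j.isLt
    omega
  have hq : 0 < q := hp.trans hpq
  have hq' : (0 : ℝ) < q := by exact_mod_cast hq
  have hs : (0 : ℝ) < sB (G.code N) q := by exact_mod_cast G.stu_sB N q hq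
  have hS := G.nuT_sum_pos N p q W j hp hpq
  have hy := G.stu_bd
  have hsol : ∃ A, G.bd A = G.bd univ := ⟨univ, rfl⟩
  have hy1 : G.Zs ∅ (fun _ => 1) (G.bd univ) ≠ 0 :=
    (G.Zs_ne_iff (fun _ => 1) (fun _ => one_pos) _).2 hsol
  have hDD : (0 : ℝ) < DD (G.code N) := by
    rw [G.DD_code]
    positivity
  have hlow : (0 : ℝ) < 1 / (3 * q * (DD (G.code N) : ℝ)) := by positivity
  obtain ⟨hv, hv1⟩ := G.mnB_V N p q W j hp hpq hF _ hy hsol
  obtain ⟨hu, hu1⟩ := G.mnB_U N p q W j hp hpq hF _ hy hsol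
  have hv0 := lt_of_lt_of_le hlow hv1
  have hu0 := lt_of_lt_of_le hlow hu1
  have hNV := hG.1 _ hy hy1
  have hNU := hG.2
  obtain ⟨hU, hV, h1, h2⟩ := num_quot G.m N hm hN _ _ _ _ _ hs hu0 hv0 hNU hNV
  have hZ : 0 < G.Zs ∅ (G.wj ((p : ℝ) / q) j) (G.bd univ) :=
    G.Zs_pos ∅ _ (fun i => G.stu_wj p q hp hpq j i) univ (disjoint_empty_right _)
  have hquot : G.mnB N p q W j (G.obsV (G.bd univ) ((p : ℝ) / q) j) /
      G.mnB N p q W j (G.obsU (G.bd univ)) = G.Zs ∅ (G.wj ((p : ℝ) / q) (j + 1)) (G.bd univ) /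
      G.Zs ∅ (G.wj ((p : ℝ) / q) j) (G.bd univ) := by
    rw [hv, hu]
    have h3 := hS.ne'
    have h4 := hZ.ne'
    field_simp
  rw [hquot] at h1 h2
  have hval := G.valB_code N p q W j ω hp hpq _ hy
  have hcnt := G.cntL_code N p q W j ω _ hy
  rw [G.tT_code, Nat.cast_mul, hval, hcnt, mul_div_mul_left _ _ hq'.ne']
  refine ⟨Nat.mul_pos hq ?_, h1, h2⟩
  have h5 : (0 : ℝ) < (cntL (G.code N) p q W j ω (idx (G.code N) (G.vm (G.bd univ))) : ℕ) := by
    rw [hcnt]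
    exact hU
  exact_mod_cast h5

end MGraph

end Pool.Agent.Lib.H2
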