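import Pool.Agent.Lib.MP_3493b8_lc.O.StgBad
import Pool.Agent.Lib.MP_3493b8_lc.O.StgUpd
import Pool.Agent.Lib.MP_3493b8_lc.O.Adapt
import Pool.Agent.Lib.MP_3493b8_lc.Det3

/-! The third algorithm is correct with probability at least `7/8`. -/

set_option autoImplicit false

open Finset

namespace Pool.Agent.Lib.H2

open Pool.Agent.Lib.PTC

namespace MGraph

variable (G : MGraph) (N p q : ℕ)

/-- the invariant of the stages -/
def InvB (j : ℕ) (c : ℕ × ℕ × ℕ) : Prop :=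
  j ≤ G.m ∧ G.DigLe N q c.1 j ∧ G.FineW N p q c.1 j ∧ 0 < c.2.2 ∧
    Real.exp (-(j / (4 * G.m * N))) * (G.Zs ∅ (G.wj ((p : ℝ) / q) j) (G.bd univ) /
      G.Zs ∅ (G.wj ((p : ℝ) / q) 0) (G.bd univ)) ≤ (c.2.1 : ℝ) / (c.2.2 : ℝ) ∧
    (c.2.1 : ℝ) / (c.2.2 : ℝ) ≤
      Real.exp (j / (4 * G.m * N)) * (G.Zs ∅ (G.wj ((p : ℝ) / q) j) (G.bd univ) /
      G.Zs ∅ (G.wj ((p : ℝ) / q) 0) (G.bd univ))

theorem invB_zero (hp : 0 < p) (hpq : p < q) : G.InvB N p q 0 (0, 1, 1) := by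
  have hq0 : (0 : ℝ) < q := by exact_mod_cast (by omega : 0 < q)
  have hp0 : (0 : ℝ) < p := by exact_mod_cast hp
  have hw : ∀ i : Fin G.m, 0 < G.wj ((p : ℝ) / q) 0 i := by
    intro i
    unfold wj
    split_ifs
    · positivity
    · exact one_pos
  have hZ : G.Zs ∅ (G.wj ((p : ℝ) / q) 0) (G.bd univ) ≠ 0 :=
    (G.Zs_ne_iff _ hw _).2 ⟨univ, rfl⟩
  refine ⟨Nat.zero_le _, G.digLe_zero N q, G.fine_zero N p q hp hpq, one_pos, ?_, ?_⟩
  · rw [div_self hZ, Nat.cast_zero, zero_div, neg_zero, Real.exp_zero]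
    norm_num
  · rw [div_self hZ, Nat.cast_zero, zero_div, Real.exp_zero]
    norm_num

theorem invB_succ (hp : 0 < p) (hpq : p < q) (hN : 1 ≤ N) (j : Fin G.m) (c : ℕ × ℕ × ℕ) (ω : ℕ)
    (h : G.InvB N p q j c) (hG : G.GoodStg N p q c.1 j ω) :
    G.InvB N p q (j + 1) (stg (G.code N) p q j ω c) := by
  obtain ⟨h1, h2, h3, h4, h5, h6⟩ := h
  obtain ⟨g1, g2, g3⟩ := G.stage_quot N p q c.1 j ω hp hpq hN h3 hG
  have hq0 : (0 : ℝ) < q := by exact_mod_cast (by omega : 0 < q)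
  have hp0 : (0 : ℝ) < p := by exact_mod_cast hp
  have hw : ∀ k, ∀ i : Fin G.m, 0 < G.wj ((p : ℝ) / q) k i := by
    intro k i
    unfold wj
    split_ifs
    · positivity
    · exact one_pos
  have hZ0 : ∀ k, 0 ≤ G.Zs ∅ (G.wj ((p : ℝ) / q) k) (G.bd univ) := by
    intro k
    unfold Zs
    refine sum_nonneg fun A _ => ?_
    split_ifs
    · exact prod_nonneg fun i _ => (hw k i).le
    · exact le_rfl
  have hZ : ∀ k, 0 < G.Zs ∅ (G.wj ((p : ℝ) / q) k) (G.bd univ) := fun k =>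
    lt_of_le_of_ne (hZ0 k) ((G.Zs_ne_iff _ (hw k) _).2 ⟨univ, rfl⟩).symm
  obtain ⟨Z0, hZ00⟩ : ∃ Z, Z = G.Zs ∅ (G.wj ((p : ℝ) / q) 0) (G.bd univ) := ⟨_, rfl⟩
  obtain ⟨Zj, hZj⟩ : ∃ Z, Z = G.Zs ∅ (G.wj ((p : ℝ) / q) j) (G.bd univ) := ⟨_, rfl⟩
  obtain ⟨Zs, hZs⟩ : ∃ Z, Z = G.Zs ∅ (G.wj ((p : ℝ) / q) (j + 1)) (G.bd univ) := ⟨_, rfl⟩
  have hj0 : 0 < Z0 := by rw [hZ00]; exact hZ 0
  have hj1 : 0 < Zj := by rw [hZj]; exact hZ j
  have hj2 : 0 < Zs := by rw [hZs]; exact hZ (j + 1)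
  rw [← hZ00, ← hZj] at h5 h6
  rw [← hZj, ← hZs] at g2 g3
  obtain ⟨va, hva⟩ : ∃ va, va = valB (G.code N) p q c.1 j ω (idx (G.code N) (tT (G.code N))) :=
    ⟨_, rfl⟩
  obtain ⟨cn, hcn⟩ : ∃ cn, cn = q * cntL (G.code N) p q c.1 j ω (idx (G.code N) (tT (G.code N))) :=
    ⟨_, rfl⟩
  rw [← hcn] at g1 g2 g3
  rw [← hva] at g2 g3
  have hst : stg (G.code N) p q j ω c = (updB (G.code N) p q c.1 j ω, c.2.1 * va, c.2.2 * cn) := by
    unfold stg
    rw [hva, hcn]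
  rw [hst]
  have hcast : ((c.2.1 * va : ℕ) : ℝ) / ((c.2.2 * cn : ℕ) : ℝ) =
      (c.2.1 : ℝ) / (c.2.2 : ℝ) * ((va : ℝ) / (cn : ℝ)) := by
    push_cast
    rw [mul_div_mul_comm]
  have e1 : ∀ E F : ℝ, (E * (Zj / Z0)) * (F * (Zs / Zj)) = (E * F) * (Zs / Z0) := by
    intro E F
    field_simp
  refine ⟨j.isLt, G.digLe_upd N p q c.1 j ω h2, G.fine_upd N p q c.1 j ω hp hpq hN h2 h3 hG,
    Nat.mul_pos h4 g1, ?_, ?_⟩
  · change Real.exp (-(((j : ℕ) + 1 : ℕ) / (4 * G.m * N))) * (G.Zs ∅ (G.wj ((p : ℝ) / q) (j + 1))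
      (G.bd univ) / G.Zs ∅ (G.wj ((p : ℝ) / q) 0) (G.bd univ)) ≤
      ((c.2.1 * va : ℕ) : ℝ) / ((c.2.2 * cn : ℕ) : ℝ)
    rw [← hZ00, ← hZs, hcast]
    have e2 : Real.exp (-((((j : ℕ) + 1 : ℕ) : ℝ) / (4 * G.m * N))) =
        Real.exp (-((j : ℕ) / (4 * G.m * N))) * Real.exp (-(1 / (4 * G.m * N))) := by
      rw [← Real.exp_add]
      congr 1
      push_cast
      ring
    rw [e2, ← e1]
    exact mul_le_mul h5 g2 (by positivity) (by positivity)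
  · change ((c.2.1 * va : ℕ) : ℝ) / ((c.2.2 * cn : ℕ) : ℝ) ≤
      Real.exp (((j : ℕ) + 1 : ℕ) / (4 * G.m * N)) * (G.Zs ∅ (G.wj ((p : ℝ) / q) (j + 1))
      (G.bd univ) / G.Zs ∅ (G.wj ((p : ℝ) / q) 0) (G.bd univ))
    rw [← hZ00, ← hZs, hcast]
    have e2 : Real.exp ((((j : ℕ) + 1 : ℕ) : ℝ) / (4 * G.m * N)) =
        Real.exp ((j : ℕ) / (4 * G.m * N)) * Real.exp (1 / (4 * G.m * N)) := by
      rw [← Real.exp_add]
      congr 1
      push_cast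
      ring
    rw [e2, ← e1]
    exact mul_le_mul h6 g3 (by positivity) (by positivity)

theorem two_pow_bitsB : 2 ^ bitsB (G.code N) q =
    ((bB (G.code N) q ^ tB (G.code N) q) ^ sB (G.code N) q) ^ mm (G.code N) := by
  unfold bitsB bB kE kU
  rw [← pow_add, ← pow_add, ← pow_mul, ← pow_mul, ← pow_mul]
  congr 1
  ring

/-- Most random numbers lead to a good final state. -/
theorem good_countB (hp : 0 < p) (hpq : p < q) (hN : 1 ≤ N) :
    open Classical in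
    (7 : ℝ) * 2 ^ bitsB (G.code N) q ≤
      8 * (((range (2 ^ bitsB (G.code N) q)).filter fun ω =>
        G.InvB N p q G.m (resB (G.code N) p q ω)).card : ℝ) := by
  classical
  obtain ⟨b, hb⟩ : ∃ b, b = (bB (G.code N) q ^ tB (G.code N) q) ^ sB (G.code N) q := ⟨_, rfl⟩
  have hb0 : 0 < b := by
    rw [hb]
    unfold bB kE kU
    positivity
  have h2b : 2 ^ bitsB (G.code N) q = b ^ G.m := by
    rw [hb]
    exact G.two_pow_bitsB N q
  have hδ : (0 : ℝ) ≤ 1 / (8 * G.m) := by positivity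
  have hA := adapt b G.m hb0 (stg (G.code N) p q) (0, 1, 1) (G.InvB N p q)
    (fun j c d => ∃ hj : j < G.m, ¬ G.GoodStg N p q c.1 ⟨j, hj⟩ d) (1 / (8 * G.m)) hδ
    (G.invB_zero N p q hp hpq) (fun j hj s hs => by
      have h1 := G.stage_bad N p q s.1 ⟨j, hj⟩ hp hpq hN hs.2.2.1
      rw [← hb] at h1
      refine le_trans ?_ h1
      refine Nat.cast_le.2 (card_le_card fun d hd => ?_)
      obtain ⟨hd1, _, hd2⟩ := (@mem_filter _ _ (_) _ _).1 hd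
      exact (@mem_filter _ _ (_) _ _).2 ⟨hd1, hd2⟩)
    (fun j hj s hs d _ hd => by
      have h1 : G.GoodStg N p q s.1 ⟨j, hj⟩ d := by
        by_contra h2
        exact hd ⟨hj, h2⟩
      exact G.invB_succ N p q hp hpq hN ⟨j, hj⟩ s d hs h1)
  have hbR : (0 : ℝ) < (b : ℝ) ^ G.m := by
    have : (0 : ℝ) < b := by exact_mod_cast hb0
    positivity
  have hm8 : (G.m : ℝ) * (1 / (8 * G.m)) ≤ 1 / 8 := by
    rcases Nat.eq_zero_or_pos G.m with h | h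
    · rw [h]
      norm_num
    · have : (0 : ℝ) < G.m := by exact_mod_cast h
      rw [← div_div, mul_div_cancel₀ _ this.ne']
  have hA2 := hA.trans (mul_le_mul_of_nonneg_right hm8 hbR.le)
  obtain ⟨P, hP⟩ : ∃ P : ℕ → Prop, P = fun ω => ((∀ j ≤ G.m, G.InvB N p q j
      (itr (fun j s => stg (G.code N) p q j (digs b ω j) s) (0, 1, 1) j)) ∧ ∀ j < G.m,
        ¬ ∃ hj : j < G.m, ¬ G.GoodStg N p q
          (itr (fun j s => stg (G.code N) p q j (digs b ω j) s) (0, 1, 1) j).1 ⟨j, hj⟩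
          (digs b ω j)) := ⟨_, rfl⟩
  have hA3 : (((range (b ^ G.m)).filter fun ω => ¬ P ω).card : ℝ) ≤ 1 / 8 * (b : ℝ) ^ G.m := by
    refine le_trans ?_ hA2
    refine Nat.cast_le.2 (card_le_card fun ω hω => ?_)
    obtain ⟨h1, h2⟩ := (@mem_filter _ _ (_) _ _).1 hω
    refine (@mem_filter _ _ (_) _ _).2 ⟨h1, ?_⟩
    rw [hP] at h2
    exact h2
  have hsum := card_filter_add_card_filter_not (s := range (b ^ G.m)) P
  rw [card_range] at hsum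
  have hsumR : (((range (b ^ G.m)).filter P).card : ℝ) +
      (((range (b ^ G.m)).filter fun ω => ¬ P ω).card : ℝ) = (b : ℝ) ^ G.m := by
    exact_mod_cast hsum
  have hsub : ((range (b ^ G.m)).filter P).card ≤
      ((range (b ^ G.m)).filter fun ω => G.InvB N p q G.m (resB (G.code N) p q ω)).card := by
    refine card_le_card fun ω hω => ?_
    rw [mem_filter] at hω ⊢
    refine ⟨hω.1, ?_⟩
    have h1 := hω.2
    rw [hP] at h1
    have h2 := h1.1 G.m le_rfl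
    unfold resB
    rw [mm_code, ← hb]
    exact h2
  have hsubR : (((range (b ^ G.m)).filter P).card : ℝ) ≤
      (((range (b ^ G.m)).filter fun ω => G.InvB N p q G.m (resB (G.code N) p q ω)).card : ℝ) := by
    exact_mod_cast hsub
  have h2R : (2 : ℝ) ^ bitsB (G.code N) q = (b : ℝ) ^ G.m := by exact_mod_cast h2b
  rw [h2R, h2b]
  linarith

end MGraph

end Pool.Agent.Lib.H2
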