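import Pool.Agent.Lib.MP_3493b8_lc.O.Det

/-! For a good final state the output of the third algorithm is a good approximation. -/

set_option autoImplicit false

open Finset

namespace Pool.Agent.Lib.H2

open Pool.Agent.Lib.PTC

namespace MGraph

variable (G : MGraph) (N p q : ℕ)

/-- the number of sets with the boundary of the whole graph -/
theorem Zs_count_nul (l : ℝ) : G.Zs ∅ (G.wj l 0) (G.bd univ) = 2 ^ nul (G.code N) := by
  obtain ⟨h1, _, _, cl, h2⟩ := G.cluN_inv N G.n (LL (G.code N)) (Or.inr le_rfl)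
  obtain ⟨h3, _⟩ := G.cluN_diam N G.n (LL (G.code N)) G.n le_rfl G.diam_n
  have h4 := h2.clu G h1
  have h5 : G.eset (cluN (G.code N) G.n (LL (G.code N))).2 = ∅ := by
    rw [h3]
    unfold eset
    simp
  rw [h5] at h4
  have h6 := h4.comps
  have h7 := h4.count univ (disjoint_empty_right _)
  rw [Finset.card_empty, Nat.sub_zero] at h7
  have h8 := G.comps_le univ
  have h9 := G.rk_le_card univ
  rw [Finset.card_univ, Fintype.card_fin] at h9
  have h10 := G.nul_code N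
  unfold rk at h9 h10
  have h11 : G.m + G.roots (G.lay N (cluN (G.code N) G.n (LL (G.code N))).1) =
      nul (G.code N) + G.n := by
    rw [h10, ← h6]
    omega
  rw [← pow_add, h11, pow_add] at h7
  rw [Zs_wj_zero]
  have h12 := Nat.eq_of_mul_eq_mul_right (by positivity) h7
  rw [h12]
  push_cast
  rfl

private theorem detB_floor (A B : ℕ) (hB : 0 < B) :
    (A : ℝ) / B - 1 ≤ ((A / B : ℕ) : ℝ) ∧ ((A / B : ℕ) : ℝ) ≤ (A : ℝ) / B := by
  refine ⟨?_, Nat.cast_div_le⟩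
  have h1 : (A : ℝ) < ((A / B : ℕ) + 1 : ℝ) * B := by
    have := Nat.lt_div_mul_add (a := A) hB
    have h2 : A < (A / B + 1) * B := by
      rw [add_mul, one_mul]
      exact this
    exact_mod_cast h2
  have hB' : (0 : ℝ) < B := by exact_mod_cast hB
  have h3 : (A : ℝ) / B < ((A / B : ℕ) + 1 : ℝ) := by
    rw [div_lt_iff₀ hB']
    exact h1
  linarith

/-- the absolute value of the output -/
private theorem detB_abs (b K num den : ℕ) (hp : 0 < p) (hpq : p < q) (hb : 0 < b)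
    (hbq : 2 * b ≤ q) (hN : 1 ≤ N) (hK : K = 4 * q ^ 2) (hden : 0 < den)
    (h1 : Real.exp (-(G.m / (4 * G.m * N))) * (G.Zs ∅ (G.wj ((p : ℝ) / q) G.m) (G.bd univ) /
      G.Zs ∅ (G.wj ((p : ℝ) / q) 0) (G.bd univ)) ≤ (num : ℝ) / (den : ℝ))
    (h2 : (num : ℝ) / (den : ℝ) ≤
      Real.exp (G.m / (4 * G.m * N)) * (G.Zs ∅ (G.wj ((p : ℝ) / q) G.m) (G.bd univ) /
      G.Zs ∅ (G.wj ((p : ℝ) / q) 0) (G.bd univ))) :
    Real.exp (-(1 / (N : ℝ))) * ((K : ℝ) ^ S1 (G.code N) * (((q : ℝ) / (2 * b)) ^ nul (G.code N) *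
        G.Zs ∅ (fun _ => (p : ℝ) / q) (G.bd univ))) ≤
      ((K ^ S1 (G.code N) * q ^ nul (G.code N) * num / (b ^ nul (G.code N) * den) : ℕ) : ℝ) ∧
    ((K ^ S1 (G.code N) * q ^ nul (G.code N) * num / (b ^ nul (G.code N) * den) : ℕ) : ℝ) ≤
      Real.exp (1 / (N : ℝ)) * ((K : ℝ) ^ S1 (G.code N) * (((q : ℝ) / (2 * b)) ^ nul (G.code N) *
        G.Zs ∅ (fun _ => (p : ℝ) / q) (G.bd univ))) := by
  have hM := G.sum_exact_ge N p q b hp hpq hb hbq
  rw [← hK] at hM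
  rw [G.wj_last, G.Zs_count_nul N] at h1 h2
  obtain ⟨Z, hZ⟩ : ∃ Z, Z = G.Zs ∅ (fun _ => (p : ℝ) / q) (G.bd univ) := ⟨_, rfl⟩
  rw [← hZ] at h1 h2 hM ⊢
  obtain ⟨ν, hν⟩ : ∃ ν, ν = nul (G.code N) := ⟨_, rfl⟩
  rw [← hν] at h1 h2 hM ⊢
  have hbR : (0 : ℝ) < b := by exact_mod_cast hb
  have hqR : (0 : ℝ) < q := by exact_mod_cast (by omega : 0 < q)
  have hdR : (0 : ℝ) < den := by exact_mod_cast hden
  have hNR : (0 : ℝ) < N := by exact_mod_cast hN
  have hZ0 : 0 ≤ Z := by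
    rw [hZ]
    exact G.Zs_nonneg ∅ _ (fun _ => by positivity) _
  have hm : (G.m : ℝ) / (4 * G.m * N) ≤ 1 / (4 * N) := by
    rcases Nat.eq_zero_or_pos G.m with h | h
    · rw [h, Nat.cast_zero, zero_div]
      positivity
    · have hmR : (0 : ℝ) < G.m := by exact_mod_cast h
      refine le_of_eq ?_
      field_simp
  have hr0 : 0 ≤ Z / 2 ^ ν := by positivity
  have g1 : Real.exp (-(1 / (4 * (N : ℝ)))) * (Z / 2 ^ ν) ≤ (num : ℝ) / (den : ℝ) := by
    refine le_trans (mul_le_mul_of_nonneg_right (Real.exp_le_exp.2 ?_) hr0) h1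
    linarith
  have g2 : (num : ℝ) / (den : ℝ) ≤ Real.exp (1 / (4 * (N : ℝ))) * (Z / 2 ^ ν) :=
    h2.trans (mul_le_mul_of_nonneg_right (Real.exp_le_exp.2 hm) hr0)
  have hDpos : 0 < b ^ ν * den := by positivity
  obtain ⟨f1, f2⟩ := detB_floor (K ^ S1 (G.code N) * q ^ ν * num) _ hDpos
  obtain ⟨C, hC⟩ : ∃ C : ℝ, C = (K : ℝ) ^ S1 (G.code N) * ((q : ℝ) / b) ^ ν := ⟨_, rfl⟩
  have hC0 : 0 ≤ C := by
    rw [hC]
    positivity
  have hR : ((K ^ S1 (G.code N) * q ^ ν * num : ℕ) : ℝ) / ((b ^ ν * den : ℕ) : ℝ) =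
      C * ((num : ℝ) / den) := by
    rw [hC, div_pow]
    push_cast
    field_simp
  have hE : C * (Z / 2 ^ ν) =
      (K : ℝ) ^ S1 (G.code N) * (((q : ℝ) / (2 * b)) ^ ν * Z) := by
    rw [hC, div_pow, div_pow, mul_pow]
    field_simp
  rw [hR] at f1 f2
  refine num_floor N (S1 (G.code N)) hN 0 ?_ _ _ hM ?_ ?_
  · unfold S1
    rw [NN_code]
    omega
  · rw [← hE, pow_zero]
    have h3 := mul_le_mul_of_nonneg_left g1 hC0
    calc Real.exp (-(1 / (4 * (N : ℝ)))) * (C * (Z / 2 ^ ν)) - 1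
        = C * (Real.exp (-(1 / (4 * (N : ℝ)))) * (Z / 2 ^ ν)) - 1 := by ring
      _ ≤ C * ((num : ℝ) / den) - 1 := by linarith
      _ ≤ _ := f1
  · rw [← hE]
    have h3 := mul_le_mul_of_nonneg_left g2 hC0
    calc _ ≤ C * ((num : ℝ) / den) := f2
      _ ≤ C * (Real.exp (1 / (4 * (N : ℝ))) * (Z / 2 ^ ν)) := h3
      _ = _ := by ring

/-- For a good final state the output is a good approximation. -/
theorem detB (s b ω : ℕ) (hb : 0 < b) (hs : b < s) (hN : 1 ≤ N) (y : ℝ)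
    (hy : y = -((s : ℝ) / b))
    (hω : G.InvB N (s - b) (s + b) G.m (resB (G.code N) (s - b) (s + b) ω)) :
    Close (1 / N) ((outZB (G.code N) (s - b) (s + b) b (4 * (s + b) ^ 2) ω : ℝ) /
      ((4 * (s + b) ^ 2 : ℕ) : ℝ) ^ (G.n + G.m + N + 2)) (G.tutte (1 + 2 / (y - 1)) y) := by
  obtain ⟨p, hp⟩ : ∃ p, p = s - b := ⟨_, rfl⟩
  obtain ⟨q, hq⟩ : ∃ q, q = s + b := ⟨_, rfl⟩
  obtain ⟨K, hK⟩ : ∃ K, K = 4 * q ^ 2 := ⟨_, rfl⟩
  rw [← hp, ← hq] at hω
  rw [← hp, ← hq, ← hK]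
  have hp0 : 0 < p := by omega
  have hpq : p < q := by omega
  have hbq : 2 * b ≤ q := by omega
  have hbR : (0 : ℝ) < b := by exact_mod_cast hb
  have hqR : (0 : ℝ) < q := by exact_mod_cast (by omega : 0 < q)
  have hsb : (b : ℝ) < s := by exact_mod_cast hs
  have hpR : (p : ℝ) = s - b := by
    rw [hp, Nat.cast_sub hs.le]
  have hqR' : (q : ℝ) = s + b := by
    rw [hq, Nat.cast_add]
  have hy1 : y < -1 := by
    rw [hy]
    have : 1 < (s : ℝ) / b := by rwa [one_lt_div hbR]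
    linarith
  have e1 : (y - 1) / 2 = -((q : ℝ) / (2 * b)) := by
    rw [hy, hqR']
    field_simp
    ring
  have e2 : (y + 1) / (y - 1) = (p : ℝ) / q := by
    have h1 : y - 1 = -((q : ℝ) / b) := by
      rw [hy, hqR']
      field_simp
      ring
    have h2 : y + 1 = -((p : ℝ) / b) := by
      rw [hy, hpR]
      field_simp
      ring
    rw [h1, h2, neg_div_neg_eq, div_div_div_cancel_right₀ hbR.ne']
  have hT := G.tutte_eq y hy1
  rw [e1, e2, ← G.nul_code N] at hT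
  obtain ⟨-, -, -, hden, hω1, hω2⟩ := hω
  obtain ⟨h1, h2⟩ := G.detB_abs N p q b K _ _ hp0 hpq hb hbq hN hK hden hω1 hω2
  have hM := G.sum_exact_ge N p q b hp0 hpq hb hbq
  rw [← hK] at hM
  have hS : G.n + G.m + N + 2 = S1 (G.code N) := rfl
  have hKR : (0 : ℝ) < (K : ℝ) ^ S1 (G.code N) := by
    have : 0 < K := by
      rw [hK]
      have : 0 < q := by omega
      positivity
    have : (0 : ℝ) < K := by exact_mod_cast this
    positivity
  obtain ⟨E, hE⟩ : ∃ E : ℕ, E = K ^ S1 (G.code N) * q ^ nul (G.code N) *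
    (resB (G.code N) p q ω).2.1 / (b ^ nul (G.code N) * (resB (G.code N) p q ω).2.2) := ⟨_, rfl⟩
  have hO : (outZB (G.code N) p q b K ω : ℝ) = (-1) ^ nul (G.code N) * (E : ℝ) := by
    unfold outZB outB
    rw [← hE]
    rcases Nat.mod_two_eq_zero_or_one (nul (G.code N)) with h | h
    · rw [if_pos h, (Nat.even_iff.2 h).neg_one_pow, one_mul]
      push_cast
      rfl
    · have h' : ¬ nul (G.code N) % 2 = 0 := by omega
      rw [if_neg h', (Nat.odd_iff.2 h).neg_one_pow]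
      push_cast
      ring
  obtain ⟨Q, hQ⟩ : ∃ Q : ℝ, Q = ((q : ℝ) / (2 * b)) ^ nul (G.code N) *
        G.Zs ∅ (fun _ => (p : ℝ) / q) (G.bd univ) := ⟨_, rfl⟩
  rw [← hE, ← hQ] at h1 h2
  rw [← hQ] at hM
  have hM0 : 0 < (K : ℝ) ^ S1 (G.code N) * Q := lt_of_lt_of_le (by positivity) hM
  have hT' : G.tutte (1 + 2 / (y - 1)) y = (-1) ^ nul (G.code N) * Q := by
    rw [hT, hQ, neg_pow]
    ring
  have key : (outZB (G.code N) p q b K ω : ℝ) / (K : ℝ) ^ (G.n + G.m + N + 2) /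
      G.tutte (1 + 2 / (y - 1)) y = E / ((K : ℝ) ^ S1 (G.code N) * Q) := by
    rw [hO, hT', hS]
    have h3 : ((-1 : ℝ)) ^ nul (G.code N) ≠ 0 := pow_ne_zero _ (by norm_num)
    rw [div_div, ← mul_assoc, mul_comm ((K : ℝ) ^ S1 (G.code N)), mul_assoc,
      mul_div_mul_left _ _ h3]
  unfold Close
  rw [key]
  exact ⟨(le_div_iff₀ hM0).2 h1, (div_le_iff₀ hM0).2 h2⟩

end MGraph

end Pool.Agent.Lib.H2
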