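import Pool.Agent.Lib.MP_3493b8_lc.O.Det2
import Pool.Agent.Lib.MP_3493b8_lc.O.Bound
import Pool.Agent.Lib.PTC.Prob

/-! The main theorem (third algorithm) from the parts. -/

set_option autoImplicit false

open scoped ENNReal

open Finset

namespace Pool.Agent.Lib.H2

open Pool.Agent.Lib.PTC Pool.Agent.Lib.PRam

namespace MGraph

/-- The algorithm for `y = - s / b`. -/
theorem main_of_compB (s b : ℕ) (hb : 0 < b) (hs : b < s)
    (hc : Comp (szB (s + b)) fun x om => outB x (s - b) (s + b) b (4 * (s + b) ^ 2) om)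
    (hbits : Comp (szB (s + b)) fun x (_ : Unit) => bitsB x (s + b))
    (tbits : Tm (szB (s + b)) fun x (_ : Unit) => bitsB x (s + b)) (y : ℝ)
    (hy : y = -((s : ℝ) / b)) :
    ∃ (P : List Instr) (C : ℕ), ∀ (G : MGraph) (N : ℕ), 1 ≤ N →
      3 / 4 ≤ probThat P (G.code N) (fun z => Close (1 / N)
        ((z : ℝ) / ((4 * (s + b) ^ 2 : ℕ) : ℝ) ^ (G.n + G.m + N + 2))
        (G.tutte (1 + 2 / (y - 1)) y)) ∧
      TimeLe P (G.code N) (((G.n : ℝ) + G.m + N + 2) ^ C * (C : ℝ) ^ G.oddDeg) := by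
  classical
  have hq : 2 ≤ s + b := by omega
  obtain ⟨P, C0, hP⟩ := exists_prog hbits tbits hc
  obtain ⟨C, hC⟩ := szB_pow (s + b) C0 hq
  refine ⟨P, C, fun G N hN => ?_⟩
  obtain ⟨hv1, hv2⟩ := szB_valid G N (s + b) hN hq
  obtain ⟨hp, ht⟩ := hP (G.code N) hv1 hv2
  have mono : ∀ {B B' : ℝ}, B ≤ B' → TimeLe P (G.code N) B → TimeLe P (G.code N) B' := by
    intro B B' hBB h c
    obtain ⟨k, T, z, h1, h2⟩ := h c
    exact ⟨k, T, z, h1, h2.trans hBB⟩
  refine ⟨?_, mono (hC G N hN) ht⟩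
  rw [hp]
  have h1 := G.good_countB N (s - b) (s + b) (by omega) (by omega) hN
  have h2 : ((range (2 ^ bitsB (G.code N) (s + b))).filter fun ω => G.InvB N (s - b) (s + b) G.m (resB (G.code N) (s - b) (s + b) ω)) ⊆
      ((range (2 ^ bitsB (G.code N) (s + b))).filter fun ω => Close (1 / N)
        ((zout (outB (G.code N) (s - b) (s + b) b (4 * (s + b) ^ 2) ω) : ℝ) /
          ((4 * (s + b) ^ 2 : ℕ) : ℝ) ^ (G.n + G.m + N + 2)) (G.tutte (1 + 2 / (y - 1)) y)) := by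
    intro ω hω
    rw [mem_filter] at hω ⊢
    refine ⟨hω.1, ?_⟩
    have h3 := G.detB N s b ω hb hs hN y hy hω.2
    have h4 : outZB (G.code N) (s - b) (s + b) b (4 * (s + b) ^ 2) ω =
        zout (outB (G.code N) (s - b) (s + b) b (4 * (s + b) ^ 2) ω) := rfl
    rw [h4] at h3
    exact h3
  have h3 := Finset.card_le_card h2
  set M := ((range (2 ^ bitsB (G.code N) (s + b))).filter fun ω => Close (1 / N)
        ((zout (outB (G.code N) (s - b) (s + b) b (4 * (s + b) ^ 2) ω) : ℝ) /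
          ((4 * (s + b) ^ 2 : ℕ) : ℝ) ^ (G.n + G.m + N + 2)) (G.tutte (1 + 2 / (y - 1)) y)).card
    with hM
  have h4 : (7 : ℝ) * 2 ^ bitsB (G.code N) (s + b) ≤ 8 * (M : ℝ) := by
    refine h1.trans ?_
    have : (((range (2 ^ bitsB (G.code N) (s + b))).filter
      fun ω => G.InvB N (s - b) (s + b) G.m (resB (G.code N) (s - b) (s + b) ω)).card : ℝ) ≤ (M : ℝ) := by exact_mod_cast h3
    linarith
  have h5 : 3 * 2 ^ bitsB (G.code N) (s + b) ≤ 4 * M := by
    have : (3 : ℝ) * 2 ^ bitsB (G.code N) (s + b) ≤ 4 * (M : ℝ) := by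
      have : (0 : ℝ) < 2 ^ bitsB (G.code N) (s + b) := by positivity
      linarith
    exact_mod_cast this
  rw [ENNReal.le_div_iff_mul_le (Or.inl (by positivity)) (Or.inl (by finiteness))]
  have h6 : (3 : ℝ≥0∞) * 2 ^ bitsB (G.code N) (s + b) ≤ 4 * (M : ℝ≥0∞) := by exact_mod_cast h5
  calc (3 / 4 : ℝ≥0∞) * 2 ^ bitsB (G.code N) (s + b)
      = (3 * 2 ^ bitsB (G.code N) (s + b)) / 4 := by
        rw [div_eq_mul_inv, div_eq_mul_inv]; ring
    _ ≤ (4 * (M : ℝ≥0∞)) / 4 := by gcongr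
    _ = (M : ℝ≥0∞) := by
        rw [mul_comm, mul_div_assoc, ENNReal.div_self (by norm_num) (by finiteness), mul_one]

end MGraph

end Pool.Agent.Lib.H2
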