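import Pool.Agent.Lib.MP_3493b8_lc.Bd

/-! The second Griffiths inequality for the sums over edge sets with given boundary. -/

set_option autoImplicit false

open Finset

namespace Pool.Agent.Lib.H2

namespace MGraph

variable (G : MGraph)

/-- the sign of a colouring on a boundary vector -/
def sg (σ : Fin G.n → Bool) (y : Fin G.n → ZMod 2) : ℝ :=
  ∏ v, if y v ≠ 0 ∧ σ v = true then -1 else 1

private theorem gks_fac (c : Bool) (z w : ZMod 2) :
    (if z + w ≠ 0 ∧ c = true then (-1 : ℝ) else 1) =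
      (if z ≠ 0 ∧ c = true then (-1 : ℝ) else 1) * (if w ≠ 0 ∧ c = true then (-1 : ℝ) else 1) := by
  have h : ∀ z : ZMod 2, z = 0 ∨ z = 1 := by decide
  have h10 : (1 : ZMod 2) ≠ 0 := by decide
  have h11 : (1 : ZMod 2) + 1 = 0 := by decide
  rcases h z with rfl | rfl <;> rcases h w with rfl | rfl <;> cases c <;> simp [h10, h11]

private theorem gks_fac2 (z : ZMod 2) (c d : Bool) :
    (if z ≠ 0 ∧ xor c d = true then (-1 : ℝ) else 1) =
      (if z ≠ 0 ∧ c = true then (-1 : ℝ) else 1) * (if z ≠ 0 ∧ d = true then (-1 : ℝ) else 1) := by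
  by_cases h : z = 0
  · simp [h]
  · cases c <;> cases d <;> simp [h]

theorem sg_add (σ : Fin G.n → Bool) (a b : Fin G.n → ZMod 2) :
    G.sg σ (a + b) = G.sg σ a * G.sg σ b := by
  unfold sg
  rw [← Finset.prod_mul_distrib]
  refine Finset.prod_congr rfl fun v _ => ?_
  rw [Pi.add_apply]
  exact gks_fac (σ v) (a v) (b v)

private theorem gks_zero (σ : Fin G.n → Bool) : G.sg σ 0 = 1 := by
  unfold sg
  refine Finset.prod_eq_one fun v _ => ?_
  rw [Pi.zero_apply, if_neg]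
  exact fun h => h.1 rfl

private theorem gks_sq (σ : Fin G.n → Bool) (a : Fin G.n → ZMod 2) : G.sg σ a * G.sg σ a = 1 := by
  rw [← sg_add, zmod_add_self, gks_zero]

private theorem gks_pm (σ : Fin G.n → Bool) (a : Fin G.n → ZMod 2) :
    G.sg σ a = 1 ∨ G.sg σ a = -1 :=
  mul_self_eq_one_iff.1 (G.gks_sq σ a)

private theorem gks_xor (σ τ : Fin G.n → Bool) (a : Fin G.n → ZMod 2) :
    G.sg (fun v => xor (σ v) (τ v)) a = G.sg σ a * G.sg τ a := by
  unfold sg
  rw [← Finset.prod_mul_distrib]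
  exact Finset.prod_congr rfl fun v _ => gks_fac2 (a v) (σ v) (τ v)

private theorem gks_bd (σ : Fin G.n → Bool) (A : Finset (Fin G.m)) :
    ∏ i ∈ A, G.sg σ (G.bd {i}) = G.sg σ (G.bd A) := by
  classical
  induction A using Finset.induction_on with
  | empty => rw [Finset.prod_empty, bd_empty, gks_zero]
  | insert i A hi ih =>
    have h1 : G.bd (insert i A) = G.bd {i} + G.bd A := by
      unfold bd
      rw [Finset.sum_insert hi, Finset.sum_singleton]
    rw [Finset.prod_insert hi, ih, h1, sg_add]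

private theorem gks_sum (y : Fin G.n → ZMod 2) :
    ∑ σ : Fin G.n → Bool, G.sg σ y = if y = 0 then 2 ^ G.n else 0 := by
  classical
  have h1 : ∑ σ : Fin G.n → Bool, G.sg σ y =
      ∏ v, ∑ b : Bool, (if y v ≠ 0 ∧ b = true then (-1 : ℝ) else 1) := by
    unfold sg
    rw [Finset.prod_univ_sum, Fintype.piFinset_univ]
  have h2 : ∀ v, ∑ b : Bool, (if y v ≠ 0 ∧ b = true then (-1 : ℝ) else 1) =
      if y v = 0 then 2 else 0 := by
    intro v
    rw [Fintype.sum_bool]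
    by_cases h : y v = 0
    · simp [h]
      norm_num
    · simp [h]
  rw [h1, Finset.prod_congr rfl fun v _ => h2 v]
  by_cases hy : y = 0
  · rw [if_pos hy, Finset.prod_congr rfl fun v _ => if_pos (by rw [hy, Pi.zero_apply]),
      Finset.prod_const, Finset.card_univ, Fintype.card_fin]
  · rw [if_neg hy]
    obtain ⟨v, hv⟩ : ∃ v, y v ≠ 0 := by
      by_contra h
      push Not at h
      exact hy (funext h)
    exact Finset.prod_eq_zero (Finset.mem_univ v) (if_neg hv)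

private theorem gks_nonneg (y : Fin G.n → ZMod 2) : 0 ≤ ∑ σ : Fin G.n → Bool, G.sg σ y := by
  rw [gks_sum]
  split_ifs
  · positivity
  · exact le_rfl

/-- spin representation -/
theorem spin_rep (w : Fin G.m → ℝ) (y : Fin G.n → ZMod 2) :
    ∑ σ : Fin G.n → Bool, G.sg σ y * ∏ i, (1 + w i * G.sg σ (G.bd {i})) =
      2 ^ G.n * G.Zs ∅ w y := by
  classical
  have h1 : ∀ σ : Fin G.n → Bool, G.sg σ y * ∏ i, (1 + w i * G.sg σ (G.bd {i})) =
      ∑ A : Finset (Fin G.m), (∏ i ∈ A, w i) * G.sg σ (y + G.bd A) := by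
    intro σ
    rw [Finset.prod_one_add, Finset.powerset_univ, Finset.mul_sum]
    refine Finset.sum_congr rfl fun A _ => ?_
    rw [Finset.prod_mul_distrib, gks_bd, sg_add]
    ring
  rw [Finset.sum_congr rfl fun σ _ => h1 σ, Finset.sum_comm]
  unfold Zs
  rw [Finset.mul_sum]
  refine Finset.sum_congr rfl fun A _ => ?_
  rw [← Finset.mul_sum, gks_sum]
  have h2 : y + G.bd A = 0 ↔ (Disjoint A ∅ ∧ G.bd A = y) := by
    constructor
    · intro h
      refine ⟨Finset.disjoint_empty_right A, ?_⟩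
      exact (add_left_cancel (h.trans (G.zmod_add_self y).symm))
    · rintro ⟨-, h⟩
      rw [h]
      exact G.zmod_add_self y
  by_cases h3 : y + G.bd A = 0
  · rw [if_pos h3, if_pos (h2.1 h3), mul_comm]
  · rw [if_neg h3, if_neg fun h => h3 (h2.2 h), mul_zero, mul_zero]

/-- the first Griffiths inequality -/
private theorem gks_first (c d : Fin G.m → ℝ) (hc : ∀ i, 0 ≤ c i) (hd : ∀ i, 0 ≤ d i)
    (y : Fin G.n → ZMod 2) :
    0 ≤ ∑ σ : Fin G.n → Bool, G.sg σ y * ∏ i, (c i + d i * G.sg σ (G.bd {i})) := by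
  classical
  have h1 : ∀ σ : Fin G.n → Bool, G.sg σ y * ∏ i, (c i + d i * G.sg σ (G.bd {i})) =
      ∑ A : Finset (Fin G.m), ((∏ i ∈ A, c i) * ∏ i ∈ univ \ A, d i) *
        G.sg σ (y + G.bd (univ \ A)) := by
    intro σ
    rw [Finset.prod_add, Finset.powerset_univ, Finset.mul_sum]
    refine Finset.sum_congr rfl fun A _ => ?_
    rw [Finset.prod_mul_distrib, gks_bd, sg_add]
    ring
  rw [Finset.sum_congr rfl fun σ _ => h1 σ, Finset.sum_comm]
  refine Finset.sum_nonneg fun A _ => ?_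
  rw [← Finset.mul_sum]
  exact mul_nonneg (mul_nonneg (Finset.prod_nonneg fun i _ => hc i)
    (Finset.prod_nonneg fun i _ => hd i)) (G.gks_nonneg _)

/-- the second Griffiths inequality -/
theorem gks (w : Fin G.m → ℝ) (hw : ∀ i, 0 ≤ w i ∧ w i ≤ 1) (a b : Fin G.n → ZMod 2) :
    G.Zs ∅ w a * G.Zs ∅ w b ≤ G.Zs ∅ w 0 * G.Zs ∅ w (a + b) := by
  have hsub : ∀ (σ : Fin G.n → Bool) (h : (Fin G.n → Bool) → ℝ),
      ∑ τ : Fin G.n → Bool, h (fun v => xor (σ v) (τ v)) = ∑ σ', h σ' := by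
    intro σ h
    refine Fintype.sum_bijective (fun τ v => xor (σ v) (τ v)) ?_ _ _ fun τ => rfl
    refine Function.Involutive.bijective fun τ => ?_
    funext v
    change xor (σ v) (xor (σ v) (τ v)) = τ v
    cases σ v <;> cases τ v <;> rfl
  obtain ⟨W, hW⟩ : ∃ W : (Fin G.n → Bool) → ℝ,
    W = fun σ => ∏ i, (1 + w i * G.sg σ (G.bd {i})) := ⟨_, rfl⟩
  have hrep : ∀ y, 2 ^ G.n * G.Zs ∅ w y = ∑ σ, G.sg σ y * W σ := by
    intro y
    rw [hW]
    exact (G.spin_rep w y).symm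
  have hWW : ∀ σ τ : Fin G.n → Bool, W σ * W (fun v => xor (σ v) (τ v)) =
      ∏ i, ((1 + w i ^ 2 * G.sg τ (G.bd {i})) +
        (w i * (1 + G.sg τ (G.bd {i}))) * G.sg σ (G.bd {i})) := by
    intro σ τ
    rw [hW]
    change (∏ i, (1 + w i * G.sg σ (G.bd {i}))) *
      (∏ i, (1 + w i * G.sg (fun v => xor (σ v) (τ v)) (G.bd {i}))) = _
    rw [← Finset.prod_mul_distrib]
    refine Finset.prod_congr rfl fun i _ => ?_
    rw [gks_xor]
    have h := G.gks_sq σ (G.bd {i})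
    linear_combination (w i ^ 2 * G.sg τ (G.bd {i})) * h
  have key : (2 ^ G.n * G.Zs ∅ w 0) * (2 ^ G.n * G.Zs ∅ w (a + b)) -
      (2 ^ G.n * G.Zs ∅ w a) * (2 ^ G.n * G.Zs ∅ w b) =
      ∑ τ : Fin G.n → Bool, (1 - G.sg τ b) * ∑ σ : Fin G.n → Bool, G.sg σ (a + b) *
        ∏ i, ((1 + w i ^ 2 * G.sg τ (G.bd {i})) +
        (w i * (1 + G.sg τ (G.bd {i}))) * G.sg σ (G.bd {i})) := by
    rw [hrep, hrep, hrep, hrep, mul_comm (∑ σ, G.sg σ 0 * W σ), Finset.sum_mul_sum,
      Finset.sum_mul_sum, ← Finset.sum_sub_distrib]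
    have h1 : ∀ σ : Fin G.n → Bool, ∑ σ', G.sg σ (a + b) * W σ * (G.sg σ' 0 * W σ') -
        ∑ σ', G.sg σ a * W σ * (G.sg σ' b * W σ') =
        ∑ τ : Fin G.n → Bool, (1 - G.sg τ b) * (G.sg σ (a + b) *
          (W σ * W (fun v => xor (σ v) (τ v)))) := by
      intro σ
      rw [← Finset.sum_sub_distrib, ← hsub σ]
      refine Finset.sum_congr rfl fun τ _ => ?_
      rw [gks_zero, gks_xor, sg_add]
      ring
    rw [Finset.sum_congr rfl fun σ _ => h1 σ, Finset.sum_comm]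
    refine Finset.sum_congr rfl fun τ _ => ?_
    rw [← Finset.mul_sum]
    congr 1
    refine Finset.sum_congr rfl fun σ _ => ?_
    rw [hWW]
  have h2 : 0 ≤ (2 ^ G.n * G.Zs ∅ w 0) * (2 ^ G.n * G.Zs ∅ w (a + b)) -
      (2 ^ G.n * G.Zs ∅ w a) * (2 ^ G.n * G.Zs ∅ w b) := by
    rw [key]
    refine Finset.sum_nonneg fun τ _ => mul_nonneg ?_ ?_
    · rcases G.gks_pm τ b with h | h <;> rw [h] <;> norm_num
    · refine G.gks_first _ _ (fun i => ?_) (fun i => ?_) _
      · obtain ⟨h3, h4⟩ := hw i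
        rcases G.gks_pm τ (G.bd {i}) with h | h
        · rw [h]
          positivity
        · rw [h]
          nlinarith
      · obtain ⟨h3, h4⟩ := hw i
        rcases G.gks_pm τ (G.bd {i}) with h | h
        · rw [h]
          positivity
        · rw [h, add_neg_cancel, mul_zero]
  have h3 : (2 ^ G.n * G.Zs ∅ w 0) * (2 ^ G.n * G.Zs ∅ w (a + b)) -
      (2 ^ G.n * G.Zs ∅ w a) * (2 ^ G.n * G.Zs ∅ w b) =
      ((2 : ℝ) ^ G.n * 2 ^ G.n) * (G.Zs ∅ w 0 * G.Zs ∅ w (a + b) - G.Zs ∅ w a * G.Zs ∅ w b) := by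
    ring
  rw [h3] at h2
  have h4 : (0 : ℝ) < 2 ^ G.n * 2 ^ G.n := by positivity
  have h5 := (mul_nonneg_iff_of_pos_left h4).1 h2
  linarith

end MGraph

end Pool.Agent.Lib.H2
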