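import Pool.Agent.Lib.MP_3493b8_lc.O.Fam
import Pool.Agent.Lib.MP_3493b8_lc.Contr

/-! The chain with class weights. -/

set_option autoImplicit false

open Finset

namespace Pool.Agent.Lib.H2

namespace MGraph

variable (G : MGraph)

/-- One step of the chain: the digit `d` proposes the edge `d % K`; the move from `A` to `B` is
accepted if `(d / K) * 2 ^ (a A - a B) < c * 2 ^ h` with `c = p` (adding an edge of weight `p / q`)
or `c = q`. -/
def stepT (T : Finset (Fin G.n)) (a : (Fin G.n → ZMod 2) → ℕ) (p q h j K d : ℕ)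
    (A : Finset (Fin G.m)) : Finset (Fin G.m) :=
  if hd : d % K < G.m then
    if (G.supp (G.bd (symmDiff A {(⟨d % K, hd⟩ : Fin G.m)})) \ T).card ≤ 2 ∧
        d / K * 2 ^ (a (G.bd A) - a (G.bd (symmDiff A {(⟨d % K, hd⟩ : Fin G.m)}))) <
          (if (⟨d % K, hd⟩ : Fin G.m) ∉ A ∧ d % K < j then p else q) * 2 ^ h then
      symmDiff A {(⟨d % K, hd⟩ : Fin G.m)}
    else A
  else A

section aux

/-- Sums over digits. -/
private theorem stT_sum_mul (h : ℕ → ℝ) (K K' : ℕ) :
    ∑ d ∈ range (K * K'), h d = ∑ c ∈ range K', ∑ r ∈ range K, h (K * c + r) := by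
  induction K' with
  | zero => simp
  | succ c ih =>
    rw [Nat.mul_succ, Finset.sum_range_add, ih, Finset.sum_range_succ]

/-- Sums over the edges. -/
private theorem stT_sum_fin {m K : ℕ} (hK : m ≤ K) (a : Fin m → ℝ) :
    ∑ r ∈ range K, (if h : r < m then a ⟨r, h⟩ else 0) = ∑ e : Fin m, a e := by
  have h1 : ∑ r ∈ range K, (if h : r < m then a ⟨r, h⟩ else 0) =
      ∑ r ∈ range m, (if h : r < m then a ⟨r, h⟩ else 0) := by
    symm
    refine Finset.sum_subset (fun x hx => ?_) fun x _ hx => ?_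
    · rw [Finset.mem_range] at hx ⊢
      omega
    · rw [Finset.mem_range] at hx
      rw [dif_neg hx]
  rw [h1, ← Fin.sum_univ_eq_sum_range (fun r => if h : r < m then a ⟨r, h⟩ else 0) m]
  refine Finset.sum_congr rfl fun e _ => ?_
  rw [dif_pos e.isLt]

/-- Counting accepted digits. -/
private theorem stT_thr (s : Finset ℕ) (P : ℕ → Prop) [DecidablePred P] (x y : ℝ) :
    ∑ c ∈ s, (if P c then x else y) = s.card * y + (s.filter P).card * (x - y) := by
  have h1 : ∀ c ∈ s, (if P c then x else y) = y + (if P c then (x - y) else 0) := by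
    intro c _
    split_ifs <;> ring
  rw [Finset.sum_congr rfl h1, Finset.sum_add_distrib, Finset.sum_const, ← Finset.sum_filter,
    Finset.sum_const, nsmul_eq_mul, nsmul_eq_mul]

/-- The number of accepted digits. -/
private theorem stT_card {c K' h δ : ℕ} (hc : c ≤ K') (hδ : δ ≤ h) :
    ((range (K' * 2 ^ h)).filter fun t => t * 2 ^ δ < c * 2 ^ h).card = c * 2 ^ (h - δ) := by
  have h1 : 2 ^ h = 2 ^ (h - δ) * 2 ^ δ := by
    rw [← pow_add, Nat.sub_add_cancel hδ]
  have h2 : ∀ t, t * 2 ^ δ < c * 2 ^ h ↔ t < c * 2 ^ (h - δ) := by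
    intro t
    rw [h1, ← mul_assoc]
    exact Nat.mul_lt_mul_right (by positivity)
  have h3 : c * 2 ^ (h - δ) ≤ K' * 2 ^ h :=
    Nat.mul_le_mul hc (Nat.pow_le_pow_right (by norm_num) (Nat.sub_le _ _))
  have h4 : ((range (K' * 2 ^ h)).filter fun t => t * 2 ^ δ < c * 2 ^ h) =
      range (c * 2 ^ (h - δ)) := by
    ext t
    rw [Finset.mem_filter, Finset.mem_range, Finset.mem_range, h2]
    omega
  rw [h4, Finset.card_range]

end aux

section step

variable (T : Finset (Fin G.n)) (a : (Fin G.n → ZMod 2) → ℕ) (p q h j K K' : ℕ)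

/-- The number of digits which change the edge `e`. -/
private noncomputable def stTC (A : Finset (Fin G.m)) (e : Fin G.m) : ℝ :=
  if (G.supp (G.bd (symmDiff A {e})) \ T).card ≤ 2 then
    (((range (K' * 2 ^ h)).filter fun t => t * 2 ^ (a (G.bd A) - a (G.bd (symmDiff A {e}))) <
      (if e ∉ A ∧ (e : ℕ) < j then p else q) * 2 ^ h).card : ℝ) else 0

/-- The symmetric weight of a move. -/
private noncomputable def stTM (A B : Finset (Fin G.m)) : ℝ :=
  if (G.supp (G.bd A) \ T).card ≤ 2 ∧ (G.supp (G.bd B) \ T).card ≤ 2 then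
    min (∏ i ∈ A, G.wj ((p : ℝ) / q) j i) (∏ i ∈ B, G.wj ((p : ℝ) / q) j i) *
      2 ^ min (a (G.bd A)) (a (G.bd B)) else 0

private theorem stT_M_pos {A B : Finset (Fin G.m)} (hA : (G.supp (G.bd A) \ T).card ≤ 2)
    (hB : (G.supp (G.bd B) \ T).card ≤ 2) : stTM G T a p q j A B =
      min (∏ i ∈ A, G.wj ((p : ℝ) / q) j i) (∏ i ∈ B, G.wj ((p : ℝ) / q) j i) *
        2 ^ min (a (G.bd A)) (a (G.bd B)) := if_pos ⟨hA, hB⟩

private theorem stT_M_negl {A B : Finset (Fin G.m)} (hA : ¬ (G.supp (G.bd A) \ T).card ≤ 2) :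
    stTM G T a p q j A B = 0 := if_neg fun h => hA h.1

private theorem stT_M_negr {A B : Finset (Fin G.m)} (hB : ¬ (G.supp (G.bd B) \ T).card ≤ 2) :
    stTM G T a p q j A B = 0 := if_neg fun h => hB h.2

private theorem stT_M_comm (A B : Finset (Fin G.m)) :
    stTM G T a p q j A B = stTM G T a p q j B A := by
  by_cases hA : (G.supp (G.bd A) \ T).card ≤ 2
  swap
  · rw [stT_M_negl G T a p q j hA, stT_M_negr G T a p q j hA]
  by_cases hB : (G.supp (G.bd B) \ T).card ≤ 2
  swap
  · rw [stT_M_negl G T a p q j hB, stT_M_negr G T a p q j hB]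
  rw [stT_M_pos G T a p q j hA hB, stT_M_pos G T a p q j hB hA, min_comm,
    min_comm (a (G.bd A))]

/-- One step of the chain. -/
private theorem stT_avg (hK : G.m ≤ K) (hK0 : 0 < K) (hK' : 0 < K')
    (f : Finset (Fin G.m) → ℝ) (A : Finset (Fin G.m)) :
    ((K : ℝ) * (K' * 2 ^ h)) *
        avgOp (fun (d : Fin (K * (K' * 2 ^ h))) A => G.stepT T a p q h j K d A) f A =
      ((K : ℝ) * (K' * 2 ^ h)) * f A +
        ∑ e, stTC G T a p q h j K' A e * (f (symmDiff A {e}) - f A) := by
  have hN : ((K : ℝ) * (K' * 2 ^ h)) ≠ 0 := by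
    have h1 : (0 : ℝ) < K := by exact_mod_cast hK0
    have h2 : (0 : ℝ) < K' := by exact_mod_cast hK'
    positivity
  have hcast : ((K * (K' * 2 ^ h) : ℕ) : ℝ) = (K : ℝ) * (K' * 2 ^ h) := by push_cast; ring
  have hcast' : ((K' * 2 ^ h : ℕ) : ℝ) = (K' : ℝ) * 2 ^ h := by push_cast; ring
  unfold avgOp
  rw [Fintype.card_fin, hcast, mul_div_cancel₀ _ hN]
  rw [Fin.sum_univ_eq_sum_range (fun d => f (G.stepT T a p q h j K d A)) (K * (K' * 2 ^ h)),
    stT_sum_mul, Finset.sum_comm]
  have h1 : ∀ r ∈ range K, ∑ c ∈ range (K' * 2 ^ h), f (G.stepT T a p q h j K (K * c + r) A) =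
      (K' * 2 ^ h) * f A + (if hr : r < G.m then
        stTC G T a p q h j K' A ⟨r, hr⟩ * (f (symmDiff A {(⟨r, hr⟩ : Fin G.m)}) - f A) else 0) := by
    intro r hr
    rw [Finset.mem_range] at hr
    have e1 : ∀ c, (K * c + r) % K = r := fun c => by
      rw [Nat.mul_add_mod, Nat.mod_eq_of_lt hr]
    have e2 : ∀ c, (K * c + r) / K = c := fun c => by
      rw [Nat.mul_add_div hK0, Nat.div_eq_of_lt hr, add_zero]
    by_cases hm : r < G.m
    · rw [dif_pos hm]
      by_cases hc : (G.supp (G.bd (symmDiff A {(⟨r, hm⟩ : Fin G.m)})) \ T).card ≤ 2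
      · obtain ⟨t, ht⟩ : ∃ t, t = (if (⟨r, hm⟩ : Fin G.m) ∉ A ∧ r < j then p else q) := ⟨_, rfl⟩
        obtain ⟨δ, hδ⟩ : ∃ δ, δ = a (G.bd A) - a (G.bd (symmDiff A {(⟨r, hm⟩ : Fin G.m)})) :=
          ⟨_, rfl⟩
        have h2 : ∀ c ∈ range (K' * 2 ^ h), f (G.stepT T a p q h j K (K * c + r) A) =
            if c * 2 ^ δ < t * 2 ^ h then f (symmDiff A {(⟨r, hm⟩ : Fin G.m)}) else f A := by
          intro c _
          unfold stepT
          simp only [e1, e2]
          rw [dif_pos hm, ← ht, ← hδ]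
          by_cases hct : c * 2 ^ δ < t * 2 ^ h
          · rw [if_pos ⟨hc, hct⟩, if_pos hct]
          · rw [if_neg (fun h => hct h.2), if_neg hct]
        rw [Finset.sum_congr rfl h2, stT_thr, Finset.card_range, hcast']
        have h3 : stTC G T a p q h j K' A ⟨r, hm⟩ =
            (((range (K' * 2 ^ h)).filter fun c => c * 2 ^ δ < t * 2 ^ h).card : ℝ) := by
          unfold stTC
          rw [if_pos hc, ht, hδ]
        rw [h3]
      · have h2 : ∀ c ∈ range (K' * 2 ^ h), f (G.stepT T a p q h j K (K * c + r) A) = f A := by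
          intro c _
          unfold stepT
          simp only [e1, e2]
          rw [dif_pos hm, if_neg (fun h => hc h.1)]
        have h3 : stTC G T a p q h j K' A ⟨r, hm⟩ = 0 := by
          unfold stTC
          rw [if_neg hc]
        rw [Finset.sum_congr rfl h2, h3, zero_mul, add_zero, Finset.sum_const, Finset.card_range,
          nsmul_eq_mul, hcast']
    · have h2 : ∀ c ∈ range (K' * 2 ^ h), f (G.stepT T a p q h j K (K * c + r) A) = f A := by
        intro c _
        unfold stepT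
        rw [dif_neg]
        rw [e1]
        exact hm
      rw [dif_neg hm, Finset.sum_congr rfl h2, add_zero, Finset.sum_const, Finset.card_range,
        nsmul_eq_mul, hcast']
  rw [Finset.sum_congr rfl h1, Finset.sum_add_distrib, stT_sum_fin hK
    (fun e => stTC G T a p q h j K' A e * (f (symmDiff A {e}) - f A)), Finset.sum_const,
    Finset.card_range, nsmul_eq_mul]
  ring

private theorem stT_invol (A : Finset (Fin G.m)) (e : Fin G.m) :
    symmDiff (symmDiff A {e}) {e} = A := symmDiff_symmDiff_cancel_right _ _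

private theorem stT_nu (A : Finset (Fin G.m)) : G.nuT T a p q j A =
    if (G.supp (G.bd A) \ T).card ≤ 2 then
      (∏ i ∈ A, G.wj ((p : ℝ) / q) j i) * 2 ^ a (G.bd A) else 0 := by
  unfold nuT Sys.nu sysT Sys.wt famY
  simp only [Finset.mem_filter, Finset.mem_univ, true_and, add_zero, Finset.subset_univ]

private theorem stT_w (hp : 0 < p) (hpq : p < q) (i : Fin G.m) :
    0 < G.wj ((p : ℝ) / q) j i ∧ G.wj ((p : ℝ) / q) j i ≤ 1 ∧ 1 ≤ q * G.wj ((p : ℝ) / q) j i := by
  have hp' : (0 : ℝ) < p := by exact_mod_cast hp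
  have hp1 : (1 : ℝ) ≤ p := by exact_mod_cast hp
  have hq' : (0 : ℝ) < q := by exact_mod_cast (by omega : 0 < q)
  have hpq' : (p : ℝ) ≤ q := by exact_mod_cast hpq.le
  unfold wj
  split_ifs
  · refine ⟨div_pos hp' hq', (div_le_one hq').2 hpq', ?_⟩
    rw [mul_div_cancel₀ _ hq'.ne']
    exact hp1
  · exact ⟨one_pos, le_rfl, by linarith⟩

private theorem stT_prod_nn (hp : 0 < p) (hpq : p < q) (C : Finset (Fin G.m)) :
    0 ≤ ∏ i ∈ C, G.wj ((p : ℝ) / q) j i :=
  Finset.prod_nonneg fun i _ => (G.stT_w p q j hp hpq i).1.le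

/-- Removing an edge. -/
private theorem stT_erase {A : Finset (Fin G.m)} {e : Fin G.m} (hm : e ∈ A) :
    symmDiff A {e} = A.erase e := by
  ext x
  rw [Finset.mem_symmDiff, Finset.mem_singleton, Finset.mem_erase]
  constructor
  · rintro (h | h)
    · exact ⟨h.2, h.1⟩
    · exact absurd (h.1 ▸ hm) h.2
  · intro h
    exact Or.inl ⟨h.2, h.1⟩

/-- Adding an edge. -/
private theorem stT_insert {A : Finset (Fin G.m)} {e : Fin G.m} (hm : e ∉ A) :
    symmDiff A {e} = insert e A := by
  ext x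
  rw [Finset.mem_symmDiff, Finset.mem_singleton, Finset.mem_insert]
  constructor
  · rintro (h | h)
    · exact Or.inr h.1
    · exact Or.inl h.1
  · rintro (h | h)
    · right
      rw [h]
      exact ⟨rfl, hm⟩
    · refine Or.inl ⟨h, fun h' => ?_⟩
      rw [h'] at h
      exact hm h

/-- The weights of two neighbours. -/
private theorem stT_ratio (hp : 0 < p) (hpq : p < q) (A : Finset (Fin G.m)) (e : Fin G.m) :
    (∏ i ∈ A, G.wj ((p : ℝ) / q) j i) ≤ q * ∏ i ∈ symmDiff A {e}, G.wj ((p : ℝ) / q) j i := by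
  have hq1 : (1 : ℝ) ≤ q := by exact_mod_cast (by omega : 1 ≤ q)
  obtain ⟨hw0, hw1, hw2⟩ := G.stT_w p q j hp hpq e
  by_cases hm : e ∈ A
  · rw [stT_erase G hm, ← Finset.mul_prod_erase A _ hm]
    have h1 := G.stT_prod_nn p q j hp hpq (A.erase e)
    have h2 : G.wj ((p : ℝ) / q) j e ≤ q := hw1.trans hq1
    exact mul_le_mul_of_nonneg_right h2 h1
  · rw [stT_insert G hm, Finset.prod_insert hm, ← mul_assoc]
    have h1 := G.stT_prod_nn p q j hp hpq A
    exact le_mul_of_one_le_left h1 hw2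

/-- Detailed balance. -/
private theorem stT_bal (hp : 0 < p) (hpq : p < q) (hK' : 2 * q ≤ K')
    (ha : ∀ A (e : Fin G.m), G.bd A ∈ G.famY T → G.bd (symmDiff A {e}) ∈ G.famY T →
      a (G.bd A) ≤ a (G.bd (symmDiff A {e})) + h) (A : Finset (Fin G.m)) (e : Fin G.m) :
    G.nuT T a p q j A * stTC G T a p q h j K' A e =
      q * 2 ^ h * stTM G T a p q j A (symmDiff A {e}) := by
  have hq' : (0 : ℝ) < q := by exact_mod_cast (by omega : 0 < q)
  rw [stT_nu]
  by_cases hA : (G.supp (G.bd A) \ T).card ≤ 2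
  swap
  · rw [if_neg hA, zero_mul, stT_M_negl G T a p q j hA, mul_zero]
  by_cases hB : (G.supp (G.bd (symmDiff A {e})) \ T).card ≤ 2
  swap
  · have h0 : stTC G T a p q h j K' A e = 0 := if_neg hB
    rw [h0, mul_zero, stT_M_negr G T a p q j hB, mul_zero]
  have h0 : stTC G T a p q h j K' A e = (((range (K' * 2 ^ h)).filter fun t =>
      t * 2 ^ (a (G.bd A) - a (G.bd (symmDiff A {e}))) <
      (if e ∉ A ∧ (e : ℕ) < j then p else q) * 2 ^ h).card : ℝ) := if_pos hB
  rw [if_pos hA, h0, stT_M_pos G T a p q j hA hB]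
  have hmem : ∀ y : Fin G.n → ZMod 2, (G.supp y \ T).card ≤ 2 → y ∈ G.famY T := by
    intro y hy
    unfold famY
    exact Finset.mem_filter.2 ⟨Finset.mem_univ _, hy⟩
  have hd := ha A e (hmem _ hA) (hmem _ hB)
  have hcK : (if e ∉ A ∧ (e : ℕ) < j then p else q) ≤ K' := by
    split_ifs <;> omega
  rw [stT_card hcK (by omega)]
  -- the class weights
  have hpow : (2 : ℝ) ^ a (G.bd A) * 2 ^ (h - (a (G.bd A) - a (G.bd (symmDiff A {e})))) =
      2 ^ h * 2 ^ min (a (G.bd A)) (a (G.bd (symmDiff A {e}))) := by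
    rw [← pow_add, ← pow_add]
    congr 1
    rcases le_total (a (G.bd A)) (a (G.bd (symmDiff A {e}))) with h1 | h1
    · rw [min_eq_left h1]
      omega
    · rw [min_eq_right h1]
      omega
  -- the edge weights
  have hw : (∏ i ∈ A, G.wj ((p : ℝ) / q) j i) *
      ((if e ∉ A ∧ (e : ℕ) < j then p else q : ℕ) : ℝ) =
      q * min (∏ i ∈ A, G.wj ((p : ℝ) / q) j i)
        (∏ i ∈ symmDiff A {e}, G.wj ((p : ℝ) / q) j i) := by
    obtain ⟨hw0, hw1, -⟩ := G.stT_w p q j hp hpq e
    have hnn := G.stT_prod_nn p q j hp hpq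
    by_cases hm : e ∈ A
    · rw [if_neg (fun h => h.1 hm), stT_erase G hm]
      have h2 : ∏ i ∈ A, G.wj ((p : ℝ) / q) j i =
          G.wj ((p : ℝ) / q) j e * ∏ i ∈ A.erase e, G.wj ((p : ℝ) / q) j i :=
        (Finset.mul_prod_erase A _ hm).symm
      rw [h2, min_eq_left (mul_le_of_le_one_left (hnn _) hw1)]
      ring
    · rw [stT_insert G hm, Finset.prod_insert hm,
        min_eq_right (mul_le_of_le_one_left (hnn _) hw1)]
      by_cases hj : (e : ℕ) < j
      · rw [if_pos ⟨hm, hj⟩]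
        have h2 : G.wj ((p : ℝ) / q) j e = (p : ℝ) / q := by
          unfold wj
          rw [if_pos hj]
        rw [h2]
        field_simp
      · rw [if_neg (fun h => hj h.2)]
        have h2 : G.wj ((p : ℝ) / q) j e = 1 := by
          unfold wj
          rw [if_neg hj]
        rw [h2]
        ring
  rw [Nat.cast_mul, Nat.cast_pow, Nat.cast_ofNat]
  calc _ = ((∏ i ∈ A, G.wj ((p : ℝ) / q) j i) *
        ((if e ∉ A ∧ (e : ℕ) < j then p else q : ℕ) : ℝ)) *
        (2 ^ a (G.bd A) * 2 ^ (h - (a (G.bd A) - a (G.bd (symmDiff A {e}))))) := by ring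
    _ = _ := by
      rw [hw, hpow]
      ring

private theorem stT_sym (hp : 0 < p) (hpq : p < q) (hK' : 2 * q ≤ K')
    (ha : ∀ A (e : Fin G.m), G.bd A ∈ G.famY T → G.bd (symmDiff A {e}) ∈ G.famY T →
      a (G.bd A) ≤ a (G.bd (symmDiff A {e})) + h) (A : Finset (Fin G.m)) (e : Fin G.m) :
    G.nuT T a p q j (symmDiff A {e}) * stTC G T a p q h j K' (symmDiff A {e}) e =
      G.nuT T a p q j A * stTC G T a p q h j K' A e := by
  rw [G.stT_bal T a p q h j K' hp hpq hK' ha A e,
    G.stT_bal T a p q h j K' hp hpq hK' ha (symmDiff A {e}) e, stT_invol,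
    stT_M_comm]

/-- The involution. -/
private theorem stT_swap (e : Fin G.m) (h : Finset (Fin G.m) → ℝ) :
    ∑ A, h (symmDiff A {e}) = ∑ A, h A := by
  refine Fintype.sum_bijective (fun A => symmDiff A {e}) ?_ _ _ fun A => rfl
  exact Function.Involutive.bijective fun A => G.stT_invol A e

/-- the chain is reversible -/
theorem stepT_rev (hp : 0 < p) (hpq : p < q) (hK : G.m ≤ K) (hK0 : 0 < K) (hK' : 2 * q ≤ K')
    (ha : ∀ A (e : Fin G.m), G.bd A ∈ G.famY T → G.bd (symmDiff A {e}) ∈ G.famY T →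
      a (G.bd A) ≤ a (G.bd (symmDiff A {e})) + h)
    (f g : Finset (Fin G.m) → ℝ) :
    ∑ A, G.nuT T a p q j A *
        avgOp (fun (d : Fin (K * (K' * 2 ^ h))) A => G.stepT T a p q h j K d A) f A * g A =
      ∑ A, G.nuT T a p q j A * f A *
        avgOp (fun (d : Fin (K * (K' * 2 ^ h))) A => G.stepT T a p q h j K d A) g A := by
  have hK1 : 0 < K' := by omega
  have hN : ((K : ℝ) * (K' * 2 ^ h)) ≠ 0 := by
    have h1 : (0 : ℝ) < K := by exact_mod_cast hK0
    have h2 : (0 : ℝ) < K' := by exact_mod_cast hK1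
    positivity
  refine mul_left_cancel₀ hN ?_
  rw [Finset.mul_sum, Finset.mul_sum]
  have h1 : ∀ A, ((K : ℝ) * (K' * 2 ^ h)) * (G.nuT T a p q j A *
        avgOp (fun (d : Fin (K * (K' * 2 ^ h))) A => G.stepT T a p q h j K d A) f A * g A) =
      ((K : ℝ) * (K' * 2 ^ h)) * (G.nuT T a p q j A * f A * g A) -
        ∑ e, G.nuT T a p q j A * stTC G T a p q h j K' A e * (f A * g A) +
        ∑ e, G.nuT T a p q j A * stTC G T a p q h j K' A e * (f (symmDiff A {e}) * g A) := by
    intro A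
    have h2 := G.stT_avg T a p q h j K K' hK hK0 hK1 f A
    calc _ = G.nuT T a p q j A * (((K : ℝ) * (K' * 2 ^ h)) *
          avgOp (fun (d : Fin (K * (K' * 2 ^ h))) A => G.stepT T a p q h j K d A) f A) *
            g A := by ring
      _ = _ := by
        rw [h2, mul_add, add_mul, Finset.mul_sum, Finset.sum_mul]
        have h3 : ∀ e, G.nuT T a p q j A * (stTC G T a p q h j K' A e *
            (f (symmDiff A {e}) - f A)) * g A =
            G.nuT T a p q j A * stTC G T a p q h j K' A e * (f (symmDiff A {e}) * g A) -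
              G.nuT T a p q j A * stTC G T a p q h j K' A e * (f A * g A) := fun e => by ring
        rw [Finset.sum_congr rfl fun e _ => h3 e, Finset.sum_sub_distrib]
        ring
  have h2 : ∀ A, ((K : ℝ) * (K' * 2 ^ h)) * (G.nuT T a p q j A * f A *
        avgOp (fun (d : Fin (K * (K' * 2 ^ h))) A => G.stepT T a p q h j K d A) g A) =
      ((K : ℝ) * (K' * 2 ^ h)) * (G.nuT T a p q j A * f A * g A) -
        ∑ e, G.nuT T a p q j A * stTC G T a p q h j K' A e * (f A * g A) +
        ∑ e, G.nuT T a p q j A * stTC G T a p q h j K' A e * (f A * g (symmDiff A {e})) := by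
    intro A
    have h2 := G.stT_avg T a p q h j K K' hK hK0 hK1 g A
    calc _ = G.nuT T a p q j A * (((K : ℝ) * (K' * 2 ^ h)) *
          avgOp (fun (d : Fin (K * (K' * 2 ^ h))) A => G.stepT T a p q h j K d A) g A) *
            f A := by ring
      _ = _ := by
        rw [h2, mul_add, add_mul, Finset.mul_sum, Finset.sum_mul]
        have h3 : ∀ e, G.nuT T a p q j A * (stTC G T a p q h j K' A e *
            (g (symmDiff A {e}) - g A)) * f A =
            G.nuT T a p q j A * stTC G T a p q h j K' A e * (f A * g (symmDiff A {e})) -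
              G.nuT T a p q j A * stTC G T a p q h j K' A e * (f A * g A) := fun e => by ring
        rw [Finset.sum_congr rfl fun e _ => h3 e, Finset.sum_sub_distrib]
        ring
  rw [Finset.sum_congr rfl fun A _ => h1 A, Finset.sum_congr rfl fun A _ => h2 A,
    Finset.sum_add_distrib, Finset.sum_add_distrib]
  congr 1
  rw [Finset.sum_comm, Finset.sum_comm (s := univ (α := Finset (Fin G.m)))]
  refine Finset.sum_congr rfl fun e _ => ?_
  rw [← G.stT_swap e (fun A => G.nuT T a p q j A * stTC G T a p q h j K' A e *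
    (f A * g (symmDiff A {e})))]
  refine Finset.sum_congr rfl fun A _ => ?_
  rw [G.stT_sym T a p q h j K' hp hpq hK' ha A e, G.stT_invol]

/-- the chain is lazy -/
theorem stepT_lazy (hpq : p < q) (hK : G.m ≤ K) (hK0 : 0 < K) (hK' : 2 * q ≤ K')
    (A : Finset (Fin G.m)) :
    (Fintype.card (Fin (K * (K' * 2 ^ h))) : ℝ) ≤
      2 * (((univ : Finset (Fin (K * (K' * 2 ^ h)))).filter
        fun (d : Fin (K * (K' * 2 ^ h))) => G.stepT T a p q h j K d A = A).card : ℝ) := by
  classical
  have h1 : ((univ : Finset (Fin (K * (K' * 2 ^ h)))).filter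
      fun (d : Fin (K * (K' * 2 ^ h))) =>
      ¬ G.stepT T a p q h j K d A = A).card ≤ K * (q * 2 ^ h) := by
    have h2 : ((univ : Finset (Fin (K * (K' * 2 ^ h)))).filter
        fun (d : Fin (K * (K' * 2 ^ h))) =>
        ¬ G.stepT T a p q h j K d A = A).card ≤ (range (K * (q * 2 ^ h))).card := by
      refine Finset.card_le_card_of_injOn (fun d => (d : ℕ)) (fun d hd => ?_)
        fun x _ y _ hxy => Fin.ext hxy
      have hd' := (Finset.mem_filter.1 (Finset.mem_coe.1 hd)).2
      rw [Finset.mem_coe, Finset.mem_range]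
      by_contra hcon
      apply hd'
      have h3 : q * 2 ^ h ≤ (d : ℕ) / K := by
        rw [Nat.le_div_iff_mul_le hK0, mul_comm]
        exact not_lt.1 hcon
      unfold stepT
      by_cases h4 : (d : ℕ) % K < G.m
      · rw [dif_pos h4, if_neg]
        rintro ⟨_, h5⟩
        have h6 : (d : ℕ) / K ≤ (d : ℕ) / K *
            2 ^ (a (G.bd A) - a (G.bd (symmDiff A {(⟨(d : ℕ) % K, h4⟩ : Fin G.m)}))) :=
          Nat.le_mul_of_pos_right _ (by positivity)
        have h7 : (if (⟨(d : ℕ) % K, h4⟩ : Fin G.m) ∉ A ∧ (d : ℕ) % K < j then p else q) *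
            2 ^ h ≤ q * 2 ^ h := by
          refine Nat.mul_le_mul_right _ ?_
          split_ifs <;> omega
        omega
      · rw [dif_neg h4]
    rwa [Finset.card_range] at h2
  have h2 := Finset.card_filter_add_card_filter_not
    (s := (univ : Finset (Fin (K * (K' * 2 ^ h))))) (fun d => G.stepT T a p q h j K d A = A)
  rw [Finset.card_univ, Fintype.card_fin] at h2
  rw [Fintype.card_fin]
  have h3 : 2 * (K * (q * 2 ^ h)) ≤ K * (K' * 2 ^ h) := by
    calc 2 * (K * (q * 2 ^ h)) = K * ((2 * q) * 2 ^ h) := by ring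
      _ ≤ K * (K' * 2 ^ h) := Nat.mul_le_mul_left K (Nat.mul_le_mul_right _ hK')
  exact_mod_cast (by omega : K * (K' * 2 ^ h) ≤ 2 * ((univ : Finset (Fin (K * (K' * 2 ^ h)))).filter
    fun (d : Fin (K * (K' * 2 ^ h))) => G.stepT T a p q h j K d A = A).card)

/-- the energy of the chain -/
theorem stepT_energy (hp : 0 < p) (hpq : p < q) (hK : G.m ≤ K) (hK0 : 0 < K) (hK' : 2 * q ≤ K')
    (ha : ∀ A (e : Fin G.m), G.bd A ∈ G.famY T → G.bd (symmDiff A {e}) ∈ G.famY T →
      a (G.bd A) ≤ a (G.bd (symmDiff A {e})) + h)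
    (f : Finset (Fin G.m) → ℝ) :
    (G.sysT T a (G.wj ((p : ℝ) / q) j)).En f ≤
      (2 * (K * K') : ℝ) * ∑ A, G.nuT T a p q j A *
        (f A * (f A - avgOp (fun (d : Fin (K * (K' * 2 ^ h))) A =>
          G.stepT T a p q h j K d A) f A)) := by
  have hK1 : 0 < K' := by omega
  have hq1 : (1 : ℝ) ≤ q := by exact_mod_cast (by omega : 1 ≤ q)
  have hq' : (0 : ℝ) < q := by linarith
  have h2h : (0 : ℝ) < 2 ^ h := by positivity
  -- the left side
  have h1 : (G.sysT T a (G.wj ((p : ℝ) / q) j)).En f ≤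
      ∑ A, ∑ e, q * stTM G T a p q j A (symmDiff A {e}) * (f A - f (symmDiff A {e})) ^ 2 := by
    unfold Sys.En
    refine Finset.sum_le_sum fun A _ => ?_
    change ∑ e ∈ univ, min (G.nuT T a p q j A) (G.nuT T a p q j (symmDiff A {e})) *
      (f A - f (symmDiff A {e})) ^ 2 ≤ _
    refine Finset.sum_le_sum fun e _ => mul_le_mul_of_nonneg_right ?_ (sq_nonneg _)
    have hnn := G.stT_prod_nn p q j hp hpq
    by_cases hA : (G.supp (G.bd A) \ T).card ≤ 2
    swap
    · rw [stT_M_negl G T a p q j hA, mul_zero, stT_nu G T a p q j A, if_neg hA]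
      exact min_le_left _ _
    by_cases hB : (G.supp (G.bd (symmDiff A {e})) \ T).card ≤ 2
    swap
    · rw [stT_M_negr G T a p q j hB, mul_zero, stT_nu G T a p q j (symmDiff A {e}), if_neg hB]
      exact min_le_right _ _
    rw [stT_nu, stT_nu, if_pos hA, if_pos hB, stT_M_pos G T a p q j hA hB]
    have r1 := G.stT_ratio p q j hp hpq A e
    have r2 := G.stT_ratio p q j hp hpq (symmDiff A {e}) e
    rw [stT_invol] at r2
    obtain ⟨u, hu⟩ : ∃ u, u = ∏ i ∈ A, G.wj ((p : ℝ) / q) j i := ⟨_, rfl⟩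
    obtain ⟨v, hv⟩ : ∃ v, v = ∏ i ∈ symmDiff A {e}, G.wj ((p : ℝ) / q) j i := ⟨_, rfl⟩
    have hu0 : 0 ≤ u := hu ▸ hnn A
    have hv0 : 0 ≤ v := hv ▸ hnn (symmDiff A {e})
    rw [← hu, ← hv] at r1 r2 ⊢
    have hmin : u ≤ q * min u v ∧ v ≤ q * min u v := by
      rcases le_total u v with h | h
      · rw [min_eq_left h]
        exact ⟨le_mul_of_one_le_left hu0 hq1, r2⟩
      · rw [min_eq_right h]
        exact ⟨r1, le_mul_of_one_le_left hv0 hq1⟩
    rcases le_total (a (G.bd A)) (a (G.bd (symmDiff A {e}))) with h | h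
    · rw [min_eq_left h, ← mul_assoc]
      exact (min_le_left _ _).trans (mul_le_mul_of_nonneg_right hmin.1 (by positivity))
    · rw [min_eq_right h, ← mul_assoc]
      exact (min_le_right _ _).trans (mul_le_mul_of_nonneg_right hmin.2 (by positivity))
  -- the right side
  have h2 : (2 * (K * K') : ℝ) * ∑ A, G.nuT T a p q j A *
        (f A * (f A - avgOp (fun (d : Fin (K * (K' * 2 ^ h))) A =>
          G.stepT T a p q h j K d A) f A)) =
      ∑ A, ∑ e, 2 * (q * stTM G T a p q j A (symmDiff A {e}) *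
        (f A * (f A - f (symmDiff A {e})))) := by
    rw [Finset.mul_sum]
    refine Finset.sum_congr rfl fun A _ => ?_
    have h3 := G.stT_avg T a p q h j K K' hK hK0 hK1 f A
    refine mul_left_cancel₀ h2h.ne' ?_
    calc _ = 2 * G.nuT T a p q j A * f A * (((K : ℝ) * (K' * 2 ^ h)) * f A -
          ((K : ℝ) * (K' * 2 ^ h)) *
          avgOp (fun (d : Fin (K * (K' * 2 ^ h))) A => G.stepT T a p q h j K d A) f A) := by ring
      _ = _ := by
        rw [h3, sub_add_cancel_left, Finset.mul_sum, ← Finset.sum_neg_distrib, Finset.mul_sum]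
        refine Finset.sum_congr rfl fun e _ => ?_
        have h4 := G.stT_bal T a p q h j K' hp hpq hK' ha A e
        calc _ = 2 * (G.nuT T a p q j A * stTC G T a p q h j K' A e) *
              (f A * (f A - f (symmDiff A {e}))) := by ring
          _ = _ := by
            rw [h4]
            ring
  rw [h2]
  refine h1.trans (le_of_eq ?_)
  rw [Finset.sum_comm, Finset.sum_comm (s := univ (α := Finset (Fin G.m)))]
  refine Finset.sum_congr rfl fun e _ => ?_
  have h3 : ∀ A, q * stTM G T a p q j A (symmDiff A {e}) * (f A - f (symmDiff A {e})) ^ 2 =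
      q * stTM G T a p q j A (symmDiff A {e}) * (f A * (f A - f (symmDiff A {e}))) +
        q * stTM G T a p q j A (symmDiff A {e}) *
          (f (symmDiff A {e}) * (f (symmDiff A {e}) - f A)) := fun A => by ring
  have h4 : ∑ A, q * stTM G T a p q j A (symmDiff A {e}) *
          (f (symmDiff A {e}) * (f (symmDiff A {e}) - f A)) =
      ∑ A, q * stTM G T a p q j A (symmDiff A {e}) * (f A * (f A - f (symmDiff A {e}))) := by
    rw [← G.stT_swap e (fun A => q * stTM G T a p q j A (symmDiff A {e}) *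
      (f A * (f A - f (symmDiff A {e}))))]
    refine Finset.sum_congr rfl fun A _ => ?_
    rw [G.stT_invol, stT_M_comm]
  rw [Finset.sum_congr rfl fun A _ => h3 A, Finset.sum_add_distrib, h4, ← Finset.mul_sum]
  ring

end step

end MGraph

end Pool.Agent.Lib.H2
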