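import Pool.Agent.Lib.MP_3493b8_lc.O.Gks
import Pool.Agent.Lib.MP_3493b8_lc.O.Step
import Pool.Agent.Lib.MP_3493b8_lc.Poinc
import Pool.Agent.Lib.MP_3493b8_lc.Split

/-! Convergence of the chain with class weights. -/

set_option autoImplicit false

open Finset

namespace Pool.Agent.Lib.H2

namespace MGraph

variable (G : MGraph) (T : Finset (Fin G.n)) (a : (Fin G.n → ZMod 2) → ℕ)

private theorem mixT_Z (w : Fin G.m → ℝ) (y : Fin G.n → ZMod 2) :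
    G.Zs ∅ w y = ∑ A : Finset (Fin G.m), if G.bd A = y then ∏ i ∈ A, w i else 0 := by
  unfold Zs
  refine sum_congr rfl fun A _ => ?_
  simp

private theorem mixT_mem {A : Finset (Fin G.m)} {e : Fin G.m} (h : e ∈ A) :
    symmDiff A {e} = A.erase e := by
  ext x
  rw [mem_symmDiff, mem_erase, mem_singleton]
  constructor
  · rintro (⟨h1, h2⟩ | ⟨h1, h2⟩)
    · exact ⟨h2, h1⟩
    · exact (h2 (h1 ▸ h)).elim
  · rintro ⟨h1, h2⟩
    exact Or.inl ⟨h2, h1⟩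

private theorem mixT_notMem {A : Finset (Fin G.m)} {e : Fin G.m} (h : e ∉ A) :
    symmDiff A {e} = insert e A := by
  ext x
  rw [mem_symmDiff, mem_insert, mem_singleton]
  constructor
  · rintro (⟨h1, _⟩ | ⟨h1, _⟩)
    · exact Or.inr h1
    · exact Or.inl h1
  · rintro (h1 | h1)
    · exact Or.inr ⟨h1, fun h2 => h (h1 ▸ h2)⟩
    · exact Or.inl ⟨h1, fun h2 => h (h2 ▸ h1)⟩

/-- the weights of classes joined by an edge -/
theorem Zs_edge (w : Fin G.m → ℝ) (q : ℝ) (hq : 1 ≤ q) (hw : ∀ i, 1 / q ≤ w i ∧ w i ≤ 1)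
    (y : Fin G.n → ZMod 2) (e : Fin G.m) :
    G.Zs ∅ w (y + G.bd {e}) ≤ q * G.Zs ∅ w y := by
  have hq0 : 0 < q := lt_of_lt_of_le zero_lt_one hq
  have hw0 : ∀ i, 0 ≤ w i := fun i => le_trans (by positivity) (hw i).1
  have hinv : Function.Involutive fun A : Finset (Fin G.m) => symmDiff A {e} := fun A =>
    symmDiff_symmDiff_cancel_right {e} A
  have h1 : ∑ A : Finset (Fin G.m), (if G.bd A = y + G.bd {e} then ∏ i ∈ A, w i else 0) =
      ∑ A : Finset (Fin G.m), (if G.bd (symmDiff A {e}) = y + G.bd {e} then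
        ∏ i ∈ symmDiff A {e}, w i else 0) :=
    (Equiv.sum_comp hinv.toPerm fun A : Finset (Fin G.m) =>
      if G.bd A = y + G.bd {e} then ∏ i ∈ A, w i else 0).symm
  rw [G.mixT_Z, G.mixT_Z, mul_sum, h1]
  refine sum_le_sum fun A _ => ?_
  rw [G.bd_symmDiff]
  by_cases hA : G.bd A = y
  · rw [if_pos (by rw [hA]), if_pos hA]
    by_cases he : e ∈ A
    · rw [G.mixT_mem he, ← mul_prod_erase A w he]
      have h2 : 0 ≤ ∏ i ∈ A.erase e, w i := prod_nonneg fun i _ => hw0 i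
      have h3 : 1 ≤ q * w e := by
        have h4 := (hw e).1
        rw [div_le_iff₀ hq0] at h4
        linarith
      calc ∏ i ∈ A.erase e, w i = 1 * ∏ i ∈ A.erase e, w i := (one_mul _).symm
        _ ≤ q * w e * ∏ i ∈ A.erase e, w i := mul_le_mul_of_nonneg_right h3 h2
        _ = _ := by ring
    · rw [G.mixT_notMem he, prod_insert he]
      have h2 : 0 ≤ ∏ i ∈ A, w i := prod_nonneg fun i _ => hw0 i
      exact mul_le_mul_of_nonneg_right ((hw e).2.trans hq) h2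
  · rw [if_neg (fun h => hA (add_right_cancel h)), if_neg hA, mul_zero]

/-- the class weights of neighbouring states -/
theorem fine_diff (w : Fin G.m → ℝ) (q : ℕ) (hq : 1 ≤ q) (hw : ∀ i, 1 / (q : ℝ) ≤ w i ∧ w i ≤ 1)
    (hF : G.Fine T a w) (A : Finset (Fin G.m)) (e : Fin G.m) (hA : G.bd A ∈ G.famY T)
    (hB : G.bd (symmDiff A {e}) ∈ G.famY T) :
    a (G.bd A) ≤ a (G.bd (symmDiff A {e})) + Nat.size (3 * q) := by
  have hq1 : (1 : ℝ) ≤ q := by exact_mod_cast hq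
  have hq0 : (0 : ℝ) < q := lt_of_lt_of_le zero_lt_one hq1
  have hw0 : ∀ i, 0 < w i := fun i => lt_of_lt_of_le (by positivity) (hw i).1
  obtain ⟨c, _, hF⟩ := hF
  have hZA : 0 < G.Zs ∅ w (G.bd A) := G.Zs_pos ∅ w hw0 A (disjoint_empty_right A)
  have hZB : 0 < G.Zs ∅ w (G.bd (symmDiff A {e})) :=
    G.Zs_pos ∅ w hw0 _ (disjoint_empty_right _)
  have h1 := (hF _ hA hZA.ne').2
  have h2 := (hF _ hB hZB.ne').1
  have h3 : G.Zs ∅ w (G.bd (symmDiff A {e})) ≤ q * G.Zs ∅ w (G.bd A) := by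
    rw [G.bd_symmDiff]
    exact G.Zs_edge w q hq1 hw _ e
  have h4 : (2 : ℝ) ^ a (G.bd A) * G.Zs ∅ w (G.bd A) ≤
      (3 * q * 2 ^ a (G.bd (symmDiff A {e}))) * G.Zs ∅ w (G.bd A) := by
    calc (2 : ℝ) ^ a (G.bd A) * G.Zs ∅ w (G.bd A) ≤ 3 * c := h1
      _ ≤ 3 * (2 ^ a (G.bd (symmDiff A {e})) * G.Zs ∅ w (G.bd (symmDiff A {e}))) := by linarith
      _ ≤ 3 * (2 ^ a (G.bd (symmDiff A {e})) * (q * G.Zs ∅ w (G.bd A))) := by gcongr
      _ = _ := by ring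
  have h5 : (2 : ℝ) ^ a (G.bd A) ≤ 3 * q * 2 ^ a (G.bd (symmDiff A {e})) :=
    le_of_mul_le_mul_right h4 hZA
  have h6 : 2 ^ a (G.bd A) ≤ 3 * q * 2 ^ a (G.bd (symmDiff A {e})) := by exact_mod_cast h5
  have h7 : 3 * q < 2 ^ Nat.size (3 * q) := Nat.lt_size_self _
  have h8 : 2 ^ a (G.bd A) < 2 ^ (a (G.bd (symmDiff A {e})) + Nat.size (3 * q)) := by
    rw [pow_add, mul_comm (2 ^ a (G.bd (symmDiff A {e})))]
    exact lt_of_le_of_lt h6 (Nat.mul_lt_mul_of_pos_right h7 (Nat.two_pow_pos _))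
  exact ((Nat.pow_lt_pow_iff_right (by norm_num)).1 h8).le

/-- The hypotheses of Theorem P. -/
theorem sysT_ok (w : Fin G.m → ℝ) (hw : ∀ i, 0 < w i ∧ w i ≤ 1) (hF : G.Fine T a w) :
    (G.sysT T a w).Ok (3 * (2 ^ T.card * ((G.n : ℝ) + 1) ^ 2)) := by
  have hw0 : ∀ i, 0 ≤ w i := fun i => (hw i).1.le
  have hnn := G.Zs_nonneg ∅ w hw0
  refine ⟨fun A B => G.bd_symmDiff A B, fun v => G.zmod_add_self v, fun i => (hw i).1,
    fun y _ => by
      change (0 : ℝ) < 2 ^ a y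
      positivity, G.zero_famY T, fun D _ hD hb => G.famY_R T D hD hb, fun y hy hZ => ?_,
    by positivity⟩
  obtain ⟨c, _, hF⟩ := hF
  rw [G.sysT_Z] at hZ
  have hy0 : 0 < G.Zs ∅ w y := lt_of_le_of_ne (hnn y) (Ne.symm hZ)
  have hterm : ∀ y0 ∈ G.famY T, (2 : ℝ) ^ a y0 * G.Zs ∅ w (y0 + y) ≤
      3 * (2 ^ a y * G.Zs ∅ w 0) := by
    intro y0 hy1
    have hg := G.gks w (fun i => ⟨hw0 i, (hw i).2⟩) (y0 + y) y
    rw [add_assoc, G.zmod_add_self, add_zero] at hg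
    by_cases h0 : G.Zs ∅ w y0 = 0
    · rw [h0, mul_zero] at hg
      have h1 : G.Zs ∅ w (y0 + y) ≤ 0 := by
        by_contra hcon
        push Not at hcon
        have := mul_pos hcon hy0
        linarith
      have h2 : G.Zs ∅ w (y0 + y) = 0 := le_antisymm h1 (hnn _)
      rw [h2, mul_zero]
      exact mul_nonneg (by norm_num) (mul_nonneg (by positivity) (hnn 0))
    · have h1 := (hF y0 hy1 h0).2
      have h2 := (hF y hy hZ).1
      have h0n := hnn 0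
      have h3 : (2 : ℝ) ^ a y0 * G.Zs ∅ w (y0 + y) * G.Zs ∅ w y ≤
          3 * (2 ^ a y * G.Zs ∅ w 0) * G.Zs ∅ w y := by
        calc (2 : ℝ) ^ a y0 * G.Zs ∅ w (y0 + y) * G.Zs ∅ w y =
              2 ^ a y0 * (G.Zs ∅ w (y0 + y) * G.Zs ∅ w y) := by ring
          _ ≤ 2 ^ a y0 * (G.Zs ∅ w 0 * G.Zs ∅ w y0) := by gcongr
          _ = G.Zs ∅ w 0 * (2 ^ a y0 * G.Zs ∅ w y0) := by ring
          _ ≤ G.Zs ∅ w 0 * (3 * c) := mul_le_mul_of_nonneg_left h1 h0n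
          _ ≤ G.Zs ∅ w 0 * (3 * (2 ^ a y * G.Zs ∅ w y)) :=
              mul_le_mul_of_nonneg_left (by linarith) h0n
          _ = _ := by ring
      exact le_of_mul_le_mul_right h3 hy0
  have h0n := hnn 0
  have hcard : ((G.famY T).card : ℝ) ≤ 2 ^ T.card * ((G.n : ℝ) + 1) ^ 2 := by
    exact_mod_cast G.card_famY T
  have hmain : ∑ y0 ∈ G.famY T, (2 : ℝ) ^ a y0 * G.Zs ∅ w (y0 + y) ≤
      3 * (2 ^ T.card * ((G.n : ℝ) + 1) ^ 2) * 2 ^ a y * G.Zs ∅ w 0 := by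
    calc ∑ y0 ∈ G.famY T, (2 : ℝ) ^ a y0 * G.Zs ∅ w (y0 + y) ≤
          ∑ y0 ∈ G.famY T, 3 * (2 ^ a y * G.Zs ∅ w 0) := sum_le_sum hterm
      _ = ((G.famY T).card : ℝ) * (3 * (2 ^ a y * G.Zs ∅ w 0)) := by
          rw [sum_const, nsmul_eq_mul]
      _ ≤ (2 ^ T.card * ((G.n : ℝ) + 1) ^ 2) * (3 * (2 ^ a y * G.Zs ∅ w 0)) :=
          mul_le_mul_of_nonneg_right hcard (by positivity)
      _ = _ := by ring
  refine le_trans (le_of_eq ?_) (hmain.trans (le_of_eq ?_))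
  · refine sum_congr rfl fun y0 _ => ?_
    rw [G.sysT_Z]
    rfl
  · rw [G.sysT_Z]
    rfl

private theorem mixT_nu (p q j : ℕ) (B : Finset (Fin G.m)) :
    G.nuT T a p q j B = if G.bd B ∈ G.famY T then
      (∏ i ∈ B, G.wj ((p : ℝ) / q) j i) * 2 ^ a (G.bd B) else 0 := by
  unfold nuT Sys.nu Sys.wt sysT
  simp only [subset_univ, true_and, add_zero]

private theorem mixT_sum (p q j : ℕ) :
    ∑ B, G.nuT T a p q j B =
      ∑ y0 ∈ G.famY T, (2 : ℝ) ^ a y0 * G.Zs ∅ (G.wj ((p : ℝ) / q) j) y0 := by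
  have h1 : ∀ y0 ∈ G.famY T, (2 : ℝ) ^ a y0 * G.Zs ∅ (G.wj ((p : ℝ) / q) j) y0 =
      ∑ B : Finset (Fin G.m), if G.bd B = y0 then
        (∏ i ∈ B, G.wj ((p : ℝ) / q) j i) * 2 ^ a y0 else 0 := by
    intro y0 _
    rw [G.mixT_Z, mul_sum]
    refine sum_congr rfl fun B _ => ?_
    split_ifs
    · ring
    · ring
  rw [sum_congr rfl h1, sum_comm]
  refine sum_congr rfl fun B _ => ?_
  rw [G.mixT_nu, sum_ite_eq]

private theorem mixT_w {p q : ℕ} (hp : 0 < p) (hpq : p < q) (j : ℕ) (i : Fin G.m) :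
    1 / (q : ℝ) ≤ G.wj ((p : ℝ) / q) j i ∧ G.wj ((p : ℝ) / q) j i ≤ 1 := by
  have hq : (0 : ℝ) < q := by exact_mod_cast hp.trans hpq
  have hp1 : (1 : ℝ) ≤ p := by exact_mod_cast hp
  have hpq' : (p : ℝ) ≤ q := by exact_mod_cast hpq.le
  unfold wj
  split_ifs with h
  · exact ⟨div_le_div_of_nonneg_right hp1 hq.le, (div_le_one hq).2 hpq'⟩
  · exact ⟨(div_le_one hq).2 (hp1.trans hpq'), le_rfl⟩

private theorem mixT_w0 (p q j : ℕ) (i : Fin G.m) : 0 ≤ G.wj ((p : ℝ) / q) j i := by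
  unfold wj
  split_ifs
  · positivity
  · exact zero_le_one

/-- the share of every class -/
theorem fine_share (p q j : ℕ) (hp : 0 < p) (hpq : p < q)
    (hF : G.Fine T a (G.wj ((p : ℝ) / q) j)) (y : Fin G.n → ZMod 2) (hy : y ∈ G.famY T)
    (hZ : G.Zs ∅ (G.wj ((p : ℝ) / q) j) y ≠ 0) :
    ∑ B, G.nuT T a p q j B ≤
      3 * (2 ^ T.card * ((G.n : ℝ) + 1) ^ 2) * (2 ^ a y * G.Zs ∅ (G.wj ((p : ℝ) / q) j) y) := by
  have hnn := G.Zs_nonneg ∅ (G.wj ((p : ℝ) / q) j) (G.mixT_w0 p q j)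
  obtain ⟨c, hc, hF⟩ := hF
  have h2 := (hF y hy hZ).1
  have hcard : ((G.famY T).card : ℝ) ≤ 2 ^ T.card * ((G.n : ℝ) + 1) ^ 2 := by
    exact_mod_cast G.card_famY T
  rw [G.mixT_sum]
  calc ∑ y0 ∈ G.famY T, (2 : ℝ) ^ a y0 * G.Zs ∅ (G.wj ((p : ℝ) / q) j) y0 ≤
        ∑ y0 ∈ G.famY T, 3 * (2 ^ a y * G.Zs ∅ (G.wj ((p : ℝ) / q) j) y) := by
        refine sum_le_sum fun y0 hy0 => ?_
        by_cases h0 : G.Zs ∅ (G.wj ((p : ℝ) / q) j) y0 = 0
        · rw [h0, mul_zero]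
          linarith
        · have h1 := (hF y0 hy0 h0).2
          linarith
    _ = ((G.famY T).card : ℝ) * (3 * (2 ^ a y * G.Zs ∅ (G.wj ((p : ℝ) / q) j) y)) := by
        rw [sum_const, nsmul_eq_mul]
    _ ≤ (2 ^ T.card * ((G.n : ℝ) + 1) ^ 2) *
          (3 * (2 ^ a y * G.Zs ∅ (G.wj ((p : ℝ) / q) j) y)) :=
        mul_le_mul_of_nonneg_right hcard (by linarith)
    _ = _ := by ring

theorem nuT_nonneg (p q j : ℕ) (B : Finset (Fin G.m)) : 0 ≤ G.nuT T a p q j B := by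
  rw [G.mixT_nu]
  split_ifs
  · exact mul_nonneg (prod_nonneg fun i _ => G.mixT_w0 p q j i) (by positivity)
  · exact le_rfl

/-- relaxation time -/
def relaxT (D K K' : ℕ) : ℕ := 2 * G.m * (3 * D) * (K * K') + 1

private theorem mixT_Z0_le (p q j : ℕ) (hp : 0 < p) (hpq : p < q) :
    G.Zs ∅ (G.wj ((p : ℝ) / q) j) 0 ≤ 2 ^ G.m := by
  rw [G.mixT_Z]
  have h1 : ∀ B ∈ (univ : Finset (Finset (Fin G.m))),
      (if G.bd B = 0 then ∏ i ∈ B, G.wj ((p : ℝ) / q) j i else 0) ≤ 1 := by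
    intro B _
    split_ifs
    · exact prod_le_one (fun i _ => G.mixT_w0 p q j i) fun i _ => (G.mixT_w hp hpq j i).2
    · exact zero_le_one
  refine (sum_le_card_nsmul _ _ _ h1).trans (le_of_eq ?_)
  rw [card_univ, Fintype.card_finset, Fintype.card_fin, nsmul_eq_mul, mul_one]
  push_cast
  rfl

/-- Convergence of the chain of stage `j` from the empty set. -/
theorem chainT_mix (p q j K K' : ℕ) (hp : 0 < p) (hpq : p < q) (hK : G.m ≤ K) (hK0 : 0 < K)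
    (hK' : 2 * q ≤ K') (hF : G.Fine T a (G.wj ((p : ℝ) / q) j)) (f : Finset (Fin G.m) → ℝ)
    (hf : ∀ B, |f B| ≤ 1) (t : ℕ) :
    (avgIt (fun (d : Fin (K * (K' * 2 ^ Nat.size (3 * q)))) B =>
        G.stepT T a p q (Nat.size (3 * q)) j K d B) f t ∅ -
        (∑ B, G.nuT T a p q j B * f B) / (∑ B, G.nuT T a p q j B)) ^ 2 ≤
      (1 - 1 / (G.relaxT (2 ^ T.card * (G.n + 1) ^ 2) K K' : ℝ)) ^ t *
        (3 * (2 ^ T.card * ((G.n : ℝ) + 1) ^ 2) * 2 ^ G.m) := by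
  have hq0 : 0 < q := hp.trans hpq
  have hq1 : 1 ≤ q := hq0
  have hK'0 : 0 < K' := by omega
  have hne : Nonempty (Fin (K * (K' * 2 ^ Nat.size (3 * q)))) :=
    ⟨⟨0, Nat.mul_pos hK0 (Nat.mul_pos hK'0 (Nat.two_pow_pos _))⟩⟩
  have hwj : ∀ i, 1 / (q : ℝ) ≤ G.wj ((p : ℝ) / q) j i ∧ G.wj ((p : ℝ) / q) j i ≤ 1 := fun i =>
    G.mixT_w hp hpq j i
  have hqr : (0 : ℝ) < q := by exact_mod_cast hq0
  have hwpos : ∀ i, 0 < G.wj ((p : ℝ) / q) j i ∧ G.wj ((p : ℝ) / q) j i ≤ 1 := fun i =>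
    ⟨lt_of_lt_of_le (by positivity) (hwj i).1, (hwj i).2⟩
  have ha : ∀ A (e : Fin G.m), G.bd A ∈ G.famY T → G.bd (symmDiff A {e}) ∈ G.famY T →
      a (G.bd A) ≤ a (G.bd (symmDiff A {e})) + Nat.size (3 * q) := fun A e hA hB =>
    G.fine_diff T a (G.wj ((p : ℝ) / q) j) q hq1 hwj hF A e hA hB
  set κ : ℝ := 3 * (2 ^ T.card * ((G.n : ℝ) + 1) ^ 2) with hκ
  have hκ0 : 0 ≤ κ := by positivity
  set R : ℝ := (G.relaxT (2 ^ T.card * (G.n + 1) ^ 2) K K' : ℝ) with hR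
  have hRv : R = 2 * G.m * κ * (K * K') + 1 := by
    rw [hR, relaxT, hκ]
    push_cast
    ring
  have hR1 : 1 ≤ R := by
    rw [hRv]
    have : (0 : ℝ) ≤ 2 * G.m * κ * (K * K') := by positivity
    linarith
  have hnn := G.nuT_nonneg T a p q j
  have hZ0 : 0 < G.Zs ∅ (G.wj ((p : ℝ) / q) j) 0 := by
    have h1 := G.Zs_pos ∅ (G.wj ((p : ℝ) / q) j) (fun i => (hwpos i).1) ∅
      (disjoint_empty_right _)
    rwa [G.bd_empty] at h1
  have hemp : G.nuT T a p q j ∅ = 2 ^ a 0 := by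
    rw [G.mixT_nu, G.bd_empty, if_pos (G.zero_famY T), prod_empty, one_mul]
  have hpos : 0 < G.nuT T a p q j ∅ := by
    rw [hemp]
    positivity
  have hmix := mix (fun (d : Fin (K * (K' * 2 ^ Nat.size (3 * q)))) B =>
      G.stepT T a p q (Nat.size (3 * q)) j K d B)
    (G.nuT T a p q j) hnn
    (G.stepT_rev T a p q (Nat.size (3 * q)) j K K' hp hpq hK hK0 hK' ha)
    (G.stepT_lazy T a p q (Nat.size (3 * q)) j K K' hpq hK hK0 hK') R hR1 (by
      intro f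
      have h1 := (G.sysT T a (G.wj ((p : ℝ) / q) j)).poincare _
        (G.sysT_ok T a (G.wj ((p : ℝ) / q) j) hwpos hF)
        (by rw [G.sysT_Z]; exact hZ0) f
      have h2 : 0 ≤ (G.sysT T a (G.wj ((p : ℝ) / q) j)).En f :=
        sum_nonneg fun B _ => sum_nonneg fun e _ =>
          mul_nonneg (le_min (hnn B) (hnn _)) (sq_nonneg _)
      have h3 := G.stepT_energy T a p q (Nat.size (3 * q)) j K K' hp hpq hK hK0 hK' ha f
      set E : ℝ := ∑ B, G.nuT T a p q j B *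
        (f B * (f B - avgOp (fun (d : Fin (K * (K' * 2 ^ Nat.size (3 * q)))) B =>
          G.stepT T a p q (Nat.size (3 * q)) j K d B) f B)) with hE
      set S : ℝ := ∑ B, G.nuT T a p q j B with hS
      have hS0 : 0 ≤ S := sum_nonneg fun B _ => hnn B
      have hKK : (0 : ℝ) < 2 * (K * K') := by
        have h3 : (0 : ℝ) < K := by exact_mod_cast hK0
        have h4 : (0 : ℝ) < K' := by exact_mod_cast hK'0
        positivity
      have hE0 : 0 ≤ E := nonneg_of_mul_nonneg_right (h2.trans h3) hKK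
      have hc : ((G.sysT T a (G.wj ((p : ℝ) / q) j)).E0.card : ℝ) = G.m := by
        change ((univ : Finset (Fin G.m)).card : ℝ) = G.m
        rw [card_univ, Fintype.card_fin]
      rw [hc] at h1
      refine h1.trans ?_
      calc (G.m : ℝ) * κ * S * (G.sysT T a (G.wj ((p : ℝ) / q) j)).En f ≤
            (G.m : ℝ) * κ * S * (2 * (K * K') * E) :=
            mul_le_mul_of_nonneg_left h3 (by positivity)
        _ = (2 * G.m * κ * (K * K')) * (S * E) := by ring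
        _ ≤ R * (S * E) := mul_le_mul_of_nonneg_right (by rw [hRv]; linarith)
            (mul_nonneg hS0 hE0)
        _ = R * S * E := by ring) ∅ hpos f hf t
  refine hmix.trans (mul_le_mul_of_nonneg_left ?_ (pow_nonneg ?_ t))
  · rw [div_le_iff₀ hpos, hemp]
    have h8 := G.fine_share T a p q j hp hpq hF 0 (G.zero_famY T) hZ0.ne'
    refine h8.trans ?_
    have h9 := G.mixT_Z0_le p q j hp hpq
    calc κ * (2 ^ a 0 * G.Zs ∅ (G.wj ((p : ℝ) / q) j) 0) ≤ κ * (2 ^ a 0 * 2 ^ G.m) :=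
          mul_le_mul_of_nonneg_left (mul_le_mul_of_nonneg_left h9 (by positivity)) hκ0
      _ = κ * 2 ^ G.m * 2 ^ a 0 := by ring
  · rw [sub_nonneg, div_le_one (by linarith)]
    exact hR1

end MGraph

end Pool.Agent.Lib.H2
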