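import Pool.Agent.Lib.MP_3493b8_lc.Num

/-! Inequalities between the parameters of the third algorithm. -/

set_option autoImplicit false

namespace Pool.Agent.Lib.H2

/-- the running time suffices -/
theorem numB_mix (m n N q τ R : ℕ) (hm : 1 ≤ m) (hN : 1 ≤ N) (hq : 2 ≤ q) (hτ : τ ≤ n)
    (hR : 1 ≤ R) :
    (1 - 1 / (R : ℝ)) ^ (R * (30 * q * (n + m + N + 2))) *
      (3 * (2 ^ τ * ((n : ℝ) + 1) ^ 2) * 2 ^ m) ≤
      (1 / (100 * m * N) * (1 / (3 * q * (2 ^ τ * ((n : ℝ) + 1) ^ 2)))) ^ 2 := by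
  have hm' : (1 : ℝ) ≤ m := by exact_mod_cast hm
  have hN' : (1 : ℝ) ≤ N := by exact_mod_cast hN
  have hq' : (2 : ℝ) ≤ q := by exact_mod_cast hq
  have hR' : (1 : ℝ) ≤ R := by exact_mod_cast hR
  have hn' : (0 : ℝ) ≤ n := Nat.cast_nonneg n
  set t : ℕ := 30 * q * (n + m + N + 2) with ht
  have h1 : (1 - 1 / (R : ℝ)) ^ (R * t) ≤ Real.exp (-(t : ℝ)) := by
    have h2 : (1 - 1 / (R : ℝ)) ≤ Real.exp (-(1 / (R : ℝ))) := by
      have := Real.add_one_le_exp (-(1 / (R : ℝ)))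
      linarith
    have h3 : 0 ≤ 1 - 1 / (R : ℝ) := by
      rw [sub_nonneg, div_le_one (by linarith)]
      exact hR'
    calc (1 - 1 / (R : ℝ)) ^ (R * t) ≤ (Real.exp (-(1 / (R : ℝ)))) ^ (R * t) :=
          pow_le_pow_left₀ h3 h2 _
      _ = Real.exp (-(t : ℝ)) := by
          rw [← Real.exp_nat_mul]
          congr 1
          push_cast
          field_simp
  have ea : ∀ z : ℝ, z ≤ Real.exp z := fun z => by
    have := Real.add_one_le_exp z
    linarith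
  have e2 : (2 : ℝ) ^ m ≤ Real.exp m := by
    have h := Real.add_one_le_exp (1 : ℝ)
    have h4 : (2 : ℝ) ^ m ≤ (Real.exp 1) ^ m := pow_le_pow_left₀ (by norm_num) (by linarith) m
    rwa [← Real.exp_nat_mul, mul_one] at h4
  have e3 : (2 : ℝ) ^ τ ≤ Real.exp n := by
    have h := Real.add_one_le_exp (1 : ℝ)
    have h4 : (2 : ℝ) ^ n ≤ (Real.exp 1) ^ n := pow_le_pow_left₀ (by norm_num) (by linarith) n
    rw [← Real.exp_nat_mul, mul_one] at h4
    exact (pow_le_pow_right₀ (by norm_num) hτ).trans h4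
  have e4 : ((n : ℝ) + 1) ^ 2 ≤ Real.exp (2 * n) := by
    calc ((n : ℝ) + 1) ^ 2 ≤ (Real.exp n) ^ 2 :=
          pow_le_pow_left₀ (by linarith) (Real.add_one_le_exp (n : ℝ)) _
      _ = Real.exp (2 * n) := by
          rw [← Real.exp_nat_mul]
          norm_num
  have h27 : (2.7 : ℝ) ≤ Real.exp 1 := by
    have := Real.exp_one_gt_d9
    linarith
  have e6 : (300 : ℝ) ≤ Real.exp 6 := by
    have h3 : Real.exp 6 = (Real.exp 1) ^ 6 := by
      rw [← Real.exp_nat_mul]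
      norm_num
    rw [h3]
    calc (300 : ℝ) ≤ (2.7 : ℝ) ^ 6 := by norm_num
      _ ≤ (Real.exp 1) ^ 6 := pow_le_pow_left₀ (by norm_num) h27 _
  have e7 : (3 : ℝ) ≤ Real.exp 2 := by
    have h3 : Real.exp 2 = (Real.exp 1) ^ 2 := by
      rw [← Real.exp_nat_mul]
      norm_num
    rw [h3]
    calc (3 : ℝ) ≤ (2.7 : ℝ) ^ 2 := by norm_num
      _ ≤ (Real.exp 1) ^ 2 := pow_le_pow_left₀ (by norm_num) h27 _
  set F : ℝ := 2 ^ τ * ((n : ℝ) + 1) ^ 2 with hF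
  have hF0 : 0 < F := by positivity
  have hF1 : F ≤ Real.exp (3 * n) := by
    calc F ≤ Real.exp n * Real.exp (2 * n) := by
          rw [hF]
          exact mul_le_mul e3 e4 (by positivity) (Real.exp_pos _).le
      _ = Real.exp (3 * n) := by
          rw [← Real.exp_add]
          congr 1
          ring
  set D : ℝ := 100 * m * N * (3 * q * F) with hD
  have hD0 : 0 < D := by positivity
  have hD1 : D ≤ Real.exp (6 + m + N + q + 3 * n) := by
    calc D = 300 * m * N * q * F := by rw [hD]; ring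
      _ ≤ Real.exp 6 * Real.exp m * Real.exp N * Real.exp q * Real.exp (3 * n) := by
          have := ea m
          have := ea N
          have := ea q
          gcongr
      _ = Real.exp (6 + m + N + q + 3 * n) := by
          rw [← Real.exp_add, ← Real.exp_add, ← Real.exp_add, ← Real.exp_add]
  have hrhs : (1 / (100 * (m : ℝ) * N) * (1 / (3 * q * F))) ^ 2 = 1 / D ^ 2 := by
    rw [hD]
    field_simp
  rw [hrhs, le_div_iff₀ (by positivity)]
  have hlin : -(t : ℝ) + (2 + 3 * n + m) + 2 * (6 + m + N + q + 3 * n) ≤ 0 := by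
    rw [ht]
    push_cast
    nlinarith [mul_nonneg (by linarith : (0 : ℝ) ≤ q - 2) (by linarith : (0 : ℝ) ≤ (n : ℝ) + m + N)]
  calc (1 - 1 / (R : ℝ)) ^ (R * t) * (3 * F * 2 ^ m) * D ^ 2
      ≤ Real.exp (-(t : ℝ)) * (Real.exp 2 * Real.exp (3 * n) * Real.exp m) *
        (Real.exp (6 + m + N + q + 3 * n)) ^ 2 := by
        gcongr
    _ = Real.exp (-(t : ℝ) + (2 + 3 * n + m) + 2 * (6 + m + N + q + 3 * n)) := by
        rw [← Real.exp_nat_mul, ← Real.exp_add, ← Real.exp_add, ← Real.exp_add, ← Real.exp_add]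
        congr 1
    _ ≤ 1 := Real.exp_le_one_iff.mpr hlin

/-- the number of samples suffices -/
theorem numB_s (m n N q D : ℕ) (hm : 1 ≤ m) (hN : 1 ≤ N) (hq : 2 ≤ q) (hD : 1 ≤ D) (μ : ℝ)
    (hμ : 99 / 100 * (1 / (3 * q * (D : ℝ))) ≤ μ) :
    8 * (m : ℝ) * (D + 1) ≤ (1 / (100 * m * N)) ^ 2 *
      (((2 ^ 20 * q * D ^ 2 * (n + m + N + 2) ^ 5 : ℕ) : ℝ) * μ) := by
  have hm' : (1 : ℝ) ≤ m := by exact_mod_cast hm
  have hN' : (1 : ℝ) ≤ N := by exact_mod_cast hN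
  have hq' : (2 : ℝ) ≤ q := by exact_mod_cast hq
  have hD' : (1 : ℝ) ≤ D := by exact_mod_cast hD
  have hn' : (0 : ℝ) ≤ n := Nat.cast_nonneg n
  have h1 : (m : ℝ) ^ 3 * (N : ℝ) ^ 2 ≤ ((n : ℝ) + m + N + 2) ^ 5 := by
    calc (m : ℝ) ^ 3 * (N : ℝ) ^ 2
        ≤ ((n : ℝ) + m + N + 2) ^ 3 * ((n : ℝ) + m + N + 2) ^ 2 := by
          gcongr <;> linarith
      _ = ((n : ℝ) + m + N + 2) ^ 5 := by ring
  have h2 : (1 / (100 * (m : ℝ) * N)) ^ 2 *
      (((2 ^ 20 * q * D ^ 2 * (n + m + N + 2) ^ 5 : ℕ) : ℝ) *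
        (99 / 100 * (1 / (3 * q * (D : ℝ))))) ≤
      (1 / (100 * m * N)) ^ 2 *
      (((2 ^ 20 * q * D ^ 2 * (n + m + N + 2) ^ 5 : ℕ) : ℝ) * μ) := by
    gcongr
  refine le_trans ?_ h2
  push_cast
  have h3 : (1 / (100 * (m : ℝ) * N)) ^ 2 *
      (1048576 * (q : ℝ) * D ^ 2 * ((n : ℝ) + m + N + 2) ^ 5 *
        (99 / 100 * (1 / (3 * q * (D : ℝ))))) =
      (1048576 * (99 / 100) / 30000 * D * ((n : ℝ) + m + N + 2) ^ 5) /
        ((m : ℝ) ^ 2 * (N : ℝ) ^ 2) := by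
    field_simp
    ring
  rw [h3, le_div_iff₀ (by positivity)]
  have h4 : 8 * (m : ℝ) * (D + 1) * ((m : ℝ) ^ 2 * (N : ℝ) ^ 2) =
      8 * (D + 1) * ((m : ℝ) ^ 3 * (N : ℝ) ^ 2) := by ring
  rw [h4]
  have h5 : (0 : ℝ) ≤ ((n : ℝ) + m + N + 2) ^ 5 := by positivity
  calc 8 * ((D : ℝ) + 1) * ((m : ℝ) ^ 3 * (N : ℝ) ^ 2)
      ≤ 8 * ((D : ℝ) + D) * ((n : ℝ) + m + N + 2) ^ 5 := by gcongr
    _ = 16 * D * ((n : ℝ) + m + N + 2) ^ 5 := by ring
    _ ≤ 1048576 * (99 / 100) / 30000 * D * ((n : ℝ) + m + N + 2) ^ 5 := by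
        gcongr
        norm_num

/-- rounding of the class weights: `V` is an estimate of `s v`, `v = g Z / S` -/
theorem numB_size (m N : ℕ) (hm : 1 ≤ m) (hN : 1 ≤ N) (s : ℝ) (hs : 0 < s) (V M : ℕ) (v : ℝ)
    (hv : 0 < v) (hV : Near (1 / (40 * m * N)) s V v) (hM : Nat.size V ≤ M) :
    2 ^ M / (2 * (1 + 1 / 40) * s) ≤ (2 : ℝ) ^ (M - Nat.size V) * v ∧
      (2 : ℝ) ^ (M - Nat.size V) * v ≤ 3 * (2 ^ M / (2 * (1 + 1 / 40) * s)) := by
  have hm' : (1 : ℝ) ≤ m := by exact_mod_cast hm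
  have hN' : (1 : ℝ) ≤ N := by exact_mod_cast hN
  have hmN : (1 : ℝ) ≤ m * N := by nlinarith
  obtain ⟨ε, hε⟩ : ∃ ε : ℝ, ε = 1 / (40 * m * N) := ⟨_, rfl⟩
  have hε1 : ε ≤ 1 / 40 := by
    rw [hε]
    apply one_div_le_one_div_of_le (by norm_num)
    nlinarith
  have hε0 : 0 < ε := by rw [hε]; positivity
  rw [← hε] at hV
  obtain ⟨hV1, hV2⟩ := hV
  have hsv : 0 < s * v := by positivity
  have hV0 : (0 : ℝ) < V := lt_of_lt_of_le (mul_pos (by linarith) hsv) hV1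
  have hVn : 0 < V := by exact_mod_cast hV0
  have hz0 : 0 < Nat.size V := Nat.size_pos.2 hVn
  have hlt : (V : ℝ) < 2 ^ Nat.size V := by exact_mod_cast Nat.lt_size_self V
  have hle : (2 : ℝ) ^ Nat.size V ≤ 2 * V := by
    have h2 : 2 ^ (Nat.size V - 1) ≤ V := Nat.lt_size.1 (Nat.sub_lt hz0 one_pos)
    have h3 : 2 ^ Nat.size V ≤ 2 * V := by
      have h4 : Nat.size V = (Nat.size V - 1) + 1 := by omega
      rw [h4, pow_succ]
      omega
    exact_mod_cast h3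
  have hpow : (2 : ℝ) ^ M = 2 ^ (M - Nat.size V) * 2 ^ Nat.size V := by
    rw [← pow_add, Nat.sub_add_cancel hM]
  have hP : (0 : ℝ) < 2 ^ (M - Nat.size V) := by positivity
  have hZ : (0 : ℝ) < 2 ^ Nat.size V := by positivity
  rw [hpow]
  constructor
  · rw [div_le_iff₀ (by positivity)]
    have h5 : (2 : ℝ) ^ Nat.size V ≤ v * (2 * (1 + 1 / 40) * s) := by
      calc (2 : ℝ) ^ Nat.size V ≤ 2 * V := hle
        _ ≤ 2 * ((1 + ε) * (s * v)) := by linarith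
        _ ≤ 2 * ((1 + 1 / 40) * (s * v)) := by
            have := mul_le_mul_of_nonneg_right (by linarith : 1 + ε ≤ 1 + 1 / 40) hsv.le
            linarith
        _ = v * (2 * (1 + 1 / 40) * s) := by ring
    calc (2 : ℝ) ^ (M - Nat.size V) * 2 ^ Nat.size V ≤
          2 ^ (M - Nat.size V) * (v * (2 * (1 + 1 / 40) * s)) :=
          mul_le_mul_of_nonneg_left h5 hP.le
      _ = _ := by ring
  · rw [← mul_div_assoc, le_div_iff₀ (by positivity)]
    have h6 : v * (2 * (1 + 1 / 40) * s) ≤ 3 * 2 ^ Nat.size V := by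
      have h7 : (1 - 1 / 40) * (s * v) ≤ (1 - ε) * (s * v) :=
        mul_le_mul_of_nonneg_right (by linarith) hsv.le
      nlinarith
    calc (2 : ℝ) ^ (M - Nat.size V) * v * (2 * (1 + 1 / 40) * s) =
          2 ^ (M - Nat.size V) * (v * (2 * (1 + 1 / 40) * s)) := by ring
      _ ≤ 2 ^ (M - Nat.size V) * (3 * 2 ^ Nat.size V) := mul_le_mul_of_nonneg_left h6 hP.le
      _ = _ := by ring

end Pool.Agent.Lib.H2
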