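import Pool.Agent.Lib.MP_3493b8_lc.O.Cls
import Pool.Agent.Lib.MP_3493b8_lc.O.Step
import Pool.Agent.Lib.MP_3493b8_lc.Sem2

/-! The numeric chain of the third algorithm. -/

set_option autoImplicit false

open Finset

namespace Pool.Agent.Lib.H2

open Pool.Agent.Lib.PTC

private theorem run_itr_congr {τ : Type} (f g : ℕ → τ → τ) (s : τ) (t : ℕ)
    (h : ∀ i < t, f i = g i) : itr f s t = itr g s t := by
  induction t with
  | zero => rfl
  | succ t ih =>
    change f t (itr f s t) = g t (itr g s t)
    rw [ih fun i hi => h i (by omega), h t (by omega)]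

private theorem run_sum_split (F : ℕ → ℝ) (M k : ℕ) :
    ∑ r ∈ range (M * k), F r = ∑ d ∈ range k, ∑ r ∈ range M, F (M * d + r) := by
  induction k with
  | zero => simp
  | succ k ih => rw [Nat.mul_succ, sum_range_add, ih, sum_range_succ]

private theorem run_digs_low {b : ℕ} (hb : 0 < b) {t i : ℕ} (hi : i < t) (d r : ℕ) :
    digs b (b ^ t * d + r) i = digs b r i := by
  unfold digs
  obtain ⟨k, rfl⟩ : ∃ k, t = i + (k + 1) := ⟨t - i - 1, by omega⟩
  have h1 : b ^ (i + (k + 1)) * d + r = r + b ^ i * (b ^ (k + 1) * d) := by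
    rw [pow_add]
    ring
  rw [h1, Nat.add_mul_div_left _ _ (pow_pos hb i)]
  have h2 : b ^ (k + 1) * d = b * (b ^ k * d) := by
    rw [pow_succ]
    ring
  rw [h2, Nat.add_mul_mod_self_left]

private theorem run_digs_top {b : ℕ} (hb : 0 < b) {t d r : ℕ} (hr : r < b ^ t) (hd : d < b) :
    digs b (b ^ t * d + r) t = d := by
  unfold digs
  rw [Nat.mul_add_div (pow_pos hb t), Nat.div_eq_of_lt hr, add_zero, Nat.mod_eq_of_lt hd]

namespace MGraph

variable (G : MGraph) (N : ℕ)

/-- the class exponents coded by the table `W` -/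
def tab (q W : ℕ) (y : Fin G.n → ZMod 2) : ℕ := aW (G.code N) q W (G.vm y)

private theorem run_mem (A : ℕ) (i : Fin G.m) : i ∉ G.eset A ↔ A.testBit i.val = false := by
  unfold eset
  rw [mem_filter]
  cases h : A.testBit i.val <;> simp

theorem stepB_code (p q W j d A : ℕ) :
    G.eset (stepB (G.code N) p q W j d A) =
      G.stepT G.oddT (G.tab N q W) p q (Nat.size (3 * q)) j (kE (G.code N)) d (G.eset A) := by
  classical
  unfold stepB stepT
  rw [mm_code]
  by_cases h : d % kE (G.code N) < G.m
  · have e1 := G.eset_tog A (⟨d % kE (G.code N), h⟩ : Fin G.m)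
    simp only at e1
    have e4 := G.run_mem A (⟨d % kE (G.code N), h⟩ : Fin G.m)
    have e5 : (if A.testBit (d % kE (G.code N)) = false ∧ d % kE (G.code N) < j then p else q) =
        (if (⟨d % kE (G.code N), h⟩ : Fin G.m) ∉ G.eset A ∧ d % kE (G.code N) < j then p else q) := by
      by_cases h4 : A.testBit (d % kE (G.code N)) = false ∧ d % kE (G.code N) < j
      · rw [if_pos h4, if_pos ⟨e4.2 h4.1, h4.2⟩]
      · rw [if_neg h4, if_neg fun h5 => h4 ⟨e4.1 h5.1, h5.2⟩]
    have e6 : mkT (G.code N) A = G.vm (G.bd (G.eset A)) := G.mkT_vm N A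
    have e7 : mkT (G.code N) (tog A (d % kE (G.code N))) =
        G.vm (G.bd (symmDiff (G.eset A) {(⟨d % kE (G.code N), h⟩ : Fin G.m)})) := by
      rw [mkT_vm, e1]
    have e8 := G.outc_code N (G.bd (symmDiff (G.eset A) {(⟨d % kE (G.code N), h⟩ : Fin G.m)}))
    rw [dif_pos h, e5, e6, e7, e8]
    unfold tab
    by_cases hc : (G.supp (G.bd (symmDiff (G.eset A) {(⟨d % kE (G.code N), h⟩ : Fin G.m)})) \
          G.oddT).card ≤ 2 ∧
        d / kE (G.code N) * 2 ^ (aW (G.code N) q W (G.vm (G.bd (G.eset A))) -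
          aW (G.code N) q W (G.vm (G.bd (symmDiff (G.eset A)
            {(⟨d % kE (G.code N), h⟩ : Fin G.m)})))) <
          (if (⟨d % kE (G.code N), h⟩ : Fin G.m) ∉ G.eset A ∧ d % kE (G.code N) < j then p else q) *
            2 ^ Nat.size (3 * q)
    · rw [if_pos hc, if_pos ⟨h, hc⟩, e1]
    · rw [if_neg hc, if_neg fun h5 => hc h5.2]
  · rw [dif_neg h, if_neg fun h5 => h h5.1]

private theorem run_step_fam (p q W j d A : ℕ) (hA : G.bd (G.eset A) ∈ G.famY G.oddT) :
    G.bd (G.eset (stepB (G.code N) p q W j d A)) ∈ G.famY G.oddT := by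
  rw [stepB_code]
  unfold stepT
  split_ifs with h1 h2 h2 h2
  all_goals first
    | exact hA
    | (unfold famY
       rw [mem_filter]
       exact ⟨mem_univ _, h2.1⟩)

/-- the samples stay in the family -/
theorem runB_fam (p q W j t r : ℕ) :
    G.bd (G.eset (runB (G.code N) p q W j t r)) ∈ G.famY G.oddT := by
  unfold runB
  generalize (fun i => digs (bB (G.code N) q) r i) = dg
  induction t with
  | zero =>
    change G.bd (G.eset 0) ∈ _
    have h0 : G.eset 0 = ∅ := by
      rw [Finset.eq_empty_iff_forall_notMem]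
      intro i hi
      unfold eset at hi
      rw [mem_filter, Nat.zero_testBit] at hi
      exact Bool.false_ne_true hi.2
    rw [h0, G.bd_empty]
    exact G.zero_famY _
  | succ t ih => exact G.run_step_fam N p q W j _ _ ih

/-- averages over the random numbers of one run -/
theorem runB_avg (p q W j t : ℕ) (f : Finset (Fin G.m) → ℝ) :
    (∑ r ∈ range (bB (G.code N) q ^ t), f (G.eset (runB (G.code N) p q W j t r))) /
        ((bB (G.code N) q ^ t : ℕ) : ℝ) =
      avgIt (fun (d : Fin (kE (G.code N) * (kU q * 2 ^ Nat.size (3 * q)))) B =>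
        G.stepT G.oddT (G.tab N q W) p q (Nat.size (3 * q)) j (kE (G.code N)) d B) f t ∅ := by
  have hb : 0 < bB (G.code N) q := by
    unfold bB kE kU
    positivity
  have hbR : (0 : ℝ) < ((bB (G.code N) q : ℕ) : ℝ) := by exact_mod_cast hb
  induction t generalizing f with
  | zero =>
    have h0 : G.eset 0 = ∅ := by
      rw [Finset.eq_empty_iff_forall_notMem]
      intro i hi
      unfold eset at hi
      rw [mem_filter, Nat.zero_testBit] at hi
      exact Bool.false_ne_true hi.2
    rw [pow_zero, sum_range_one, Nat.cast_one, div_one]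
    change f (G.eset 0) = f ∅
    rw [h0]
  | succ t ih =>
    have h1 : avgIt (fun (d : Fin (kE (G.code N) * (kU q * 2 ^ Nat.size (3 * q)))) B =>
        G.stepT G.oddT (G.tab N q W) p q (Nat.size (3 * q)) j (kE (G.code N)) d B) f (t + 1) =
        avgIt (fun (d : Fin (kE (G.code N) * (kU q * 2 ^ Nat.size (3 * q)))) B =>
          G.stepT G.oddT (G.tab N q W) p q (Nat.size (3 * q)) j (kE (G.code N)) d B)
          (avgOp (fun (d : Fin (kE (G.code N) * (kU q * 2 ^ Nat.size (3 * q)))) B =>
            G.stepT G.oddT (G.tab N q W) p q (Nat.size (3 * q)) j (kE (G.code N)) d B) f) t := by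
      unfold avgIt
      rw [Function.iterate_succ_apply]
    rw [h1, ← ih]
    have hrun : ∀ d < bB (G.code N) q, ∀ r < bB (G.code N) q ^ t,
        runB (G.code N) p q W j (t + 1) (bB (G.code N) q ^ t * d + r) =
          stepB (G.code N) p q W j d (runB (G.code N) p q W j t r) := by
      intro d hd r hr
      unfold runB
      change stepB (G.code N) p q W j
        (digs (bB (G.code N) q) (bB (G.code N) q ^ t * d + r) t)
        (itr _ 0 t) = _
      rw [run_digs_top hb hr hd]
      congr 1
      refine run_itr_congr _ _ _ _ fun i hi => ?_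
      funext B
      rw [run_digs_low hb hi]
    have hsum : ∑ r ∈ range (bB (G.code N) q ^ (t + 1)),
        f (G.eset (runB (G.code N) p q W j (t + 1) r)) =
        ∑ r ∈ range (bB (G.code N) q ^ t), ((bB (G.code N) q : ℕ) : ℝ) *
          avgOp (fun (d : Fin (kE (G.code N) * (kU q * 2 ^ Nat.size (3 * q)))) B =>
            G.stepT G.oddT (G.tab N q W) p q (Nat.size (3 * q)) j (kE (G.code N)) d B) f
            (G.eset (runB (G.code N) p q W j t r)) := by
      rw [pow_succ, run_sum_split, sum_comm]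
      refine sum_congr rfl fun r hr => ?_
      unfold avgOp
      rw [Fintype.card_fin]
      change _ = ((bB (G.code N) q : ℕ) : ℝ) * (_ / ((bB (G.code N) q : ℕ) : ℝ))
      rw [mul_div_cancel₀ _ hbR.ne',
        ← Fin.sum_univ_eq_sum_range (fun d => f (G.eset (runB (G.code N) p q W j (t + 1)
          (bB (G.code N) q ^ t * d + r))))]
      refine sum_congr rfl fun d _ => ?_
      rw [hrun d.val d.isLt r (mem_range.1 hr), stepB_code]
    have h2 : ((bB (G.code N) q ^ (t + 1) : ℕ) : ℝ) =
        ((bB (G.code N) q : ℕ) : ℝ) * ((bB (G.code N) q ^ t : ℕ) : ℝ) := by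
      rw [pow_succ, Nat.cast_mul, mul_comm]
    rw [hsum, ← mul_sum, h2, mul_div_mul_left _ _ hbR.ne']

end MGraph

end Pool.Agent.Lib.H2
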