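import Pool.Agent.Lib.MP_3493b8_lc.O.Run
import Pool.Agent.Lib.MP_3493b8_lc.O.Mix
import Pool.Agent.Lib.MP_3493b8_lc.O.Num

/-! One stage of the third algorithm: definitions and means. -/

set_option autoImplicit false

open Finset

namespace Pool.Agent.Lib.H2

open Pool.Agent.Lib.PTC

namespace MGraph

variable (G : MGraph) (N p q : ℕ)

/-- the exact mean of an observable in stage `j` with the table `W` -/
noncomputable def mnB (W j : ℕ) (f : Finset (Fin G.m) → ℝ) : ℝ :=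
  (∑ B, G.nuT G.oddT (G.tab N q W) p q j B * f B) / (∑ B, G.nuT G.oddT (G.tab N q W) p q j B)

/-- the sum over the samples of an observable -/
noncomputable def spB (W j ω : ℕ) (f : Finset (Fin G.m) → ℝ) : ℝ :=
  ∑ i ∈ range (sB (G.code N) q), f (G.eset (smB (G.code N) p q W j ω i))

/-- the table `W` is fine in stage `j` -/
def FineW (W j : ℕ) : Prop := G.Fine G.oddT (G.tab N q W) (G.wj ((p : ℝ) / q) j)

/-- The random number `ω` is good for the stage `j` with the table `W`. -/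
def GoodStg (W : ℕ) (j : Fin G.m) (ω : ℕ) : Prop :=
  (∀ y ∈ G.famY G.oddT, G.Zs ∅ (fun _ => 1) y ≠ 0 →
    Near (1 / (40 * G.m * N)) (sB (G.code N) q) (G.spB N p q W j ω (G.obsV y ((p : ℝ) / q) j))
      (G.mnB N p q W j (G.obsV y ((p : ℝ) / q) j))) ∧
  Near (1 / (40 * G.m * N)) (sB (G.code N) q) (G.spB N p q W j ω (G.obsU (G.bd univ)))
      (G.mnB N p q W j (G.obsU (G.bd univ)))

private theorem stg_nu (T : Finset (Fin G.n)) (a : (Fin G.n → ZMod 2) → ℕ) (j : ℕ)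
    (B : Finset (Fin G.m)) :
    G.nuT T a p q j B = if G.bd B ∈ G.famY T then
      (∏ i ∈ B, G.wj ((p : ℝ) / q) j i) * 2 ^ a (G.bd B) else 0 := by
  unfold nuT Sys.nu Sys.wt sysT
  simp only [subset_univ, true_and, add_zero]

private theorem stg_w {p q : ℕ} (hp : 0 < p) (hpq : p < q) (j : ℕ) (i : Fin G.m) :
    0 < G.wj ((p : ℝ) / q) j i := by
  have hq : (0 : ℝ) < q := by exact_mod_cast hp.trans hpq
  have hp1 : (0 : ℝ) < p := by exact_mod_cast hp
  unfold wj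
  split_ifs with h
  · exact div_pos hp1 hq
  · exact zero_lt_one

private theorem stg_succ (p q : ℕ) (j : Fin G.m) (hp : 0 < p) (hpq : p < q)
    (y : Fin G.n → ZMod 2) : G.Zs ∅ (G.wj ((p : ℝ) / q) j) y ≤
      q * G.Zs ∅ (G.wj ((p : ℝ) / q) (j + 1)) y := by
  have hq : (0 : ℝ) < q := by exact_mod_cast hp.trans hpq
  have hp1 : (1 : ℝ) ≤ p := by exact_mod_cast hp
  have hq1 : (1 : ℝ) ≤ q := by exact_mod_cast hp.trans hpq
  rw [G.Zs_wj_succ, mul_sum]
  unfold Zs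
  refine sum_le_sum fun A _ => ?_
  by_cases h : Disjoint A ∅ ∧ G.bd A = y
  · rw [if_pos h, if_pos h]
    have h0 : 0 ≤ ∏ i ∈ A, G.wj ((p : ℝ) / q) j i :=
      prod_nonneg fun i _ => (G.stg_w hp hpq j i).le
    have h1 : (1 : ℝ) ≤ q * (if j ∈ A then (p : ℝ) / q else 1) := by
      split_ifs
      · rw [mul_div_cancel₀ _ hq.ne']
        exact hp1
      · rw [mul_one]
        exact hq1
    calc ∏ i ∈ A, G.wj ((p : ℝ) / q) j i
        ≤ (∏ i ∈ A, G.wj ((p : ℝ) / q) j i) * (q * (if j ∈ A then (p : ℝ) / q else 1)) :=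
          le_mul_of_one_le_right h0 h1
      _ = q * ((∏ i ∈ A, G.wj ((p : ℝ) / q) j i) * (if j ∈ A then (p : ℝ) / q else 1)) := by ring
  · rw [if_neg h, if_neg h, mul_zero]

private theorem stg_U (T : Finset (Fin G.n)) (a : (Fin G.n → ZMod 2) → ℕ) (j : ℕ)
    (y : Fin G.n → ZMod 2) (hy : y ∈ G.famY T) :
    ∑ B, G.nuT T a p q j B * G.obsU y B = 2 ^ a y * G.Zs ∅ (G.wj ((p : ℝ) / q) j) y := by
  unfold Zs
  rw [mul_sum]
  refine sum_congr rfl fun B _ => ?_
  rw [G.stg_nu]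
  unfold obsU
  by_cases hB : G.bd B = y
  · have hy' : G.bd B ∈ G.famY T := by rw [hB]; exact hy
    have hc : Disjoint B ∅ ∧ G.bd B = y := ⟨disjoint_empty_right B, hB⟩
    rw [if_pos hy', if_pos hB, if_pos hc, hB]
    ring
  · have hc : ¬ (Disjoint B ∅ ∧ G.bd B = y) := fun h => hB h.2
    rw [if_neg hB, if_neg hc, mul_zero, mul_zero]

private theorem stg_V (T : Finset (Fin G.n)) (a : (Fin G.n → ZMod 2) → ℕ) (j : Fin G.m)
    (y : Fin G.n → ZMod 2) (hy : y ∈ G.famY T) :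
    ∑ B, G.nuT T a p q j B * G.obsV y ((p : ℝ) / q) j B =
      2 ^ a y * G.Zs ∅ (G.wj ((p : ℝ) / q) (j + 1)) y := by
  rw [G.Zs_wj_succ, mul_sum]
  refine sum_congr rfl fun B _ => ?_
  rw [G.stg_nu]
  unfold obsV
  by_cases hB : G.bd B = y
  · have hy' : G.bd B ∈ G.famY T := by rw [hB]; exact hy
    have hc : Disjoint B ∅ ∧ G.bd B = y := ⟨disjoint_empty_right B, hB⟩
    rw [if_pos hy', if_pos hB, if_pos hc, hB]
    ring
  · have hc : ¬ (Disjoint B ∅ ∧ G.bd B = y) := fun h => hB h.2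
    rw [if_neg hB, if_neg hc, mul_zero, mul_zero]

private theorem stg_mem (A : ℕ) (j : Fin G.m) : j ∈ G.eset A ↔ A.testBit j = true := by
  unfold eset
  rw [mem_filter]
  exact ⟨fun h => h.2, fun h => ⟨mem_univ _, h⟩⟩

private theorem stg_idx (W j ω i : ℕ) (y : Fin G.n → ZMod 2) (hy : y ∈ G.famY G.oddT) :
    idx (G.code N) (mkT (G.code N) (smB (G.code N) p q W j ω i)) = idx (G.code N) (G.vm y) ↔
      G.bd (G.eset (smB (G.code N) p q W j ω i)) = y := by
  rw [G.mkT_vm N]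
  constructor
  · intro h
    exact G.idx_inj N (G.runB_fam N p q W j _ _) hy h
  · intro h
    rw [h]

/-- classes are solvable independently of the weights -/
theorem Zs_ne_iff (w : Fin G.m → ℝ) (hw : ∀ i, 0 < w i) (y : Fin G.n → ZMod 2) :
    G.Zs ∅ w y ≠ 0 ↔ ∃ A, G.bd A = y := by
  constructor
  · intro h
    by_contra hcon
    apply h
    unfold Zs
    refine sum_eq_zero fun A _ => ?_
    rw [if_neg (fun h2 => hcon ⟨A, h2.2⟩)]
  · rintro ⟨A, rfl⟩
    exact (G.Zs_pos ∅ w hw A (disjoint_empty_right A)).ne'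

private theorem stg_pos (T : Finset (Fin G.n)) (a : (Fin G.n → ZMod 2) → ℕ) (j : ℕ) :
    0 < ∑ B, G.nuT T a p q j B := by
  refine sum_pos' (fun B _ => G.nuT_nonneg T a p q j B) ⟨∅, mem_univ _, ?_⟩
  rw [G.stg_nu, G.bd_empty, if_pos (G.zero_famY T), prod_empty, one_mul]
  positivity

private theorem stg_share (W j : ℕ) (hp : 0 < p) (hpq : p < q) (hF : G.FineW N p q W j)
    (y : Fin G.n → ZMod 2) (hy : y ∈ G.famY G.oddT) (hs : ∃ A, G.bd A = y) :
    ∑ B, G.nuT G.oddT (G.tab N q W) p q j B ≤ 3 * (DD (G.code N) : ℝ) *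
      (2 ^ G.tab N q W y * G.Zs ∅ (G.wj ((p : ℝ) / q) j) y) := by
  have h1 := G.fine_share G.oddT (G.tab N q W) p q j hp hpq hF y hy
    ((G.Zs_ne_iff _ (G.stg_w hp hpq j) y).2 hs)
  have h2 : ((DD (G.code N) : ℕ) : ℝ) = 2 ^ G.oddT.card * ((G.n : ℝ) + 1) ^ 2 := by
    rw [G.DD_code N]
    push_cast
    ring
  rw [h2]
  exact h1

/-- the mean of the first observable -/
theorem mnB_U (W j : ℕ) (hp : 0 < p) (hpq : p < q) (hF : G.FineW N p q W j)
    (y : Fin G.n → ZMod 2) (hy : y ∈ G.famY G.oddT) (hs : ∃ A, G.bd A = y) :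
    G.mnB N p q W j (G.obsU y) = 2 ^ G.tab N q W y * G.Zs ∅ (G.wj ((p : ℝ) / q) j) y /
      (∑ B, G.nuT G.oddT (G.tab N q W) p q j B) ∧
    1 / (3 * q * (DD (G.code N) : ℝ)) ≤ G.mnB N p q W j (G.obsU y) := by
  have he : G.mnB N p q W j (G.obsU y) = 2 ^ G.tab N q W y * G.Zs ∅ (G.wj ((p : ℝ) / q) j) y /
      (∑ B, G.nuT G.oddT (G.tab N q W) p q j B) := by
    unfold mnB
    rw [G.stg_U p q _ _ j y hy]
  refine ⟨he, ?_⟩
  have hS := G.stg_pos p q G.oddT (G.tab N q W) j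
  have h1 := G.stg_share N p q W j hp hpq hF y hy hs
  have hq1 : (1 : ℝ) ≤ q := by exact_mod_cast hp.trans hpq
  have hD : (0 : ℝ) < (DD (G.code N) : ℝ) := by
    rw [G.DD_code N]
    positivity
  have hZ : 0 ≤ 2 ^ G.tab N q W y * G.Zs ∅ (G.wj ((p : ℝ) / q) j) y :=
    mul_nonneg (by positivity) (G.Zs_nonneg ∅ _ (fun i => (G.stg_w hp hpq j i).le) y)
  rw [he, div_le_div_iff₀ (by positivity) hS, one_mul]
  refine h1.trans ?_
  have h2 : 3 * (DD (G.code N) : ℝ) * (2 ^ G.tab N q W y * G.Zs ∅ (G.wj ((p : ℝ) / q) j) y) ≤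
      q * (3 * (DD (G.code N) : ℝ) *
        (2 ^ G.tab N q W y * G.Zs ∅ (G.wj ((p : ℝ) / q) j) y)) :=
    le_mul_of_one_le_left (mul_nonneg (by positivity) hZ) hq1
  refine h2.trans (le_of_eq ?_)
  ring

/-- the mean of the second observable -/
theorem mnB_V (W : ℕ) (j : Fin G.m) (hp : 0 < p) (hpq : p < q) (hF : G.FineW N p q W j)
    (y : Fin G.n → ZMod 2) (hy : y ∈ G.famY G.oddT) (hs : ∃ A, G.bd A = y) :
    G.mnB N p q W j (G.obsV y ((p : ℝ) / q) j) =
      2 ^ G.tab N q W y * G.Zs ∅ (G.wj ((p : ℝ) / q) (j + 1)) y /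
      (∑ B, G.nuT G.oddT (G.tab N q W) p q j B) ∧
    1 / (3 * q * (DD (G.code N) : ℝ)) ≤ G.mnB N p q W j (G.obsV y ((p : ℝ) / q) j) := by
  have he : G.mnB N p q W j (G.obsV y ((p : ℝ) / q) j) =
      2 ^ G.tab N q W y * G.Zs ∅ (G.wj ((p : ℝ) / q) (j + 1)) y /
      (∑ B, G.nuT G.oddT (G.tab N q W) p q j B) := by
    unfold mnB
    rw [G.stg_V p q _ _ j y hy]
  refine ⟨he, ?_⟩
  have hS := G.stg_pos p q G.oddT (G.tab N q W) j
  have h1 := G.stg_share N p q W j hp hpq hF y hy hs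
  have hq0 : (0 : ℝ) < q := by exact_mod_cast hp.trans hpq
  have hD : (0 : ℝ) < (DD (G.code N) : ℝ) := by
    rw [G.DD_code N]
    positivity
  rw [he, div_le_div_iff₀ (by positivity) hS, one_mul]
  refine h1.trans ?_
  have h2 := mul_le_mul_of_nonneg_left (G.stg_succ p q j hp hpq y)
    (by positivity : (0 : ℝ) ≤ 3 * (DD (G.code N) : ℝ) * 2 ^ G.tab N q W y)
  calc 3 * (DD (G.code N) : ℝ) * (2 ^ G.tab N q W y * G.Zs ∅ (G.wj ((p : ℝ) / q) j) y)
      = 3 * (DD (G.code N) : ℝ) * 2 ^ G.tab N q W y * G.Zs ∅ (G.wj ((p : ℝ) / q) j) y := by ring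
    _ ≤ _ := h2
    _ = _ := by ring

/-- the total weight is positive -/
theorem nuT_sum_pos (W j : ℕ) (hp : 0 < p) (hpq : p < q) :
    0 < ∑ B, G.nuT G.oddT (G.tab N q W) p q j B :=
  G.stg_pos p q G.oddT (G.tab N q W) j

/-- the counts of the algorithm in terms of the samples -/
theorem valB_code (W : ℕ) (j : Fin G.m) (ω : ℕ) (hp : 0 < p) (hpq : p < q)
    (y : Fin G.n → ZMod 2) (hy : y ∈ G.famY G.oddT) :
    ((valB (G.code N) p q W j ω (idx (G.code N) (G.vm y)) : ℕ) : ℝ) =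
      q * G.spB N p q W j ω (G.obsV y ((p : ℝ) / q) j) := by
  have hq : (q : ℝ) ≠ 0 := Nat.cast_ne_zero.2 (by omega)
  unfold valB spB
  rw [Nat.cast_sum, mul_sum]
  refine sum_congr rfl fun i _ => ?_
  unfold obsV
  by_cases h : G.bd (G.eset (smB (G.code N) p q W j ω i)) = y
  · rw [if_pos ((G.stg_idx N p q W j ω i y hy).2 h), if_pos h]
    by_cases hj : (smB (G.code N) p q W j ω i).testBit j = true
    · rw [if_pos hj, if_pos ((G.stg_mem _ j).2 hj), mul_div_cancel₀ _ hq]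
    · rw [if_neg hj, if_neg (fun h2 => hj ((G.stg_mem _ j).1 h2)), mul_one]
  · rw [if_neg (fun h2 => h ((G.stg_idx N p q W j ω i y hy).1 h2)), if_neg h, mul_zero,
      Nat.cast_zero]

theorem cntL_code (W j ω : ℕ) (y : Fin G.n → ZMod 2) (hy : y ∈ G.famY G.oddT) :
    ((cntL (G.code N) p q W j ω (idx (G.code N) (G.vm y)) : ℕ) : ℝ) =
      G.spB N p q W j ω (G.obsU y) := by
  unfold cntL spB
  rw [Nat.cast_sum]
  refine sum_congr rfl fun i _ => ?_
  unfold obsU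
  by_cases h : G.bd (G.eset (smB (G.code N) p q W j ω i)) = y
  · rw [if_pos ((G.stg_idx N p q W j ω i y hy).2 h), if_pos h, Nat.cast_one]
  · rw [if_neg (fun h2 => h ((G.stg_idx N p q W j ω i y hy).1 h2)), if_neg h, Nat.cast_zero]

theorem valB_le (x : List ℤ) (W j ω l : ℕ) (hpq : p < q) :
    Nat.size (valB x p q W j ω l) ≤ MB x q := by
  unfold MB
  refine Nat.size_le_size ?_
  unfold valB
  have h1 : ∀ i ∈ range (sB x q), (if idx x (mkT x (smB x p q W j ω i)) = l then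
      (if (smB x p q W j ω i).testBit j = true then p else q) else 0) ≤ q := by
    intro i _
    split_ifs <;> omega
  refine (sum_le_card_nsmul _ _ _ h1).trans (le_of_eq ?_)
  rw [card_range, smul_eq_mul, mul_comm]

end MGraph

end Pool.Agent.Lib.H2
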