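import Pool.Agent.Lib.MP_3493b8_lc.O.Stage

/-! Few random numbers are bad in one stage. -/

set_option autoImplicit false

open Finset

namespace Pool.Agent.Lib.H2

open Pool.Agent.Lib.PTC

namespace MGraph

variable (G : MGraph) (N p q : ℕ)

private theorem sb_obsV (T : Fin G.n → ZMod 2) {l : ℝ} (h0 : 0 ≤ l) (h1 : l ≤ 1) (j : Fin G.m)
    (B : Finset (Fin G.m)) : 0 ≤ G.obsV T l j B ∧ G.obsV T l j B ≤ 1 := by
  unfold obsV
  split_ifs
  · exact ⟨h0, h1⟩
  · exact ⟨zero_le_one, le_rfl⟩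
  · exact ⟨le_rfl, zero_le_one⟩

private theorem sb_obsU (T : Fin G.n → ZMod 2) (B : Finset (Fin G.m)) :
    0 ≤ G.obsU T B ∧ G.obsU T B ≤ 1 := by
  unfold obsU
  split_ifs
  · exact ⟨zero_le_one, le_rfl⟩
  · exact ⟨le_rfl, zero_le_one⟩

private theorem sb_relax : tB (G.code N) q =
    G.relaxT (2 ^ G.oddT.card * (G.n + 1) ^ 2) (kE (G.code N)) (kU q) *
      (30 * q * (G.n + G.m + N + 2)) := by
  unfold tB relaxT S1
  rw [nn_code, mm_code, NN_code, G.DD_code N]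

private theorem sb_DD : (DD (G.code N) : ℝ) = 2 ^ G.oddT.card * ((G.n : ℝ) + 1) ^ 2 := by
  rw [G.DD_code N]
  push_cast
  ring

/-- the mean after `tB` steps -/
theorem mnB_near (W j : ℕ) (hp : 0 < p) (hpq : p < q) (hN : 1 ≤ N) (hm : 1 ≤ G.m)
    (hF : G.FineW N p q W j) (f : Finset (Fin G.m) → ℝ) (hf : ∀ B, 0 ≤ f B ∧ f B ≤ 1)
    (hμ : 1 / (3 * q * (DD (G.code N) : ℝ)) ≤ G.mnB N p q W j f) :
    |(∑ r ∈ range (bB (G.code N) q ^ tB (G.code N) q),
        f (G.eset (runB (G.code N) p q W j (tB (G.code N) q) r))) /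
          ((bB (G.code N) q ^ tB (G.code N) q : ℕ) : ℝ) -
      G.mnB N p q W j f| ≤ 1 / (100 * G.m * N) * G.mnB N p q W j f := by
  have hq : 2 ≤ q := by omega
  have hmR : (0 : ℝ) < G.m := by exact_mod_cast hm
  have hNR : (0 : ℝ) < N := by exact_mod_cast hN
  have hqR : (0 : ℝ) < q := by exact_mod_cast (show 0 < q by omega)
  have e1 := G.runB_avg N p q W j (tB (G.code N) q) f
  have hkE : G.m ≤ kE (G.code N) := by
    unfold kE
    rw [mm_code]
    exact (Nat.lt_size_self G.m).le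
  have hkE0 : 0 < kE (G.code N) := by
    unfold kE
    exact Nat.two_pow_pos _
  have hkU : 2 * q ≤ kU q := by
    unfold kU
    rw [pow_succ, mul_comm]
    exact Nat.mul_le_mul_right 2 (Nat.lt_size_self q).le
  have h1 := G.chainT_mix G.oddT (G.tab N q W) p q j (kE (G.code N)) (kU q) hp hpq hkE hkE0 hkU
    hF f (fun B => abs_le.2 ⟨by linarith [(hf B).1], (hf B).2⟩) (tB (G.code N) q)
  rw [← e1] at h1
  change (_ - G.mnB N p q W j f) ^ 2 ≤ _ at h1
  have hR : 1 ≤ G.relaxT (2 ^ G.oddT.card * (G.n + 1) ^ 2) (kE (G.code N)) (kU q) := by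
    unfold relaxT
    omega
  have hτ : G.oddT.card ≤ G.n := by
    have h := card_le_univ G.oddT
    rwa [Fintype.card_fin] at h
  have h2 := numB_mix G.m G.n N q G.oddT.card
    (G.relaxT (2 ^ G.oddT.card * (G.n + 1) ^ 2) (kE (G.code N)) (kU q)) hm hN hq hτ hR
  rw [← G.sb_relax N q, ← G.sb_DD N] at h2
  rw [← G.sb_DD N] at h1
  have hδ : (0 : ℝ) ≤ 1 / (100 * G.m * N) := by positivity
  have hc : (0 : ℝ) ≤ 1 / (3 * q * (DD (G.code N) : ℝ)) := by positivity
  exact (abs_le_of_sq_le_sq (h1.trans h2) (mul_nonneg hδ hc)).trans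
    (mul_le_mul_of_nonneg_left hμ hδ)

/-- Few random numbers give a bad estimate of one mean. -/
theorem few_badB (W j : ℕ) (hp : 0 < p) (hpq : p < q) (hN : 1 ≤ N) (hm : 1 ≤ G.m)
    (hF : G.FineW N p q W j) (f : Finset (Fin G.m) → ℝ) (hf : ∀ B, 0 ≤ f B ∧ f B ≤ 1)
    (hμ : 1 / (3 * q * (DD (G.code N) : ℝ)) ≤ G.mnB N p q W j f) :
    open Classical in
    (((range ((bB (G.code N) q ^ tB (G.code N) q) ^ sB (G.code N) q)).filter fun ω =>
      ¬ Near (1 / (40 * G.m * N)) (sB (G.code N) q) (G.spB N p q W j ω f)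
        (G.mnB N p q W j f)).card : ℝ) * (8 * G.m * (DD (G.code N) + 1)) ≤
      (((bB (G.code N) q ^ tB (G.code N) q) ^ sB (G.code N) q : ℕ) : ℝ) := by
  classical
  have hq : 2 ≤ q := by omega
  have hmR : (1 : ℝ) ≤ G.m := by exact_mod_cast hm
  have hNR : (1 : ℝ) ≤ N := by exact_mod_cast hN
  have hqR : (0 : ℝ) < q := by exact_mod_cast (show 0 < q by omega)
  have hnear := G.mnB_near N p q W j hp hpq hN hm hF f hf hμ
  obtain ⟨μ0, hμ0⟩ : ∃ μ0, μ0 = G.mnB N p q W j f := ⟨_, rfl⟩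
  have hs : sB (G.code N) q =
      2 ^ 20 * q * DD (G.code N) ^ 2 * (G.n + G.m + N + 2) ^ 5 := by
    unfold sB S1
    rw [nn_code, mm_code, NN_code]
  have hD : 1 ≤ DD (G.code N) := by
    rw [G.DD_code N]
    exact Nat.mul_pos (Nat.two_pow_pos _) (Nat.pow_pos (Nat.succ_pos _))
  obtain ⟨b, hb⟩ : ∃ b, b = bB (G.code N) q ^ tB (G.code N) q := ⟨_, rfl⟩
  have hb0 : 0 < b := by
    rw [hb]
    unfold bB kE kU
    positivity
  obtain ⟨s, hss⟩ : ∃ s, s = sB (G.code N) q := ⟨_, rfl⟩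
  obtain ⟨g, hg⟩ : ∃ g : Fin b → ℝ, ∀ d, g d = f (G.eset (runB (G.code N) p q W j
      (tB (G.code N) q) d)) := ⟨_, fun _ => rfl⟩
  have hg01 : ∀ d, 0 ≤ g d ∧ g d ≤ 1 := fun d => by
    rw [hg]
    exact hf _
  obtain ⟨μ, hμd⟩ : ∃ μ, μ = (∑ d, g d) / (Fintype.card (Fin b) : ℝ) := ⟨_, rfl⟩
  have hμe : μ = (∑ r ∈ range b, f (G.eset (runB (G.code N) p q W j
      (tB (G.code N) q) r))) / (b : ℝ) := by
    rw [hμd, Fintype.card_fin, Finset.sum_range]
    congr 1
    exact Finset.sum_congr rfl fun d _ => hg d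
  rw [← hb, ← hμe, ← hμ0] at hnear
  rw [← hμ0] at hμ ⊢
  have hDR : (1 : ℝ) ≤ (DD (G.code N) : ℝ) := by exact_mod_cast hD
  have hcp : (0 : ℝ) < 1 / (3 * q * (DD (G.code N) : ℝ)) := by
    positivity
  have hμ0p : 0 < μ0 := lt_of_lt_of_le hcp hμ
  have hδ : (0 : ℝ) < 1 / (100 * G.m * N) := by positivity
  have hδ1 : (1 : ℝ) / (100 * G.m * N) ≤ 1 / 100 := by
    refine one_div_le_one_div_of_le (by norm_num) ?_
    have h1 : (1 : ℝ) ≤ G.m * N := one_le_mul_of_one_le_of_one_le hmR hNR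
    linarith
  have hμl : 99 / 100 * (1 / (3 * q * (DD (G.code N) : ℝ))) ≤ μ := by
    have h1 := (abs_le.1 hnear).1
    have h2 : 1 / (100 * G.m * N) * μ0 ≤ 1 / 100 * μ0 := mul_le_mul_of_nonneg_right hδ1 hμ0p.le
    linarith
  have hnum := numB_s G.m G.n N q (DD (G.code N)) hm hN hq hD μ hμl
  rw [← hs, ← hss] at hnum
  have hne : Nonempty (Fin b) := ⟨⟨0, hb0⟩⟩
  have hI : (univ : Finset (Fin s)).card = s := by
    rw [card_univ, Fintype.card_fin]
  have hcheb := cheb s univ g hg01 μ hμd (1 / (100 * G.m * N)) hδ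
  rw [hI, Fintype.card_fin] at hcheb
  have hcount := count_digs b s hb0 (fun c : Fin s → Fin b =>
      1 / (100 * G.m * N) * ((s : ℝ) * μ) < |∑ i ∈ univ, g (c i) - (s : ℝ) * μ|)
    (fun ω => 1 / (100 * G.m * N) * ((s : ℝ) * μ) < |G.spB N p q W j ω f - (s : ℝ) * μ|) (by
      intro ω _
      have h1 : G.spB N p q W j ω f = ∑ i : Fin s, g ⟨digs b ω i, Nat.mod_lt _ hb0⟩ := by
        unfold spB
        rw [← hss, Finset.sum_range]
        refine Finset.sum_congr rfl fun i _ => ?_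
        rw [hg]
        unfold smB
        rw [← hb]
      rw [h1])
  have hsub : ((range (b ^ s)).filter fun ω => ¬ Near (1 / (40 * G.m * N))
      s (G.spB N p q W j ω f) μ0).card ≤
      ((range (b ^ s)).filter fun ω => 1 / (100 * G.m * N) * ((s : ℝ) * μ) <
        |G.spB N p q W j ω f - (s : ℝ) * μ|).card := by
    refine card_le_card fun ω hω => ?_
    rw [mem_filter] at hω ⊢
    refine ⟨hω.1, ?_⟩
    by_contra hcon
    exact hω.2 (num_near G.m N hm hN s _ μ μ0 (Nat.cast_nonneg _) hμ0p.le (not_lt.1 hcon) hnear)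
  rw [← hcount] at hcheb
  have hbR : (((b ^ s : ℕ) : ℝ)) = (b : ℝ) ^ s := by push_cast; rfl
  rw [← hb, ← hss, hbR]
  refine le_trans ?_ hcheb
  exact mul_le_mul (by exact_mod_cast hsub) hnum (by positivity) (Nat.cast_nonneg _)

/-- Few random numbers are bad in one stage. -/
theorem stage_bad (W : ℕ) (j : Fin G.m) (hp : 0 < p) (hpq : p < q) (hN : 1 ≤ N)
    (hF : G.FineW N p q W j) :
    open Classical in
    (((range ((bB (G.code N) q ^ tB (G.code N) q) ^ sB (G.code N) q)).filter fun ω =>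
      ¬ G.GoodStg N p q W j ω).card : ℝ) ≤
      1 / (8 * G.m) * (((bB (G.code N) q ^ tB (G.code N) q) ^ sB (G.code N) q : ℕ) : ℝ) := by
  classical
  have hm : 1 ≤ G.m := by
    have := j.isLt
    omega
  have hq0 : (0 : ℝ) < q := by
    have : 0 < q := by omega
    exact_mod_cast this
  have hl0 : (0 : ℝ) ≤ (p : ℝ) / q := by positivity
  have hl1 : (p : ℝ) / q ≤ 1 := by
    rw [div_le_one hq0]
    exact_mod_cast hpq.le
  have hmR : (0 : ℝ) < G.m := by exact_mod_cast hm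
  obtain ⟨K, hK⟩ : ∃ K : ℕ, K = (bB (G.code N) q ^ tB (G.code N) q) ^ sB (G.code N) q :=
    ⟨_, rfl⟩
  obtain ⟨F, hFd⟩ : ∃ F : Finset (Fin G.n → ZMod 2), F = (G.famY G.oddT).filter fun y =>
      G.Zs ∅ (fun _ => 1) y ≠ 0 := ⟨_, rfl⟩
  have hFc : F.card ≤ DD (G.code N) := by
    rw [hFd, G.DD_code N]
    exact (card_filter_le _ _).trans (G.card_famY G.oddT)
  obtain ⟨bad, hbad⟩ : ∃ bad : (Finset (Fin G.m) → ℝ) → Finset ℕ, bad = fun f =>
      (range K).filter fun ω => ¬ Near (1 / (40 * G.m * N)) (sB (G.code N) q)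
        (G.spB N p q W j ω f) (G.mnB N p q W j f) := ⟨_, rfl⟩
  have hU : ((bad (G.obsU (G.bd univ))).card : ℝ) * (8 * G.m * (DD (G.code N) + 1)) ≤ K := by
    have hy : G.bd univ ∈ G.famY G.oddT := by
      unfold famY
      rw [mem_filter]
      refine ⟨mem_univ _, ?_⟩
      unfold oddT
      rw [sdiff_self]
      exact Nat.zero_le _
    have h := G.few_badB N p q W j hp hpq hN hm hF (G.obsU (G.bd univ)) (G.sb_obsU (G.bd univ))
      (G.mnB_U N p q W j hp hpq hF (G.bd univ) hy ⟨univ, rfl⟩).2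
    rw [← hK] at h
    rw [hbad]
    exact h
  have hV : ∀ y ∈ F, ((bad (G.obsV y ((p : ℝ) / q) j)).card : ℝ) *
      (8 * G.m * (DD (G.code N) + 1)) ≤ K := by
    intro y hy
    rw [hFd, mem_filter] at hy
    have hs : ∃ A, G.bd A = y := (G.Zs_ne_iff (fun _ => 1) (fun _ => zero_lt_one) y).1 hy.2
    have h := G.few_badB N p q W j hp hpq hN hm hF (G.obsV y ((p : ℝ) / q) j)
      (G.sb_obsV y hl0 hl1 j) (G.mnB_V N p q W j hp hpq hF y hy.1 hs).2
    rw [← hK] at h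
    rw [hbad]
    exact h
  obtain ⟨Bd, hBd⟩ : ∃ Bd : Finset ℕ, Bd = (range K).filter fun ω =>
      ¬ G.GoodStg N p q W j ω := ⟨_, rfl⟩
  have h2 : Bd ⊆ (F.biUnion fun y => bad (G.obsV y ((p : ℝ) / q) j)) ∪
      bad (G.obsU (G.bd univ)) := by
    intro ω hω
    rw [hBd, mem_filter] at hω
    obtain ⟨h3, h4⟩ := hω
    rw [mem_union]
    by_contra hcon
    rw [not_or] at hcon
    apply h4
    refine ⟨fun y hy hy1 => ?_, ?_⟩
    · by_contra h5
      apply hcon.1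
      rw [mem_biUnion]
      refine ⟨y, by rw [hFd, mem_filter]; exact ⟨hy, hy1⟩, ?_⟩
      rw [hbad]
      exact mem_filter.2 ⟨h3, h5⟩
    · by_contra h5
      apply hcon.2
      rw [hbad]
      exact mem_filter.2 ⟨h3, h5⟩
  have h3 : (Bd.card : ℝ) ≤ ∑ y ∈ F, ((bad (G.obsV y ((p : ℝ) / q) j)).card : ℝ) +
      (bad (G.obsU (G.bd univ))).card := by
    have h4 : Bd.card ≤ ∑ y ∈ F, (bad (G.obsV y ((p : ℝ) / q) j)).card +
        (bad (G.obsU (G.bd univ))).card :=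
      (card_le_card h2).trans ((card_union_le _ _).trans
        (Nat.add_le_add_right card_biUnion_le _))
    exact_mod_cast h4
  have hDp : (0 : ℝ) < (DD (G.code N) : ℝ) + 1 := by positivity
  have hKp : (0 : ℝ) ≤ K := Nat.cast_nonneg K
  have h5 : (Bd.card : ℝ) * (8 * G.m * (DD (G.code N) + 1)) ≤ (DD (G.code N) + 1) * K := by
    calc (Bd.card : ℝ) * (8 * G.m * (DD (G.code N) + 1)) ≤
        (∑ y ∈ F, ((bad (G.obsV y ((p : ℝ) / q) j)).card : ℝ) +
          (bad (G.obsU (G.bd univ))).card) * (8 * G.m * (DD (G.code N) + 1)) :=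
          mul_le_mul_of_nonneg_right h3 (by positivity)
      _ = ∑ y ∈ F, ((bad (G.obsV y ((p : ℝ) / q) j)).card : ℝ) *
            (8 * G.m * (DD (G.code N) + 1)) +
          ((bad (G.obsU (G.bd univ))).card : ℝ) * (8 * G.m * (DD (G.code N) + 1)) := by
          rw [add_mul, sum_mul]
      _ ≤ ∑ y ∈ F, (K : ℝ) + K := add_le_add (sum_le_sum hV) hU
      _ = (F.card + 1) * K := by
          rw [sum_const, nsmul_eq_mul]
          ring
      _ ≤ (DD (G.code N) + 1) * K := by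
          refine mul_le_mul_of_nonneg_right ?_ hKp
          have : (F.card : ℝ) ≤ DD (G.code N) := by exact_mod_cast hFc
          linarith
  have h6 : (Bd.card : ℝ) * (8 * G.m) ≤ K := by
    refine le_of_mul_le_mul_left ?_ hDp
    refine le_trans (le_of_eq ?_) h5
    ring
  rw [← hK, ← hBd, one_div, inv_mul_eq_div, le_div_iff₀ (by positivity)]
  exact h6

end MGraph

end Pool.Agent.Lib.H2
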